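import Pool.Agent.Work.MP_122e00_nt.Gen.Defs
import Pool.Agent.Work.MP_122e00_nt.Chamber.Basic

set_option autoImplicit false

/-!
# The sharp two-sided scheme: definitions

`r = s + 1` parts.  `W(n) = ∑_σ gs ψ σ` with `ψ y = a + b ∑ y` on the level `∑ y ≤ 1 / 2 - θ`.
`m` draws of marks WITH replacement; the tuple of the distinct marks is weighted with `Qo`
(ordered) or `Qs` (symmetric); the `T` largest marks are placed freely (groups), the others stay.
-/

namespace Pool.Agent.Work.MP_122e00_nt.Sharp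

open Finset Filter Topology MeasureTheory

open scoped ENNReal ArithmeticFunction.vonMangoldt ArithmeticFunction.zeta

open Two Gen

/-! ### the weights of the tuples of distinct marks -/

/-- Ordered weight: `m` draws, the distinct marks in the order of their first appearance are
`x 0, …, x (k - 1)`. -/
noncomputable def Qo : (k : ℕ) → ℕ → (Fin k → ℝ) → ℝ
  | 0, m, _ => if m = 0 then 1 else 0
  | k + 1, m, x => ∑ b ∈ Finset.range m,
      ((m - 1).choose b : ℝ) * x 0 ^ b * Qo k (m - 1 - b) (Fin.tail x)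

/-- Symmetric weight `∑_{r_i ≥ 1, ∑ r_i = m} m! / ∏ r_i! ∏ x_i ^ (r_i - 1)`. -/
noncomputable def Qs : (k : ℕ) → ℕ → (Fin k → ℝ) → ℝ
  | 0, m, _ => if m = 0 then 1 else 0
  | k + 1, m, x => ∑ b ∈ Finset.range m,
      (m.choose (b + 1) : ℝ) * x 0 ^ b * Qs k (m - (b + 1)) (Fin.tail x)

/-- The product of the normalisations of the marks. -/
noncomputable def rest {s k : ℕ} (x : Fin k → ℝ) (v : Fin (s + 1) → ℝ) : ℝ :=
  ∏ j : Fin k, (∑ i, x i + ∑ i, v i - ∑ i ∈ Finset.univ.filter (fun i : Fin k => i < j), x i)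

/-! ### groups -/

/-- The parts after the placement `c` of the marks. -/
noncomputable def plc {s k : ℕ} (x : Fin k → ℝ) (v : Fin (s + 1) → ℝ) (c : Fin k → Fin (s + 1)) :
    Fin (s + 1) → ℝ :=
  fun q => v q + ∑ j, if c j = q then x j else 0

open Classical in
/-- The rank of a mark (`0` for the largest one). -/
noncomputable def rk {k : ℕ} (x : Fin k → ℝ) (j : Fin k) : ℕ :=
  (Finset.univ.filter fun i => x j < x i ∨ (x i = x j ∧ i < j)).card

open Classical in
/-- The sum of `g` over the placements which agree with `c` on all marks of rank `≥ T`. -/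
noncomputable def Gr {s k : ℕ} (T : ℕ) (g : (Fin (s + 1) → ℝ) → ℝ) (x : Fin k → ℝ)
    (v : Fin (s + 1) → ℝ) (c : Fin k → Fin (s + 1)) : ℝ :=
  ∑ c' : Fin k → Fin (s + 1), if (∀ j, T ≤ rk x j → c' j = c j) then g (plc x v c') else 0

/-- The number of placements in a group. -/
noncomputable def NN (s k T : ℕ) : ℝ := ((s : ℝ) + 1) ^ min T k

/-- The contribution of one member of a group: `N` members, sum of the weights `G`. -/
noncomputable def ph (R N G : ℝ) : ℝ := if 0 < G then (N - G) ^ 2 / (N * G) else 2 * (R - 1)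

/-- The contribution of a tuple of marks. -/
noncomputable def HC {s k : ℕ} (T : ℕ) (R : ℝ) (g : (Fin (s + 1) → ℝ) → ℝ) (x : Fin k → ℝ)
    (v : Fin (s + 1) → ℝ) : ℝ :=
  ∑ c : Fin k → Fin (s + 1), ph R (NN s k T) (Gr T g x v c)

open Classical in
/-- The part of `(s + 1) ^ k - Pl g x v` of the groups with positive weight. -/
noncomputable def Up {s k : ℕ} (T : ℕ) (g : (Fin (s + 1) → ℝ) → ℝ) (x : Fin k → ℝ)
    (v : Fin (s + 1) → ℝ) : ℝ :=
  ∑ c : Fin k → Fin (s + 1), if 0 < Gr T g x v c then (NN s k T - Gr T g x v c) / NN s k T else 0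

open Classical in
/-- The number of placements in the groups of weight zero. -/
noncomputable def Zc {s k : ℕ} (T : ℕ) (g : (Fin (s + 1) → ℝ) → ℝ) (x : Fin k → ℝ)
    (v : Fin (s + 1) → ℝ) : ℝ :=
  ∑ c : Fin k → Fin (s + 1), if 0 < Gr T g x v c then 0 else 1

/-- The relevant positions. -/
def Rg {s k : ℕ} (x : Fin k → ℝ) (v : Fin (s + 1) → ℝ) : Prop :=
  (∀ j, 0 ≤ x j) ∧ (∀ i, 0 ≤ v i) ∧ ∑ j, x j + ∑ i, v i ≤ 2

open Classical in
/-- The structure function of the scheme. -/
noncomputable def FS {s : ℕ} (m T : ℕ) (R : ℝ) (g : (Fin (s + 1) → ℝ) → ℝ) (k : ℕ)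
    (x : Fin k → ℝ) (v : Fin (s + 1) → ℝ) : ℝ :=
  if Rg x v then Qo k m x * rest x v * HC T R g x v else 0

/-! ### the weight -/

/-- The weight `a + b ∑ y` on the level `1 / 2 - θ`. -/
noncomputable def psw (a b : ℝ) (s : ℕ) (θ : ℝ) (y : Fin s → ℝ) : ℝ :=
  ({y : Fin s → ℝ | (∀ i, 0 ≤ y i) ∧ ∑ i, y i ≤ 1 / 2 - θ}.indicator fun y => a + b * ∑ i, y i) y

/-- The number of factorisations. -/
noncomputable def dd (s n : ℕ) : ℝ := (((ζ : ArithmeticFunction ℕ) ^ (s + 1)) n : ℝ)

/-- The weighted number of factorisations. -/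
noncomputable def WW {s : ℕ} (ψ : (Fin s → ℝ) → ℝ) (L : ℝ) (n : ℕ) : ℝ :=
  TS L s 0 n (fun _ v => gs ψ v)

/-! ### the limit functionals -/

/-- The limit of the mean value of the structure sum. -/
noncomputable def IK (s m T : ℕ) (R a b θ : ℝ) (k : ℕ) : ℝ :=
  ∫ y in Sim k s, ext (FS m T R (gs (psw a b s θ)) k) (y, 1 - ∑ i, y i) * den y

/-- The sorted marks. -/
def Srt (k : ℕ) : Set (Fin k → ℝ) := {x | StrictAnti x}

/-- The moments of `l` hidden marks: `t` draws, all marks less than `z`, the total of the hidden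
marks on part `q` is less than `h q`. -/
noncomputable def muL {s : ℕ} (l t : ℕ) (h : Fin (s + 1) → ℝ) (z : ℝ) : ℝ≥0∞ :=
  ∑ c : Fin l → Fin (s + 1),
    ∫⁻ y in {y : Fin l → ℝ | (∀ i, 0 < y i ∧ y i < z) ∧
      ∀ q, (∑ i, if c i = q then y i else 0) < h q}, ENNReal.ofReal (Qo l t y)

/-- The moments of the hidden marks. -/
noncomputable def mu {s : ℕ} (t : ℕ) (h : Fin (s + 1) → ℝ) (z : ℝ) : ℝ≥0∞ :=
  ∑ l ∈ Finset.range (t + 1), muL l t h z

/-- The moments of the Poisson model: `b` types. -/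
noncomputable def be (b : ℕ) : ℕ → ℝ
  | 0 => 1
  | t + 1 => b * ∑ i ∈ (Finset.range (t + 1)).attach,
      (t.choose i.1 : ℝ) * be b (t - i.1) / ((i.1 : ℝ) + 1)
  decreasing_by
    have := Finset.mem_range.1 i.2
    omega

/-- The bound for the moments: total size `S` of the parts treated exactly, `b` other parts. -/
noncomputable def Bt (b t : ℕ) (S z : ℝ) : ℝ :=
  ∑ j ∈ Finset.range (t + 1), (t.choose j : ℝ) * S ^ (t - j) * (be b j * z ^ j)

/-- The position of a point of `Sim k s`. -/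
noncomputable def xs {k s : ℕ} (y : Fin k ⊕ Fin s → ℝ) : Fin k → ℝ := fun i => y (Sum.inl i)

/-- The parts of a point of `Sim k s`. -/
noncomputable def vs {k s : ℕ} (y : Fin k ⊕ Fin s → ℝ) : Fin (s + 1) → ℝ :=
  Fin.snoc (fun i => y (Sum.inr i)) (1 - ∑ i, y i)

/-- `N` times the contribution of one member of a group. -/
noncomputable def pg (R N G : ℝ) : ℝ := if 0 < G then (N - G) ^ 2 / G else 2 * (R - 1) * N

/-- The limit of the mean value of the structure sum, as a Lebesgue integral. -/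
noncomputable def IL (s m T : ℕ) (R : ℝ) (g : (Fin (s + 1) → ℝ) → ℝ) (k : ℕ) : ℝ≥0∞ :=
  ∫⁻ y in Sim k s, ENNReal.ofReal (Qo k m (xs y) * HC T R g (xs y) (vs y))

/-! ### three parts: homogeneous coordinates `(x, h)` and sorted simplices -/

/-- The marks of a point with `k` marks and three parts. -/
def px {k : ℕ} (p : Fin (k + 3) → ℝ) : Fin k → ℝ := fun i => p (Fin.castAdd 3 i)

/-- The parts of a point with `k` marks and three parts. -/
def ph3 {k : ℕ} (p : Fin (k + 3) → ℝ) : Fin 3 → ℝ := fun i => p (Fin.natAdd k i)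

/-- The vertices of the sorted simplex. -/
noncomputable def V0 (k : ℕ) (i : Fin (k + 3)) (j : Fin (k + 3)) : ℝ :=
  if i.val < k then (if j.val ≤ i.val then 1 / ((i.val : ℝ) + 1) else 0)
  else (if k ≤ j.val ∧ j.val ≤ i.val then 1 / ((i.val : ℝ) - k + 1) else 0)

/-- The vertices of the sorted simplex, the last one being `none`. -/
noncomputable def V1 (k : ℕ) : Option (Fin (k + 2)) → Fin (k + 3) → ℝ
  | some i => V0 k i.castSucc
  | none => V0 k (Fin.last (k + 2))

/-- The weight `(4 / 9) (1 + 6 t)` for three parts. -/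
noncomputable def g3 (θ : ℝ) : (Fin 3 → ℝ) → ℝ := gs (psw (4 / 9) (8 / 3) 2 θ)

/-- The integrand for `k` marks, none hidden. -/
noncomputable def Jf (m k : ℕ) (R : ℝ) (p : Fin (k + 3) → ℝ) : ℝ :=
  Qs k m (px p) * pg R (3 ^ k) (Pl (g3 0) (px p) (ph3 p))

/-- The density for `T` visible marks, the bound with `b` big parts. -/
noncomputable def Pb (m b : ℕ) {k : ℕ} (p : Fin (k + 1 + 3) → ℝ) : ℝ :=
  ∑ t ∈ Finset.range (m + 1), (m.choose t : ℝ) * Qs (k + 1) (m - t) (px p) *
    Bt b t (∑ q : Fin 3, if b ≤ q.val then ph3 p q else 0) (px p (Fin.last k))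

/-- The integrand for `k + 1` visible marks, the others hidden. -/
noncomputable def Jh (m k : ℕ) (R : ℝ) (p : Fin (k + 1 + 3) → ℝ) : ℝ :=
  min (min (Pb m 0 p) (Pb m 1 p)) (min (Pb m 2 p) (Pb m 3 p)) *
    pg R (3 ^ (k + 1)) (Pl (g3 0) (px p) (ph3 p))

/-- The integral over the sorted simplex, no mark hidden. -/
noncomputable def Jk (m k : ℕ) (R : ℝ) : ℝ≥0∞ :=
  ENNReal.ofReal (1 / (k.factorial : ℝ)) *
    Chamber.EV (V1 k) fun p => ENNReal.ofReal (Jf m k R p)

/-- The integral over the sorted simplex, with hidden marks. -/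
noncomputable def JH (m k : ℕ) (R : ℝ) : ℝ≥0∞ :=
  ENNReal.ofReal (1 / ((k + 1).factorial : ℝ)) *
    Chamber.EV (V1 (k + 1)) fun p => ENNReal.ofReal (Jh m k R p)

end Pool.Agent.Work.MP_122e00_nt.Sharp
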