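import Pool.Agent.Work.MP_122e00_nt.Gen.Stmts
import Pool.Agent.Work.MP_122e00_nt.Sharp.Defs

set_option autoImplicit false

/-!
# The sharp two-sided scheme: statements

Q: the weights.  D: pointwise.  F: the structure function.  M: mean values.
I: the limit functionals.
-/

namespace Pool.Agent.Work.MP_122e00_nt.Sharp

open Finset Filter Topology MeasureTheory

open scoped ENNReal ArithmeticFunction.vonMangoldt ArithmeticFunction.zeta

open Two Gen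

/-! ## Q: the weights -/

/-- Q0: the symmetric weight is a coefficient of a product of power series. -/
def claimQ0 : Prop := ∀ (k m : ℕ) (x : Fin k → ℝ), Qs k m x = (m.factorial : ℝ) *
    PowerSeries.coeff m (∏ i : Fin k, PowerSeries.mk fun n : ℕ =>
      if n = 0 then (0 : ℝ) else x i ^ (n - 1) / (n.factorial : ℝ))

/-- Q1: symmetrisation of the ordered weight. -/
def claimQ1 : Prop := ∀ (k m : ℕ) (x : Fin k → ℝ),
    ∑ σ : Equiv.Perm (Fin k), Qo k m (fun i => x (σ i)) = Qs k m x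

/-- Q2: splitting of the symmetric weight. -/
def claimQ2 : Prop := ∀ (T l m : ℕ) (x : Fin T → ℝ) (y : Fin l → ℝ),
    Qs (T + l) m (Fin.append x y) =
      ∑ t ∈ Finset.range (m + 1), (m.choose t : ℝ) * Qs T (m - t) x * Qs l t y

/-- Q3: simple properties of the weights. -/
def claimQ3 : Prop := (∀ (k m : ℕ) (x : Fin k → ℝ), (∀ i, 0 ≤ x i) → 0 ≤ Qo k m x ∧ 0 ≤ Qs k m x) ∧
    (∀ k m : ℕ, Continuous (Qo k m) ∧ Continuous (Qs k m)) ∧
    (∀ (k m : ℕ) (x : Fin k → ℝ), m < k → Qo k m x = 0 ∧ Qs k m x = 0) ∧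
    (∀ m : ℕ, ∃ B : ℝ, ∀ (k : ℕ) (x : Fin k → ℝ), (∀ i, 0 ≤ x i ∧ x i ≤ 2) → Qo k m x ≤ B)

/-! ## D: pointwise -/

/-- D1: `m` draws with replacement. -/
def claimD1 : Prop := ∀ (L : ℝ) (s m n : ℕ) (g : (Fin (s + 1) → ℝ) → ℝ), 0 < L → n ≠ 0 →
    (Real.log n / L) ^ m * TS L s 0 n (fun _ v => g v) =
      ∑ k ∈ Finset.range (m + 1), TS L s k n (fun x v => Qo k m x * rest x v * Pl g x v)

/-- D2: ranks. -/
def claimD2 : Prop := ∀ (k T : ℕ) (x : Fin k → ℝ),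
    (Finset.univ.filter fun j => rk x j < T).card = min T k

/-- D3: every placement is in `NN s k T` groups. -/
def claimD3 : Prop := ∀ (s k T : ℕ) (g : (Fin (s + 1) → ℝ) → ℝ) (x : Fin k → ℝ)
    (v : Fin (s + 1) → ℝ), ∑ c : Fin k → Fin (s + 1), Gr T g x v c = NN s k T * Pl g x v

/-- D4: the inequality for one tuple of marks. -/
def claimD4 : Prop := ∀ (s k T : ℕ) (R : ℝ) (g : (Fin (s + 1) → ℝ) → ℝ) (x : Fin k → ℝ)
    (v : Fin (s + 1) → ℝ), (∀ w, 0 ≤ g w) →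
    ((s : ℝ) + 1) ^ k - Pl g x v = Up T g x v + Zc T g x v ∧ 0 ≤ Zc T g x v ∧
      0 ≤ HC T R g x v - 2 * (R - 1) * Zc T g x v ∧
      Up T g x v ^ 2 ≤ (HC T R g x v - 2 * (R - 1) * Zc T g x v) * Pl g x v

/-- D5: the inequality for the structure sums. -/
def claimD5 : Prop := ∀ (L : ℝ) (s m T n : ℕ) (R : ℝ) (g : (Fin (s + 1) → ℝ) → ℝ), 0 < L →
    n ≠ 0 → 1 ≤ m → 1 ≤ R → (∀ w, 0 ≤ g w) →
    dd s n ≤ R * TS L s 0 n (fun _ v => g v) →
    0 ≤ ∑ k ∈ Finset.range (m + 1), TS L s k n (fun x v => Qo k m x * rest x v * HC T R g x v) ∧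
    ((Real.log n / L) ^ m * (dd s n - TS L s 0 n (fun _ v => g v))) ^ 2 ≤
      (∑ k ∈ Finset.range (m + 1), TS L s k n (fun x v => Qo k m x * rest x v * HC T R g x v)) *
      ((Real.log n / L) ^ m * TS L s 0 n (fun _ v => g v))

/-- D6: the inequality for the integers which are not exceptional. -/
def claimD6 : Prop := ∀ (s m T : ℕ) (R a b θ δ : ℝ), 1 ≤ s → 1 ≤ m → 1 ≤ R → 0 < a → 0 ≤ b →
    0 < θ → θ < 1 / 2 → 0 < δ → ∀ᶠ X : ℝ in atTop, ∀ n : ℕ, X / Real.log X ≤ (n : ℝ) →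
      (n : ℝ) ≤ X →
      0 ≤ ∑ k ∈ Finset.range (m + 1),
        TS (Real.log X) s k n (FS m T R (gs (psw a b s θ)) k) ∧
      (dd s n ≤ R * WW (psw a b s θ) (Real.log X) n →
        (dd s n - WW (psw a b s θ) (Real.log X) n) ^ 2 ≤
          ((1 + δ) * ∑ k ∈ Finset.range (m + 1),
            TS (Real.log X) s k n (FS m T R (gs (psw a b s θ)) k)) *
          WW (psw a b s θ) (Real.log X) n)

/-! ## F: the structure function -/

/-- F1: bounds. -/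
def claimF1 : Prop := ∀ (s m T : ℕ) (R a b : ℝ), 0 < a → 0 ≤ b → 1 ≤ R → ∃ B : ℝ, ∀ θ : ℝ,
    0 ≤ θ → ∀ (k : ℕ) (x : Fin k → ℝ) (v : Fin (s + 1) → ℝ),
    0 ≤ FS m T R (gs (psw a b s θ)) k x v ∧ FS m T R (gs (psw a b s θ)) k x v ≤ B

/-- F2: continuity almost everywhere. -/
def claimF2 : Prop := ∀ (s m T k : ℕ) (R a b θ : ℝ), 1 ≤ s → 0 < a → 0 ≤ b → 0 ≤ θ → θ < 1 / 2 →
    ∀ᵐ y ∂(volume.restrict (Sim k s)),
      ContinuousAt (ext (FS m T R (gs (psw a b s θ)) k)) (y, 1 - ∑ i, y i)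

/-- F3: the weight. -/
def claimF3 : Prop := ∀ (s : ℕ) (a b θ : ℝ), 1 ≤ s → 0 ≤ a → 0 ≤ b → 0 < θ → θ < 1 / 2 →
    Wt s θ (psw a b s θ) ∧ ∫ y in O1 s, psw a b s θ y =
      a * ((1 / 2 - θ) ^ s / (s.factorial : ℝ)) +
        b * (s * (1 / 2 - θ) ^ (s + 1) / ((s + 1).factorial : ℝ))

/-! ## M: mean values -/

/-- M1: the mean value of the structure sums. -/
def claimN1 : Prop := ∀ (s m T h : ℕ) (R a b θ : ℝ), 1 ≤ s → h ≠ 0 → 0 < a → 0 ≤ b → 1 ≤ R →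
    0 < θ → θ < 1 / 2 →
    Mean s h (psw a b s θ) (fun X n => ∑ k ∈ Finset.range (m + 1),
        TS (Real.log X) s k n (FS m T R (gs (psw a b s θ)) k))
      (∑ k ∈ Finset.range (m + 1), IK s m T R a b θ k)

/-! ## I: the limit functionals -/

/-- I0: `θ → 0`. -/
def claimI0 : Prop := ∀ (s m T k : ℕ) (R a b : ℝ), 1 ≤ s → 0 < a → 0 ≤ b → 1 ≤ R →
    Tendsto (fun θ : ℝ => IK s m T R a b θ k) (𝓝[>] 0) (𝓝 (IK s m T R a b 0 k))

/-- I1: Lebesgue integrals. -/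
def claimI1 : Prop := ∀ (s m T k : ℕ) (R a b : ℝ), 1 ≤ s → 0 < a → 0 ≤ b → 1 ≤ R →
    ENNReal.ofReal (IK s m T R a b 0 k) ≤ IL s m T R (gs (psw a b s 0)) k

/-- I2: sorting. -/
def claimI2 : Prop := ∀ (k : ℕ) (f : (Fin k → ℝ) → ℝ≥0∞), Measurable f →
    ∫⁻ x, f x = ∫⁻ x in Srt k, ∑ σ : Equiv.Perm (Fin k), f (fun i => x (σ i))

/-- I3: permutations of the marks. -/
def claimI3 : Prop := ∀ (s k T : ℕ) (R : ℝ) (g : (Fin (s + 1) → ℝ) → ℝ) (x : Fin k → ℝ)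
    (v : Fin (s + 1) → ℝ) (σ : Equiv.Perm (Fin k)), Function.Injective x →
    HC T R g (fun i => x (σ i)) v = HC T R g x v

/-- I4: at most `T` marks. -/
def claimI4 : Prop := ∀ (s k T : ℕ) (R : ℝ) (g : (Fin (s + 1) → ℝ) → ℝ) (x : Fin k → ℝ)
    (v : Fin (s + 1) → ℝ), k ≤ T → HC T R g x v = pg R (((s : ℝ) + 1) ^ k) (Pl g x v)

/-- I5: visible marks `x` and hidden marks `y`. -/
def claimI5 : Prop := ∀ (s T l : ℕ) (R : ℝ) (g : (Fin (s + 1) → ℝ) → ℝ) (x : Fin T → ℝ)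
    (y : Fin l → ℝ) (v : Fin (s + 1) → ℝ), (∀ i j, y j < x i) →
    HC T R g (Fin.append x y) v =
      ∑ c : Fin l → Fin (s + 1), pg R (((s : ℝ) + 1) ^ T) (Pl g x (plc y v c))

/-- I6: measurability. -/
def claimI6 : Prop := ∀ (s k T : ℕ) (R : ℝ) (g : (Fin (s + 1) → ℝ) → ℝ), Measurable g →
    Measurable (fun p : (Fin k → ℝ) × (Fin (s + 1) → ℝ) => HC T R g p.1 p.2) ∧
    Measurable (fun p : (Fin k → ℝ) × (Fin (s + 1) → ℝ) => Pl g p.1 p.2) ∧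
    (∀ N : ℝ, Measurable (pg R N)) ∧
    (∀ (l t : ℕ), Measurable (fun p : (Fin (s + 1) → ℝ) × ℝ => muL l t p.1 p.2))

/-- I7: at most `T` marks, sorted. -/
def claimI7 : Prop := ∀ (s k m T : ℕ) (R : ℝ) (g : (Fin (s + 1) → ℝ) → ℝ), Measurable g →
    k ≤ T → 1 ≤ R →
    IL s m T R g k = ∫⁻ y in Sim k s ∩ {y | xs y ∈ Srt k},
      ENNReal.ofReal (Qs k m (xs y) * pg R (((s : ℝ) + 1) ^ k) (Pl g (xs y) (vs y)))

/-- I8: `T` visible and `l` hidden marks. -/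
def claimI8 : Prop := ∀ (s m T l : ℕ) (R : ℝ) (g : (Fin (s + 1) → ℝ) → ℝ), Measurable g →
    1 ≤ R →
    IL s m (T + 1) R g (T + 1 + l) = ∫⁻ y in Sim (T + 1) s ∩ {y | xs y ∈ Srt (T + 1)},
      ENNReal.ofReal (pg R (((s : ℝ) + 1) ^ (T + 1)) (Pl g (xs y) (vs y))) *
      ∑ t ∈ Finset.range (m + 1), ENNReal.ofReal ((m.choose t : ℝ) * Qs (T + 1) (m - t) (xs y)) *
        muL l t (vs y) (xs y (Fin.last T))

/-- I9: the recursion for the moments. -/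
def claimI9 : Prop := ∀ (s t : ℕ) (h : Fin (s + 1) → ℝ) (z : ℝ),
    mu (t + 1) h z = ∑ b ∈ Finset.range (t + 1), ∑ q : Fin (s + 1),
      ENNReal.ofReal (t.choose b : ℝ) * ∫⁻ y in {y : ℝ | 0 < y ∧ y < z ∧ y < h q},
        ENNReal.ofReal (y ^ b) * mu (t - b) (fun i => if i = q then h i - y else h i) z

/-- I10: the bound for the moments. -/
def claimI10 : Prop := ∀ (s t : ℕ) (h : Fin (s + 1) → ℝ) (z : ℝ) (A : Finset (Fin (s + 1))),
    0 ≤ z → (∀ q, 0 ≤ h q) →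
    mu t h z ≤ ENNReal.ofReal (Bt (s + 1 - A.card) t (∑ q ∈ A, h q) z)

/-- I11: all hidden marks together. -/
def claimI11 : Prop := ∀ (s m T : ℕ) (R : ℝ) (g : (Fin (s + 1) → ℝ) → ℝ), Measurable g →
    1 ≤ R → ∀ K : ℕ,
    ∑ l ∈ Finset.range K, IL s m (T + 1) R g (T + 1 + l) ≤
      ∫⁻ y in Sim (T + 1) s ∩ {y | xs y ∈ Srt (T + 1)},
      ENNReal.ofReal (pg R (((s : ℝ) + 1) ^ (T + 1)) (Pl g (xs y) (vs y))) *
      ∑ t ∈ Finset.range (m + 1), ENNReal.ofReal ((m.choose t : ℝ) * Qs (T + 1) (m - t) (xs y)) *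
        mu t (vs y) (xs y (Fin.last T))

/-- I12: permutations of the parts. -/
def claimI12 : Prop := (∀ (s t : ℕ) (h : Fin (s + 1) → ℝ) (z : ℝ) (σ : Equiv.Perm (Fin (s + 1))),
      mu t (fun i => h (σ i)) z = mu t h z) ∧
    (∀ (s k : ℕ) (ψ : (Fin s → ℝ) → ℝ), (∀ (y : Fin s → ℝ) (τ : Equiv.Perm (Fin s)),
      ψ (fun i => y (τ i)) = ψ y) → ∀ (x : Fin k → ℝ) (v : Fin (s + 1) → ℝ)
      (σ : Equiv.Perm (Fin (s + 1))), Pl (gs ψ) x (fun i => v (σ i)) = Pl (gs ψ) x v)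

/-- I13: the simplex with sorted marks, in coordinates: Jacobian `1 / k!`. -/
def claimI13 : Prop := ∀ (k : ℕ) (G : (Fin (k + 3) → ℝ) → ℝ≥0∞), Measurable G →
    ∫⁻ y in Sim k 2 ∩ {y | xs y ∈ Srt k}, G (Fin.append (xs y) (vs y)) =
      ENNReal.ofReal (1 / (k.factorial : ℝ)) *
        Chamber.EV (fun o : Option (Fin (k + 2)) => fun j : Fin (k + 3) =>
          match o with
          | some i => if i.val < k then (if j.val ≤ i.val then 1 / ((i.val : ℝ) + 1) else 0)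
            else (if j.val = i.val then 1 else 0)
          | none => if j.val = k + 2 then 1 else 0) G

/-- I14: sorted parts. -/
def claimI14 : Prop := ∀ (k : ℕ) (G : (Fin (k + 3) → ℝ) → ℝ≥0∞), Measurable G →
    (∀ (x : Fin k → ℝ) (v : Fin 3 → ℝ) (σ : Equiv.Perm (Fin 3)),
      G (Fin.append x (fun i => v (σ i))) = G (Fin.append x v)) →
    Chamber.EV (fun o : Option (Fin (k + 2)) => fun j : Fin (k + 3) =>
          match o with
          | some i => if i.val < k then (if j.val ≤ i.val then 1 / ((i.val : ℝ) + 1) else 0)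
            else (if j.val = i.val then 1 else 0)
          | none => if j.val = k + 2 then 1 else 0) G = Chamber.EV (V1 k) G

/-- I15: the final bound for at most `T` marks. -/
def claimI15 : Prop := ∀ (m T k : ℕ) (R : ℝ), k ≤ T → 1 ≤ R →
    IL 2 m T R (g3 0) k ≤ Jk m k R

/-- I16: the final bound with hidden marks. -/
def claimI16 : Prop := ∀ (m T K : ℕ) (R : ℝ), 1 ≤ R →
    ∑ l ∈ Finset.range K, IL 2 m (T + 1) R (g3 0) (T + 1 + l) ≤ JH m T R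

end Pool.Agent.Work.MP_122e00_nt.Sharp
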