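import Pool.Agent.Work.MP_122e00_nt.Sharp.Stmts
import Pool.Agent.Work.MP_122e00_nt.Bd.B40
import Pool.Agent.Work.MP_122e00_nt.Two.ItemT8

set_option autoImplicit false

/-!
# Item F2: continuity almost everywhere of the structure function
-/

namespace Pool.Agent.Work.MP_122e00_nt.Sharp

open Finset Filter Topology MeasureTheory

open Two Gen

namespace IF2

/-- A linear form which does not vanish takes a given value almost nowhere. -/
lemma ae_ne {ι : Type} [Fintype ι] (L : (ι → ℝ) →ₗ[ℝ] ℝ) (u : ι → ℝ) (hu : L u ≠ 0) (b : ℝ) :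
    ∀ᵐ y : ι → ℝ, L y ≠ b := by
  classical
  have hL : ∀ y, L y = ∑ i, L (fun j => if i = j then 1 else 0) * y i := by
    intro y
    rw [LinearMap.pi_apply_eq_sum_univ L y]
    exact Finset.sum_congr rfl fun i _ => by rw [smul_eq_mul, mul_comm]
  have h := Two.prfL6 ι (fun i => L (fun j => if i = j then 1 else 0)) b ?_
  · rw [ae_iff]
    have e : {y : ι → ℝ | ¬ L y ≠ b} =
        {y | ∑ i, L (fun j => if i = j then 1 else 0) * y i = b} := by
      ext y
      simp only [Set.mem_ofPred_eq, not_not]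
      rw [hL y]
    rw [e]
    exact h
  · intro h0
    apply hu
    rw [hL u]
    refine Finset.sum_eq_zero fun i _ => ?_
    have := congrFun h0 i
    simp only [Pi.zero_apply] at this
    rw [this, zero_mul]

variable {P : Type*} [TopologicalSpace P]

lemma ev_lt {f g : P → ℝ} {p0 : P} (hf : ContinuousAt f p0) (hg : ContinuousAt g p0)
    (h : f p0 ≠ g p0) : ∀ᶠ p in 𝓝 p0, (f p < g p ↔ f p0 < g p0) ∧ f p ≠ g p := by
  rcases lt_or_gt_of_ne h with h1 | h1
  · filter_upwards [hf.eventually_lt hg h1] with p hp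
    exact ⟨⟨fun _ => h1, fun _ => hp⟩, hp.ne⟩
  · filter_upwards [hg.eventually_lt hf h1] with p hp
    exact ⟨⟨fun h2 => absurd h2 (not_lt.2 hp.le), fun h2 => absurd h2 (not_lt.2 h1.le)⟩, hp.ne'⟩

/-- Continuous and nonnegative at `p0`, locally zero if zero at `p0`. -/
def Gd (f : P → ℝ) (p0 : P) : Prop :=
  ContinuousAt f p0 ∧ 0 ≤ f p0 ∧ (f p0 = 0 → ∀ᶠ p in 𝓝 p0, f p = 0)

lemma Gd_sum {ι : Type*} (S : Finset ι) (f : ι → P → ℝ) (p0 : P) (h : ∀ i ∈ S, Gd (f i) p0) :
    Gd (fun p => ∑ i ∈ S, f i p) p0 := by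
  refine ⟨tendsto_finsetSum _ fun i hi => (h i hi).1,
    Finset.sum_nonneg fun i hi => (h i hi).2.1, fun h0 => ?_⟩
  have h1 := (Finset.sum_eq_zero_iff_of_nonneg fun i hi => (h i hi).2.1).1 h0
  have h2 : ∀ᶠ p in 𝓝 p0, ∀ i ∈ S, f i p = 0 :=
    (S.eventually_all).2 fun i hi => (h i hi).2.2 (h1 i hi)
  filter_upwards [h2] with p hp
  exact Finset.sum_eq_zero hp

lemma Gd_congr {f g : P → ℝ} {p0 : P} (h : Gd f p0) (e : f =ᶠ[𝓝 p0] g) : Gd g p0 := by
  obtain ⟨h1, h2, h3⟩ := h
  have e0 : f p0 = g p0 := e.self_of_nhds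
  refine ⟨h1.congr e, e0 ▸ h2, fun h0 => ?_⟩
  rw [← e0] at h0
  filter_upwards [h3 h0, e] with p hp1 hp2
  rw [← hp2, hp1]

lemma Gd_zero (p0 : P) : Gd (fun _ : P => (0 : ℝ)) p0 :=
  ⟨continuousAt_const, le_refl _, fun _ => Eventually.of_forall fun _ => rfl⟩

lemma ph_cont {f : P → ℝ} {p0 : P} (h : Gd f p0) (R N : ℝ) (hN : N ≠ 0) :
    ContinuousAt (fun p => ph R N (f p)) p0 := by
  obtain ⟨h1, h2, h3⟩ := h
  rcases h2.eq_or_lt with h0 | h0
  · refine (continuousAt_const (y := 2 * (R - 1))).congr ?_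
    filter_upwards [h3 h0.symm] with p hp
    unfold ph
    rw [hp, if_neg (lt_irrefl _)]
  · have hl := (continuousAt_const (y := (0 : ℝ))).eventually_lt h1 h0
    have hc : ContinuousAt (fun p => (N - f p) ^ 2 / (N * f p)) p0 := by
      refine ContinuousAt.div ?_ ?_ ?_
      · exact (continuousAt_const.sub h1).pow 2
      · exact continuousAt_const.mul h1
      · exact mul_ne_zero hN h0.ne'
    refine hc.congr ?_
    filter_upwards [hl] with p hp
    unfold ph
    rw [if_pos hp]

lemma psw_Gd {s : ℕ} {a b θ : ℝ} (ha : 0 < a) (hb : 0 ≤ b) {w : P → Fin s → ℝ} {p0 : P}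
    (hw : ∀ q, ContinuousAt (fun p => w p q) p0) (hpos : ∀ q, 0 < w p0 q)
    (hne : ∑ q, w p0 q ≠ 1 / 2 - θ) : Gd (fun p => psw a b s θ (w p)) p0 := by
  have e1 := eventually_all.2 fun q =>
    (continuousAt_const (y := (0 : ℝ))).eventually_lt (hw q) (hpos q)
  have cS : ContinuousAt (fun p => ∑ q, w p q) p0 := tendsto_finsetSum _ fun q _ => hw q
  rcases lt_or_gt_of_ne hne with h1 | h1
  · have e2 := cS.eventually_lt (continuousAt_const (y := 1 / 2 - θ)) h1
    have hG : Gd (fun p => a + b * ∑ q, w p q) p0 := by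
      have h0 : 0 ≤ ∑ q, w p0 q := Finset.sum_nonneg fun q _ => (hpos q).le
      have h2 : 0 < a + b * ∑ q, w p0 q := by positivity
      exact ⟨continuousAt_const.add (continuousAt_const.mul cS), h2.le, fun h3 => absurd h3 h2.ne'⟩
    refine Gd_congr hG ?_
    filter_upwards [e1, e2] with p h1 h2
    unfold psw
    rw [Set.indicator_of_mem]
    exact ⟨fun i => (h1 i).le, h2.le⟩
  · have e2 := (continuousAt_const (y := 1 / 2 - θ)).eventually_lt cS h1
    refine Gd_congr (Gd_zero p0) ?_
    filter_upwards [e2] with p h2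
    unfold psw
    rw [Set.indicator_of_notMem]
    exact fun h => absurd h.2 (not_le.2 h2)

lemma rk_ev {k : ℕ} {X : P → Fin k → ℝ} {p0 : P} (hX : ∀ j, ContinuousAt (fun p => X p j) p0)
    (hne : ∀ i j, i ≠ j → X p0 i ≠ X p0 j) : ∀ᶠ p in 𝓝 p0, ∀ j, rk (X p) j = rk (X p0) j := by
  classical
  have key : ∀ j i, ∀ᶠ p in 𝓝 p0, ((X p j < X p i ∨ (X p i = X p j ∧ i < j)) ↔
      (X p0 j < X p0 i ∨ (X p0 i = X p0 j ∧ i < j))) := by
    intro j i
    by_cases h : i = j
    · subst h
      exact Eventually.of_forall fun p => by simp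
    · filter_upwards [ev_lt (hX j) (hX i) (hne j i (Ne.symm h))] with p hp
      simp only [hp.1, hp.2.symm, hne i j h, false_and, or_false]
  filter_upwards [eventually_all.2 fun j => eventually_all.2 fun i => key j i] with p hp j
  unfold rk
  congr 1
  exact Finset.filter_congr fun i _ => hp j i

/-- The total of the parts after the placement. -/
lemma sum_plc {s k : ℕ} (x : Fin k → ℝ) (v : Fin (s + 1) → ℝ) (c : Fin k → Fin (s + 1)) :
    ∑ q, plc x v c q = ∑ j, x j + ∑ q, v q := by
  unfold plc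
  rw [Finset.sum_add_distrib, Finset.sum_comm, add_comm]
  congr 1
  refine Finset.sum_congr rfl fun j _ => ?_
  rw [Finset.sum_ite_eq Finset.univ (c j) fun _ => x j]
  simp

lemma ae_plc (k s : ℕ) (hs : 1 ≤ s) (c : Fin k → Fin (s + 1)) (q : Fin (s + 1)) (e : ℝ) :
    ∀ᵐ y : Fin k ⊕ Fin s → ℝ, plc (xs y) (vs y) c q ≠ e := by
  classical
  induction q using Fin.lastCases with
  | last =>
    have h := ae_ne (-(∑ i, (LinearMap.proj i : (Fin k ⊕ Fin s → ℝ) →ₗ[ℝ] ℝ)) +
      ∑ j : Fin k, (if c j = Fin.last s then (1 : ℝ) else 0) •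
        (LinearMap.proj (Sum.inl j) : (Fin k ⊕ Fin s → ℝ) →ₗ[ℝ] ℝ))
      (Sum.elim (fun _ => 0) (fun i => if i = ⟨0, hs⟩ then 1 else 0)) ?_ (e - 1)
    · filter_upwards [h] with y hy e1
      apply hy
      have e2 : vs y (Fin.last s) = 1 - ∑ i, y i := by
        unfold vs
        rw [Fin.snoc_last]
      unfold plc at e1
      rw [e2] at e1
      simp only [LinearMap.add_apply, LinearMap.neg_apply, LinearMap.sum_apply,
        LinearMap.smul_apply, LinearMap.proj_apply, smul_eq_mul, ite_mul, one_mul, zero_mul]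
      unfold xs at e1
      linarith
    · simp only [LinearMap.add_apply, LinearMap.neg_apply, LinearMap.sum_apply,
        LinearMap.smul_apply, LinearMap.proj_apply, smul_eq_mul, Fintype.sum_sum_type,
        Sum.elim_inl, Sum.elim_inr, mul_zero, Finset.sum_const_zero, add_zero, zero_add,
        Finset.sum_ite_eq', Finset.mem_univ, if_true]
      norm_num
  | cast i0 =>
    have h := ae_ne ((LinearMap.proj (Sum.inr i0) : (Fin k ⊕ Fin s → ℝ) →ₗ[ℝ] ℝ) +
      ∑ j : Fin k, (if c j = i0.castSucc then (1 : ℝ) else 0) •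
        (LinearMap.proj (Sum.inl j) : (Fin k ⊕ Fin s → ℝ) →ₗ[ℝ] ℝ))
      (Sum.elim (fun _ => 0) (fun i => if i = i0 then 1 else 0)) ?_ e
    · filter_upwards [h] with y hy e1
      apply hy
      have e2 : vs y i0.castSucc = y (Sum.inr i0) := by
        unfold vs
        rw [Fin.snoc_castSucc]
      unfold plc at e1
      rw [e2] at e1
      simp only [LinearMap.add_apply, LinearMap.sum_apply,
        LinearMap.smul_apply, LinearMap.proj_apply, smul_eq_mul, ite_mul, one_mul, zero_mul]
      unfold xs at e1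
      exact e1
    · simp only [LinearMap.add_apply, LinearMap.sum_apply,
        LinearMap.smul_apply, LinearMap.proj_apply, smul_eq_mul,
        Sum.elim_inl, Sum.elim_inr, mul_zero, Finset.sum_const_zero, add_zero, if_true]
      norm_num

lemma ae_x (k s : ℕ) (i j : Fin k) (h : i ≠ j) :
    ∀ᵐ y : Fin k ⊕ Fin s → ℝ, xs y i ≠ xs y j := by
  classical
  have h := ae_ne ((LinearMap.proj (Sum.inl i) : (Fin k ⊕ Fin s → ℝ) →ₗ[ℝ] ℝ) -
    (LinearMap.proj (Sum.inl j) : (Fin k ⊕ Fin s → ℝ) →ₗ[ℝ] ℝ))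
    (Sum.elim (fun i' => if i' = i then 1 else 0) (fun _ => 0)) ?_ 0
  · filter_upwards [h] with y hy e1
    apply hy
    simp only [LinearMap.sub_apply, LinearMap.proj_apply]
    unfold xs at e1
    rw [e1, sub_self]
  · simp only [LinearMap.sub_apply, LinearMap.proj_apply, Sum.elim_inl, if_true, Ne.symm h,
      if_false]
    norm_num

/-- The parts at a point with free last coordinate. -/
noncomputable def vv {k s : ℕ} (p : (Fin k ⊕ Fin s → ℝ) × ℝ) : Fin (s + 1) → ℝ :=
  Fin.snoc (α := fun _ => ℝ) (fun i : Fin s => p.1 (Sum.inr i)) p.2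

lemma vv_cont (k s : ℕ) (q : Fin (s + 1)) :
    Continuous (fun p : (Fin k ⊕ Fin s → ℝ) × ℝ => vv p q) := by
  induction q using Fin.lastCases with
  | last =>
    have : (fun p : (Fin k ⊕ Fin s → ℝ) × ℝ => vv p (Fin.last s)) = fun p => p.2 := by
      funext p
      unfold vv
      rw [Fin.snoc_last]
    rw [this]
    fun_prop
  | cast i =>
    have : (fun p : (Fin k ⊕ Fin s → ℝ) × ℝ => vv p i.castSucc) = fun p => p.1 (Sum.inr i) := by
      funext p
      unfold vv
      rw [Fin.snoc_castSucc]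
    rw [this]
    fun_prop

end IF2

open IF2 in
theorem prfF2 (hQ : claimQ3) : claimF2 := by
  classical
  intro s m T k R a b θ hs ha hb hth hth1
  have hA := ae_all_iff.2 fun c => ae_all_iff.2 fun q => ae_plc k s hs c q (1 / 2 + θ)
  have hB := ae_all_iff.2 fun i => ae_all_iff.2 fun j => ae_all_iff.2 fun h => ae_x k s i j h
  filter_upwards [ae_restrict_mem (Two.IT8.Sim_meas k s), ae_restrict_of_ae hA,
    ae_restrict_of_ae hB] with y hy hA hB
  obtain ⟨hpos, hsum⟩ := hy
  set p0 : (Fin k ⊕ Fin s → ℝ) × ℝ := (y, 1 - ∑ i, y i) with hp0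
  set X : (Fin k ⊕ Fin s → ℝ) × ℝ → Fin k → ℝ := fun p i => p.1 (Sum.inl i) with hX'
  have cXX : Continuous X := by
    simp only [hX']
    fun_prop
  have cX : ∀ m, ContinuousAt (fun p => X p m) p0 := fun m => by
    have : Continuous (fun p => X p m) := by
      simp only [hX']
      fun_prop
    exact this.continuousAt
  have cV : ∀ q, ContinuousAt (fun p => vv (k := k) (s := s) p q) p0 := fun q =>
    (vv_cont k s q).continuousAt
  have cS : ContinuousAt (fun p => ∑ q, vv (k := k) (s := s) p q) p0 :=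
    tendsto_finsetSum _ fun q _ => cV q
  have cSX : ContinuousAt (fun p => ∑ m, X p m) p0 := tendsto_finsetSum _ fun q _ => cX q
  have x0pos : ∀ m, 0 < X p0 m := fun m => hpos (Sum.inl m)
  have hv0 : vv p0 = vs y := rfl
  have v0pos : ∀ q, 0 < vv (k := k) (s := s) p0 q := by
    intro q
    induction q using Fin.lastCases with
    | last =>
      unfold vv
      rw [Fin.snoc_last]
      exact sub_pos.2 hsum
    | cast i =>
      unfold vv
      rw [Fin.snoc_castSucc]
      exact hpos (Sum.inr i)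
  have hs1 : ∑ m, X p0 m + ∑ q, vv (k := k) (s := s) p0 q = 1 := by
    rw [Fin.sum_univ_castSucc]
    have e1 : ∀ i : Fin s, vv (k := k) (s := s) p0 i.castSucc = y (Sum.inr i) := by
      intro i
      unfold vv
      rw [Fin.snoc_castSucc]
    have e2 : vv (k := k) (s := s) p0 (Fin.last s) = 1 - ∑ i, y i := by
      unfold vv
      rw [Fin.snoc_last]
    simp only [e1]
    rw [e2, Fintype.sum_sum_type]
    simp only [hX', hp0]
    ring
  -- the relevant positions
  have E1 : ∀ᶠ p in 𝓝 p0, Rg (X p) (vv p) := by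
    have a1 := eventually_all.2 fun m =>
      (continuousAt_const (y := (0 : ℝ))).eventually_lt (cX m) (x0pos m)
    have a2 := eventually_all.2 fun q =>
      (continuousAt_const (y := (0 : ℝ))).eventually_lt (cV q) (v0pos q)
    have a4 := (cSX.add cS).eventually_lt (continuousAt_const (y := (2 : ℝ)))
      (show ∑ m, X p0 m + ∑ q, vv (k := k) (s := s) p0 q < 2 by rw [hs1]; norm_num)
    filter_upwards [a1, a2, a4] with p h1 h2 h4
    exact ⟨fun m => (h1 m).le, fun q => (h2 q).le, h4.le⟩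
  have E2 : ∀ᶠ p in 𝓝 p0, ∀ j, rk (X p) j = rk (X p0) j := rk_ev cX fun i j h => hB i j h
  -- the groups
  have cP : ∀ c q, ContinuousAt (fun p => plc (X p) (vv p) c q) p0 := by
    intro c q
    unfold plc
    refine (cV q).add (tendsto_finsetSum _ fun j _ => ?_)
    by_cases h : c j = q
    · simp only [h, if_true]
      exact cX j
    · simp only [h, if_false]
      exact tendsto_const_nhds
  have pP : ∀ c q, 0 < plc (X p0) (vv p0) c q := by
    intro c q
    unfold plc
    have : 0 ≤ ∑ j, if c j = q then X p0 j else 0 :=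
      Finset.sum_nonneg fun j _ => by
        split_ifs
        · exact (x0pos j).le
        · exact le_refl _
    have := v0pos q
    linarith
  have G1 : ∀ c : Fin k → Fin (s + 1), Gd (fun p => gs (psw a b s θ) (plc (X p) (vv p) c)) p0 := by
    intro c
    unfold gs
    refine Gd_sum Finset.univ (fun (i : Fin (s + 1)) p =>
      psw a b s θ (fun j => plc (X p) (vv p) c (i.succAbove j))) p0 fun i _ => ?_
    refine psw_Gd ha hb (fun q => cP c _) (fun q => pP c _) ?_
    intro h
    apply hA c i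
    have e1 := Fin.sum_univ_succAbove (fun q => plc (X p0) (vv p0) c q) i
    rw [sum_plc, hs1, h] at e1
    show plc (X p0) (vv p0) c i = _
    linarith
  have G2 : ∀ c : Fin k → Fin (s + 1),
      Gd (fun p => Gr T (gs (psw a b s θ)) (X p) (vv p) c) p0 := by
    intro c
    have h1 : Gd (fun p => ∑ c' : Fin k → Fin (s + 1),
        if (∀ j, T ≤ rk (X p0) j → c' j = c j) then gs (psw a b s θ) (plc (X p) (vv p) c')
          else 0) p0 := by
      refine Gd_sum _ (fun c' p => if (∀ j, T ≤ rk (X p0) j → c' j = c j) then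
        gs (psw a b s θ) (plc (X p) (vv p) c') else 0) p0 fun c' _ => ?_
      by_cases h : ∀ j, T ≤ rk (X p0) j → c' j = c j
      · simp only [if_pos h]
        exact G1 c'
      · simp only [if_neg h]
        exact Gd_zero p0
    refine Gd_congr h1 ?_
    filter_upwards [E2] with p hp
    unfold Gr
    refine Finset.sum_congr rfl fun c' _ => ?_
    by_cases h : ∀ j, T ≤ rk (X p0) j → c' j = c j
    · rw [if_pos h, if_pos fun j hj => h j (by rwa [← hp j])]
    · rw [if_neg h, if_neg fun h' => h fun j hj => h' j (by rwa [hp j])]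
  have hN : NN s k T ≠ 0 := by
    unfold NN
    positivity
  have cH : ContinuousAt (fun p => HC T R (gs (psw a b s θ)) (X p) (vv p)) p0 := by
    unfold HC
    exact tendsto_finsetSum _ fun c _ => ph_cont (G2 c) R _ hN
  have cR : ContinuousAt (fun p => rest (X p) (vv p)) p0 := by
    unfold rest
    refine tendsto_finsetProd _ fun j _ => ?_
    exact (cSX.add cS).sub (tendsto_finsetSum _ fun i _ => cX i)
  have cQ : ContinuousAt (fun p => Qo k m (X p)) p0 :=
    ((hQ.2.1 k m).1.comp cXX).continuousAt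
  refine ((cQ.mul cR).mul cH).congr ?_
  filter_upwards [E1] with p h1
  show _ = FS m T R (gs (psw a b s θ)) k (X p) (vv p)
  unfold FS
  rw [if_pos h1]
  rfl

end Pool.Agent.Work.MP_122e00_nt.Sharp
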