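import Pool.Agent.Work.MP_122e00_nt.Sharp.Stmts
import Pool.Agent.Work.MP_122e00_nt.Bd.B40
import Pool.Agent.Work.MP_122e00_nt.Two.ItemT8

set_option autoImplicit false

/-!
# Item F3: the weight `psw` and its integral
-/

namespace Pool.Agent.Work.MP_122e00_nt.Sharp

open Finset Filter Topology MeasureTheory

open scoped ENNReal

open Two Gen

namespace IF3

theorem ae_ne {s : ℕ} (i : Fin s) : ∀ᵐ y : Fin s → ℝ, y i ≠ 0 := by
  have h := Two.prfL6 (Fin s) (Pi.single i 1) 0 (by
    intro h0
    have := congrFun h0 i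
    simp at this)
  rw [ae_iff]
  refine measure_mono_null ?_ h
  intro y hy
  simp only [ne_eq, Set.mem_ofPred_eq, not_not] at hy ⊢
  rw [Finset.sum_eq_single i]
  · simp [hy]
  · intro b _ hb
    simp [Pi.single_eq_of_ne hb]
  · intro h
    exact absurd (Finset.mem_univ i) h

theorem ae_sum_ne {s : ℕ} (hs : 1 ≤ s) (a : ℝ) : ∀ᵐ y : Fin s → ℝ, ∑ i, y i ≠ a := by
  have h := Two.prfL6 (Fin s) (fun _ => 1) a (by
    intro h0
    have := congrFun h0 ⟨0, hs⟩
    simp at this)
  rw [ae_iff]
  refine measure_mono_null ?_ h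
  intro y hy
  simp only [ne_eq, Set.mem_ofPred_eq, not_not] at hy ⊢
  simpa using hy

/-- the open simplex -/
def Sx (s : ℕ) (R : ℝ) : Set (Fin s → ℝ) := {v | (∀ i, 0 < v i) ∧ ∑ i, v i < R}

theorem Sx_meas (s : ℕ) (R : ℝ) : MeasurableSet (Sx s R) := by
  have h1 : MeasurableSet {v : Fin s → ℝ | ∀ i, 0 < v i} := by
    rw [Set.ofPred_forall]
    exact MeasurableSet.iInter (fun i => measurableSet_lt measurable_const (measurable_pi_apply i))
  have h2 : MeasurableSet {v : Fin s → ℝ | ∑ i, v i < R} :=
    measurableSet_lt (Finset.measurable_sum _ (fun i _ => measurable_pi_apply i)) measurable_const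
  exact h1.inter h2

open Classical in
/-- the integral of `R - ∑ v` over the simplex -/
noncomputable def M (s : ℕ) (R : ℝ) : ℝ≥0∞ :=
  ∫⁻ v : Fin s → ℝ, if (∀ i, 0 < v i) ∧ ∑ i, v i < R then ENNReal.ofReal (R - ∑ i, v i) else 0

open Classical in
theorem M_meas (s : ℕ) (R : ℝ) : Measurable (fun v : Fin s → ℝ =>
    if (∀ i, 0 < v i) ∧ ∑ i, v i < R then ENNReal.ofReal (R - ∑ i, v i) else 0) := by
  refine Measurable.ite (Sx_meas s R) (ENNReal.measurable_ofReal.comp ?_) measurable_const
  exact measurable_const.sub (Finset.measurable_sum _ (fun i _ => measurable_pi_apply i))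

theorem M_eq (s : ℕ) : ∀ R : ℝ, M s R = IT8.G (s + 1) (1 / ((s + 1).factorial : ℝ)) R := by
  induction s with
  | zero =>
    intro R
    unfold M IT8.G
    rw [IT8.lintegral_fin0]
    by_cases hR : 0 < R
    · simp [hR]
    · simp [hR]
  | succ s ih =>
    intro R
    unfold M
    rw [IT8.lintegral_cons _ (M_meas (s + 1) R)]
    have h1 : ∀ x0 : ℝ, (∫⁻ x : Fin s → ℝ,
        if (∀ i, 0 < (Fin.cons x0 x : Fin (s + 1) → ℝ) i) ∧
          ∑ i, (Fin.cons x0 x : Fin (s + 1) → ℝ) i < R then
            ENNReal.ofReal (R - ∑ i, (Fin.cons x0 x : Fin (s + 1) → ℝ) i) else 0) =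
        if 0 < x0 then IT8.G (s + 1) (1 / ((s + 1).factorial : ℝ)) (R - x0) else 0 := by
      intro x0
      split_ifs with hx
      · rw [← ih]
        unfold M
        refine lintegral_congr (fun x => ?_)
        have e : ((∀ i, 0 < (Fin.cons x0 x : Fin (s + 1) → ℝ) i) ∧
          ∑ i, (Fin.cons x0 x : Fin (s + 1) → ℝ) i < R) ↔
            ((∀ i, 0 < x i) ∧ ∑ i, x i < R - x0) := by
          rw [Fin.forall_fin_succ, Fin.sum_univ_succ]
          simp only [Fin.cons_zero, Fin.cons_succ]
          constructor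
          · rintro ⟨⟨_, h1⟩, h2⟩
            exact ⟨h1, by linarith⟩
          · rintro ⟨h1, h2⟩
            exact ⟨⟨hx, h1⟩, by linarith⟩
        have e2 : R - ∑ i, (Fin.cons x0 x : Fin (s + 1) → ℝ) i = R - x0 - ∑ i, x i := by
          rw [Fin.sum_univ_succ]
          simp only [Fin.cons_zero, Fin.cons_succ]
          ring
        simp only [e, e2]
      · refine (lintegral_congr (fun x => ?_)).trans lintegral_zero
        rw [if_neg]
        intro h
        exact hx (h.1 0)
    rw [lintegral_congr h1, IT8.G_int _ _ _ (by positivity)]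
    congr 1
    rw [Nat.factorial_succ (s + 1)]
    push_cast
    field_simp

/-- the two integrals over the simplex -/
theorem int_one (s : ℕ) {c : ℝ} (hc : 0 < c) :
    Integrable ((Sx s c).indicator fun _ => (1 : ℝ)) ∧
      ∫ y, (Sx s c).indicator (fun _ => (1 : ℝ)) y = c ^ s / (s.factorial : ℝ) := by
  classical
  have hnn : 0 ≤ᵐ[volume] (Sx s c).indicator fun _ => (1 : ℝ) :=
    Eventually.of_forall fun y => Set.indicator_nonneg (fun _ _ => zero_le_one) y
  have hms : AEStronglyMeasurable ((Sx s c).indicator fun _ => (1 : ℝ)) volume :=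
    (measurable_const.indicator (Sx_meas s c)).aestronglyMeasurable
  have hl : ∫⁻ y, ENNReal.ofReal ((Sx s c).indicator (fun _ => (1 : ℝ)) y) =
      ENNReal.ofReal (c ^ s / (s.factorial : ℝ)) := by
    have : ∀ y, ENNReal.ofReal ((Sx s c).indicator (fun _ => (1 : ℝ)) y) =
        if (∀ i, 0 < y i) ∧ ∑ i, y i < c then 1 else 0 := by
      intro y
      by_cases h : (∀ i, 0 < y i) ∧ ∑ i, y i < c
      · rw [if_pos h, Set.indicator_of_mem (show y ∈ Sx s c from h), ENNReal.ofReal_one]
      · rw [if_neg h, Set.indicator_of_notMem (show y ∉ Sx s c from h), ENNReal.ofReal_zero]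
    rw [lintegral_congr this]
    have h2 := IT8.S0_eq s c
    unfold IT8.S0 IT8.G at h2
    rw [h2, if_pos hc]
    congr 1
    ring
  refine ⟨⟨hms, ?_⟩, ?_⟩
  · rw [hasFiniteIntegral_iff_ofReal hnn, hl]
    exact ENNReal.ofReal_lt_top
  · rw [integral_eq_lintegral_of_nonneg_ae hnn hms, hl, ENNReal.toReal_ofReal (by positivity)]

theorem int_sub (s : ℕ) {c : ℝ} (hc : 0 < c) :
    Integrable ((Sx s c).indicator fun y => c - ∑ i, y i) ∧
      ∫ y, (Sx s c).indicator (fun y => c - ∑ i, y i) y =
        c ^ (s + 1) / ((s + 1).factorial : ℝ) := by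
  classical
  have hnn : 0 ≤ᵐ[volume] (Sx s c).indicator fun y : Fin s → ℝ => c - ∑ i, y i :=
    Eventually.of_forall fun y => Set.indicator_nonneg (fun y hy => by
      have : ∑ i, y i < c := hy.2
      linarith) y
  have hms : AEStronglyMeasurable ((Sx s c).indicator fun y : Fin s → ℝ => c - ∑ i, y i)
      volume :=
    ((measurable_const.sub (Finset.measurable_sum _ (fun i _ =>
      measurable_pi_apply i))).indicator (Sx_meas s c)).aestronglyMeasurable
  have hl : ∫⁻ y, ENNReal.ofReal ((Sx s c).indicator (fun y : Fin s → ℝ => c - ∑ i, y i) y) =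
      ENNReal.ofReal (c ^ (s + 1) / ((s + 1).factorial : ℝ)) := by
    have : ∀ y : Fin s → ℝ,
        ENNReal.ofReal ((Sx s c).indicator (fun y : Fin s → ℝ => c - ∑ i, y i) y) =
        if (∀ i, 0 < y i) ∧ ∑ i, y i < c then ENNReal.ofReal (c - ∑ i, y i) else 0 := by
      intro y
      by_cases h : (∀ i, 0 < y i) ∧ ∑ i, y i < c
      · rw [if_pos h, Set.indicator_of_mem (show y ∈ Sx s c from h)]
      · rw [if_neg h, Set.indicator_of_notMem (show y ∉ Sx s c from h), ENNReal.ofReal_zero]
    rw [lintegral_congr this]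
    have h2 := M_eq s c
    unfold M IT8.G at h2
    rw [h2, if_pos hc]
    congr 1
    ring
  refine ⟨⟨hms, ?_⟩, ?_⟩
  · rw [hasFiniteIntegral_iff_ofReal hnn, hl]
    exact ENNReal.ofReal_lt_top
  · rw [integral_eq_lintegral_of_nonneg_ae hnn hms, hl, ENNReal.toReal_ofReal (by positivity)]

theorem cont_psw {s : ℕ} {a b th : ℝ} (hs : 1 ≤ s) :
    ∀ᵐ y, ContinuousAt (psw a b s th) y := by
  filter_upwards [ae_all_iff.2 fun i : Fin s => ae_ne i, ae_sum_ne hs (1 / 2 - th)] with y h0 h2
  have hc : ∀ i, Continuous fun y : Fin s → ℝ => y i := fun i => continuous_apply i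
  have hcs : Continuous fun y : Fin s → ℝ => ∑ i, y i :=
    continuous_finsetSum _ fun i _ => continuous_apply i
  by_cases hneg : ∃ i, y i < 0
  · obtain ⟨i, hi⟩ := hneg
    refine (continuousAt_const (y := (0 : ℝ))).congr ?_
    filter_upwards [(hc i).continuousAt.eventually_lt continuousAt_const hi] with z hz
    unfold psw
    rw [Set.indicator_of_notMem]
    rintro ⟨h3, _⟩
    exact absurd (h3 i) (not_le.2 hz)
  · push Not at hneg
    have hpos : ∀ i, 0 < y i := fun i => lt_of_le_of_ne (hneg i) (Ne.symm (h0 i))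
    rcases lt_or_gt_of_ne h2 with h | h
    · have h5 : ∀ᶠ z in 𝓝 y, ∀ i : Fin s, 0 < z i :=
        eventually_all.2 fun i => continuousAt_const.eventually_lt (hc i).continuousAt (hpos i)
      have hcc : ContinuousAt (fun z : Fin s → ℝ => a + b * ∑ i, z i) y :=
        (continuous_const.add (continuous_const.mul hcs)).continuousAt
      refine hcc.congr ?_
      filter_upwards [hcs.continuousAt.eventually_lt continuousAt_const h, h5] with z hz hz0
      unfold psw
      rw [Set.indicator_of_mem]
      exact ⟨fun i => (hz0 i).le, hz.le⟩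
    · refine (continuousAt_const (y := (0 : ℝ))).congr ?_
      filter_upwards [continuousAt_const.eventually_lt hcs.continuousAt h] with z hz
      unfold psw
      rw [Set.indicator_of_notMem]
      rintro ⟨_, h3⟩
      exact absurd h3 (not_le.2 hz)

end IF3

theorem prfF3 : claimF3 := by
  classical
  intro s a b th hs ha hb hth hth1
  have hc : (0:ℝ) < 1 / 2 - th := by linarith
  refine ⟨⟨?_, ⟨a + b * (1 / 2 - th), ?_⟩, ?_, IF3.cont_psw hs⟩, ?_⟩
  · intro y
    unfold psw
    refine Set.indicator_nonneg (fun y hy => ?_) y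
    have : 0 ≤ ∑ i, y i := Finset.sum_nonneg fun i _ => hy.1 i
    positivity
  · intro y
    unfold psw
    refine Set.indicator_apply_le' (fun hy => ?_) (fun _ => by positivity)
    have := hy.2
    gcongr
  · intro y hy
    by_contra hcon
    apply hy
    have hcon' : y ∉ {y : Fin s → ℝ | (∀ i, 0 ≤ y i) ∧ ∑ i, y i ≤ 1 / 2 - th} := hcon
    unfold psw
    rw [Set.indicator_of_notMem hcon']
  · set c : ℝ := 1 / 2 - th with hcd
    have hO : MeasurableSet (O1 s) := MeasurableSet.univ_pi fun _ => measurableSet_Ioo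
    obtain ⟨i1, e1⟩ := IF3.int_one s hc
    obtain ⟨i2, e2⟩ := IF3.int_sub s hc
    have hae : (O1 s).indicator (psw a b s th) =ᵐ[volume]
        fun y => (a + b * c) * (IF3.Sx s c).indicator (fun _ => (1 : ℝ)) y -
          b * (IF3.Sx s c).indicator (fun y => c - ∑ i, y i) y := by
      filter_upwards [IF3.ae_sum_ne hs c] with y hy
      by_cases hm : y ∈ IF3.Sx s c
      · have h1 : y ∈ O1 s := by
          intro i _
          refine ⟨hm.1 i, ?_⟩
          have h3 : y i ≤ ∑ i, y i :=
            Finset.single_le_sum (f := y) (fun i _ => (hm.1 i).le) (Finset.mem_univ i)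
          have := hm.2
          linarith
        rw [Set.indicator_of_mem h1, Set.indicator_of_mem hm, Set.indicator_of_mem hm]
        unfold psw
        rw [Set.indicator_of_mem]
        · ring
        · exact ⟨fun i => (hm.1 i).le, hm.2.le⟩
      · rw [Set.indicator_of_notMem hm, Set.indicator_of_notMem hm, mul_zero, mul_zero, sub_zero]
        by_cases h1 : y ∈ O1 s
        · rw [Set.indicator_of_mem h1]
          unfold psw
          rw [Set.indicator_of_notMem]
          rintro ⟨_, h3⟩
          exact hm ⟨fun i => (h1 i (Set.mem_univ i)).1, lt_of_le_of_ne h3 hy⟩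
        · rw [Set.indicator_of_notMem h1]
    rw [← integral_indicator hO, integral_congr_ae hae, integral_sub (i1.const_mul _)
      (i2.const_mul _), integral_const_mul, integral_const_mul, e1, e2, Nat.factorial_succ]
    push_cast
    field_simp
    ring

end Pool.Agent.Work.MP_122e00_nt.Sharp
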