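import Pool.Agent.Work.MP_122e00_nt.Sharp.Stmts
import Pool.Agent.Work.MP_122e00_nt.Bd.B40

set_option autoImplicit false

/-!
# Item I13 of the sharp scheme: the simplex with sorted marks, in coordinates (helper85)
-/

namespace Pool.Agent.Work.MP_122e00_nt.Sharp

open Finset Filter Topology MeasureTheory

open scoped ENNReal

open Two Gen

namespace II13

/-- The matrix of the marks. -/
noncomputable def A (k : ℕ) : Matrix (Fin k) (Fin k) ℝ :=
  Matrix.of fun j i => if j ≤ i then 1 / ((i.val : ℝ) + 1) else 0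

/-- The matrix of the change of variables. -/
noncomputable def M (k : ℕ) : Matrix (Fin k ⊕ Fin 2) (Fin k ⊕ Fin 2) ℝ :=
  Matrix.fromBlocks (A k) 0 0 1

theorem det_A (k : ℕ) : (A k).det = 1 / (k.factorial : ℝ) := by
  rw [Matrix.det_of_isUpperTriangular]
  · have h : ∀ i : Fin k, A k i i = 1 / ((i.val : ℝ) + 1) := fun i => by simp [A]
    rw [Finset.prod_congr rfl fun i _ => h i, Fin.prod_univ_eq_prod_range
      (fun i : ℕ => 1 / ((i : ℝ) + 1)) k]
    induction k with
    | zero => simp
    | succ k ih =>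
      rw [Finset.prod_range_succ, ih (fun i => by simp [A]), Nat.factorial_succ]
      push_cast
      have : (k.factorial : ℝ) ≠ 0 := by positivity
      have h2 : (k : ℝ) + 1 ≠ 0 := by positivity
      field_simp
  · intro i j hij
    have : ¬ i ≤ j := not_le.2 hij
    simp [A, this]

theorem det_M (k : ℕ) : (M k).det = 1 / (k.factorial : ℝ) := by
  unfold M
  rw [Matrix.det_fromBlocks_zero₂₁, det_A, Matrix.det_one, mul_one]

/-- The change of variables. -/
noncomputable def L (k : ℕ) : (Fin k ⊕ Fin 2 → ℝ) →ₗ[ℝ] (Fin k ⊕ Fin 2 → ℝ) :=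
  Matrix.toLin' (M k)

theorem L_inl (k : ℕ) (z : Fin k ⊕ Fin 2 → ℝ) (j : Fin k) :
    L k z (Sum.inl j) = ∑ i : Fin k, if j ≤ i then z (Sum.inl i) / ((i.val : ℝ) + 1) else 0 := by
  unfold L M
  rw [Matrix.toLin'_apply]
  simp only [Matrix.mulVec, dotProduct, Fintype.sum_sum_type, Matrix.fromBlocks_apply₁₁,
    Matrix.fromBlocks_apply₁₂, Matrix.zero_apply, zero_mul, Finset.sum_const_zero, add_zero]
  refine Finset.sum_congr rfl fun i _ => ?_
  unfold A
  rw [Matrix.of_apply]
  split_ifs
  · ring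
  · ring

theorem L_inr (k : ℕ) (z : Fin k ⊕ Fin 2 → ℝ) (j : Fin 2) :
    L k z (Sum.inr j) = z (Sum.inr j) := by
  unfold L M
  rw [Matrix.toLin'_apply]
  simp only [Matrix.mulVec, dotProduct, Fintype.sum_sum_type, Matrix.fromBlocks_apply₂₁,
    Matrix.fromBlocks_apply₂₂, Matrix.zero_apply, zero_mul, Finset.sum_const_zero, zero_add]
  simp [Matrix.one_apply]

theorem sum_tri (k : ℕ) (f : Fin k → ℝ) :
    ∑ j : Fin k, ∑ i : Fin k, (if j ≤ i then f i / ((i.val : ℝ) + 1) else 0) = ∑ i, f i := by
  rw [Finset.sum_comm]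
  refine Finset.sum_congr rfl fun i _ => ?_
  rw [← Finset.sum_filter, Finset.sum_const]
  have : (Finset.univ.filter fun j : Fin k => j ≤ i).card = i.val + 1 := by
    rw [show (Finset.univ.filter fun j : Fin k => j ≤ i) = Finset.Iic i by ext; simp]
    simp
  rw [this, nsmul_eq_mul]
  push_cast
  have h2 : (i.val : ℝ) + 1 ≠ 0 := by positivity
  field_simp

theorem L_sum (k : ℕ) (z : Fin k ⊕ Fin 2 → ℝ) : ∑ i, L k z i = ∑ i, z i := by
  rw [Fintype.sum_sum_type, Fintype.sum_sum_type]
  congr 1
  · rw [Finset.sum_congr rfl fun j _ => L_inl k z j]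
    exact sum_tri k fun i => z (Sum.inl i)
  · exact Finset.sum_congr rfl fun j _ => L_inr k z j

/-- Consecutive differences. -/
theorem L_diff (k : ℕ) (z : Fin k ⊕ Fin 2 → ℝ) (a b : Fin k) (hab : a.val + 1 = b.val) :
    L k z (Sum.inl a) - L k z (Sum.inl b) = z (Sum.inl a) / ((a.val : ℝ) + 1) := by
  rw [L_inl, L_inl, ← Finset.sum_sub_distrib]
  rw [Finset.sum_eq_single a]
  · have h1 : ¬ b ≤ a := by
      rw [Fin.le_def]
      omega
    simp [h1]
  · intro i _ hi
    have h1 : a ≤ i ↔ b ≤ i := by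
      rw [Fin.le_def, Fin.le_def]
      have : i.val ≠ a.val := fun h => hi (Fin.ext h)
      omega
    by_cases h : b ≤ i
    · simp [h1, h]
    · simp [h1, h]
  · simp

theorem L_last (k : ℕ) (z : Fin k ⊕ Fin 2 → ℝ) (a : Fin k) (ha : a.val + 1 = k) :
    L k z (Sum.inl a) = z (Sum.inl a) / ((a.val : ℝ) + 1) := by
  rw [L_inl, Finset.sum_eq_single a]
  · simp
  · intro i _ hi
    have h1 : ¬ a ≤ i := by
      rw [Fin.le_def]
      have : i.val ≠ a.val := fun h => hi (Fin.ext h)
      have := i.2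
      omega
    simp [h1]
  · simp

theorem mem_iff (k : ℕ) (z : Fin k ⊕ Fin 2 → ℝ) :
    L k z ∈ Sim k 2 ∩ {y | xs y ∈ Srt k} ↔ z ∈ Sim k 2 := by
  constructor
  · rintro ⟨⟨h1, h2⟩, h3⟩
    refine ⟨?_, by rw [← L_sum]; exact h2⟩
    rintro (a | q)
    · have hpos : (0 : ℝ) < (a.val : ℝ) + 1 := by positivity
      by_cases ha : a.val + 1 < k
      · have h4 := L_diff k z a ⟨a.val + 1, ha⟩ rfl
        have h5 : L k z (Sum.inl ⟨a.val + 1, ha⟩) < L k z (Sum.inl a) := by
          have h6 : StrictAnti (xs (L k z)) := h3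
          exact h6 (show a < ⟨a.val + 1, ha⟩ from by rw [Fin.lt_def]; simp)
        have h7 : 0 < z (Sum.inl a) / ((a.val : ℝ) + 1) := by linarith
        exact (div_pos_iff_of_pos_right hpos).1 h7
      · have h4 := L_last k z a (by have := a.2; omega)
        have h5 := h1 (Sum.inl a)
        rw [h4] at h5
        exact (div_pos_iff_of_pos_right hpos).1 h5
    · have := h1 (Sum.inr q)
      rwa [L_inr] at this
  · rintro ⟨h1, h2⟩
    have hnn : ∀ i : Fin k, 0 < z (Sum.inl i) / ((i.val : ℝ) + 1) := fun i =>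
      div_pos (h1 _) (by positivity)
    refine ⟨⟨?_, by rw [L_sum]; exact h2⟩, ?_⟩
    · rintro (a | q)
      · rw [L_inl]
        refine Finset.sum_pos' (fun i _ => ?_) ⟨a, Finset.mem_univ _, ?_⟩
        · split_ifs
          · exact (hnn i).le
          · exact le_rfl
        · rw [if_pos le_rfl]
          exact hnn a
      · rw [L_inr]
        exact h1 _
    · intro a b hab
      show L k z (Sum.inl b) < L k z (Sum.inl a)
      rw [L_inl, L_inl]
      refine Finset.sum_lt_sum (fun i _ => ?_) ⟨a, Finset.mem_univ _, ?_⟩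
      · by_cases h : b ≤ i
        · rw [if_pos h, if_pos (hab.le.trans h)]
        · rw [if_neg h]
          split_ifs
          · exact (hnn i).le
          · exact le_rfl
      · rw [if_neg (not_le.2 hab), if_pos le_rfl]
        exact hnn a

theorem measurableSet_Sim (k s : ℕ) : MeasurableSet (Sim k s) := by
  have h1 : MeasurableSet {y : Fin k ⊕ Fin s → ℝ | ∀ i, 0 < y i} := by
    rw [show {y : Fin k ⊕ Fin s → ℝ | ∀ i, 0 < y i} = ⋂ i, {y | 0 < y i} by ext; simp]
    exact MeasurableSet.iInter fun i => measurableSet_lt measurable_const (measurable_pi_apply i)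
  have h2 : MeasurableSet {y : Fin k ⊕ Fin s → ℝ | ∑ i, y i < 1} := by
    refine measurableSet_lt ?_ measurable_const
    exact Finset.measurable_sum _ fun i _ => measurable_pi_apply i
  exact h1.inter h2

theorem measurableSet_srt (k : ℕ) :
    MeasurableSet {y : Fin k ⊕ Fin 2 → ℝ | xs y ∈ Srt k} := by
  have : {y : Fin k ⊕ Fin 2 → ℝ | xs y ∈ Srt k} =
      ⋂ a : Fin k, ⋂ b : Fin k, {y | a < b → y (Sum.inl b) < y (Sum.inl a)} := by
    ext y
    simp only [Set.mem_ofPred_eq, Set.mem_iInter]
    constructor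
    · intro h a b hab
      exact h hab
    · intro h a b hab
      exact h a b hab
  rw [this]
  refine MeasurableSet.iInter fun a => MeasurableSet.iInter fun b => ?_
  by_cases hab : a < b
  · simp only [hab, true_implies]
    exact measurableSet_lt (measurable_pi_apply _) (measurable_pi_apply _)
  · simp [hab]

theorem measurable_pt (k : ℕ) :
    Measurable fun y : Fin k ⊕ Fin 2 → ℝ => (Fin.append (xs y) (vs y) : Fin (k + 3) → ℝ) := by
  refine measurable_pi_lambda _ fun j => ?_
  refine Fin.addCases (fun i => ?_) (fun i => ?_) j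
  · simp only [Fin.append_left, xs]
    exact measurable_pi_apply _
  · simp only [Fin.append_right, vs]
    refine Fin.lastCases ?_ (fun i => ?_) i
    · simp only [Fin.snoc_last]
      exact measurable_const.sub (Finset.measurable_sum _ fun i _ => measurable_pi_apply i)
    · simp only [Fin.snoc_castSucc]
      exact measurable_pi_apply _

/-- The vertices. -/
noncomputable def VV (k : ℕ) : Option (Fin (k + 2)) → Fin (k + 3) → ℝ :=
  fun o : Option (Fin (k + 2)) => fun j : Fin (k + 3) =>
          match o with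
          | some i => if i.val < k then (if j.val ≤ i.val then 1 / ((i.val : ℝ) + 1) else 0)
            else (if j.val = i.val then 1 else 0)
          | none => if j.val = k + 2 then 1 else 0

theorem bar_eq (k : ℕ) (z : Fin k ⊕ Fin 2 → ℝ) :
    Chamber.bar (VV k) (fun i => z (finSumFinEquiv.symm i)) =
      (Fin.append (xs (L k z)) (vs (L k z)) : Fin (k + 3) → ℝ) := by
  have hs : ∀ {α : Type} [AddCommMonoid α] (f : Fin (k + 2) → α), ∑ i, f i =
      ∑ i : Fin k, f (Fin.castAdd 2 i) + ∑ q : Fin 2, f (Fin.natAdd k q) := fun f =>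
    Fin.sum_univ_add f
  funext j
  have hsum : ∑ i : Fin (k + 2), z (finSumFinEquiv.symm i) = ∑ i, z i :=
    Equiv.sum_comp finSumFinEquiv.symm z
  unfold Chamber.bar
  rw [hsum, hs]
  simp only [Pi.add_apply, Finset.sum_apply, Pi.smul_apply, smul_eq_mul,
    finSumFinEquiv_symm_apply_castAdd, finSumFinEquiv_symm_apply_natAdd]
  refine Fin.addCases (fun a => ?_) (fun b => ?_) j
  · rw [Fin.append_left]
    simp only [xs, VV, Fin.val_castAdd, Fin.val_natAdd]
    have e3 : ¬ a.val = k + 2 := by have := a.2; omega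
    rw [if_neg e3, mul_zero, add_zero, L_inl]
    have e2 : ∑ q : Fin 2, z (Sum.inr q) * (if k + q.val < k then
        (if a.val ≤ k + q.val then 1 / (((k + q.val : ℕ) : ℝ) + 1) else 0)
        else (if a.val = k + q.val then 1 else 0)) = 0 := by
      refine Finset.sum_eq_zero fun q _ => ?_
      rw [if_neg (by omega), if_neg (by have := a.2; omega), mul_zero]
    rw [e2, add_zero]
    refine Finset.sum_congr rfl fun i _ => ?_
    rw [if_pos i.2]
    by_cases h : a ≤ i
    · rw [if_pos (show a.val ≤ i.val from h), if_pos h]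
      ring
    · rw [if_neg (show ¬ a.val ≤ i.val from h), if_neg h, mul_zero]
  · rw [Fin.append_right]
    have e1 : ∑ i : Fin k, z (Sum.inl i) * VV k (some (Fin.castAdd 2 i)) (Fin.natAdd k b) = 0 := by
      refine Finset.sum_eq_zero fun i _ => ?_
      simp only [VV, Fin.val_castAdd, Fin.val_natAdd]
      rw [if_pos i.2, if_neg (by have := i.2; omega), mul_zero]
    rw [e1, zero_add]
    simp only [vs, L_sum, L_inr, VV, Fin.val_natAdd]
    fin_cases b
    · simp [Fin.sum_univ_two, Fin.snoc]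
    · simp [Fin.sum_univ_two, Fin.snoc]
    · simp [Fin.sum_univ_two, Fin.snoc]

/-- The open simplex and the closed one agree up to a null set. -/
theorem ae_simplex (k : ℕ) :
    (Sim k 2 : Set (Fin k ⊕ Fin 2 → ℝ)) =ᵐ[volume] {z | (∀ i, 0 ≤ z i) ∧ ∑ i, z i ≤ 1} := by
  have h1 : ∀ i : Fin k ⊕ Fin 2, ∀ᵐ z : Fin k ⊕ Fin 2 → ℝ, z i ≠ 0 := by
    intro i
    have h := prfL6 (Fin k ⊕ Fin 2) (Pi.single i 1) 0 (by
      intro h
      have := congrFun h i
      simp at this)
    rw [ae_iff]
    refine measure_mono_null ?_ h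
    intro z hz
    simp only [ne_eq, not_not, Set.mem_ofPred_eq] at hz ⊢
    rw [Finset.sum_eq_single i]
    · rw [hz, mul_zero]
    · intro b _ hb
      rw [Pi.single_eq_of_ne hb, zero_mul]
    · simp
  have h2 : ∀ᵐ z : Fin k ⊕ Fin 2 → ℝ, ∑ i, z i ≠ 1 := by
    have h := prfL6 (Fin k ⊕ Fin 2) (fun _ => 1) 1 (by
      intro h
      have := congrFun h (Sum.inr 0)
      simp at this)
    rw [ae_iff]
    refine measure_mono_null ?_ h
    intro z hz
    simp only [ne_eq, not_not, Set.mem_ofPred_eq] at hz ⊢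
    simpa using hz
  rw [← ae_all_iff] at h1
  refine Filter.eventuallyEq_set.2 ?_
  filter_upwards [h1, h2] with z hz1 hz2
  constructor
  · rintro ⟨a, b⟩
    exact ⟨fun i => (a i).le, b.le⟩
  · rintro ⟨a, b⟩
    exact ⟨fun i => lt_of_le_of_ne (a i) (hz1 i).symm, lt_of_le_of_ne b hz2⟩

end II13

theorem prfI13 : claimI13 := by
  intro k G hG
  have hS : MeasurableSet (Sim k 2 ∩ {y | xs y ∈ Srt k}) :=
    (II13.measurableSet_Sim k 2).inter (II13.measurableSet_srt k)
  have hGp : Measurable fun y : Fin k ⊕ Fin 2 → ℝ =>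
      G (Fin.append (xs y) (vs y) : Fin (k + 3) → ℝ) := hG.comp (II13.measurable_pt k)
  have hF := hGp.indicator hS
  have hdet : LinearMap.det (II13.L k) = 1 / (k.factorial : ℝ) := by
    unfold II13.L
    rw [LinearMap.det_toLin', II13.det_M]
  have hpos : (0 : ℝ) < 1 / (k.factorial : ℝ) := by positivity
  have hne : LinearMap.det (II13.L k) ≠ 0 := by
    rw [hdet]
    exact hpos.ne'
  have hmap := Measure.map_linearMap_addHaar_pi_eq_smul_addHaar hne volume
  have hmL : Measurable (II13.L k) := (LinearMap.continuous_of_finiteDimensional _).measurable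
  -- the left side
  have e1 : ∫⁻ y in Sim k 2 ∩ {y | xs y ∈ Srt k}, G (Fin.append (xs y) (vs y)) =
      ENNReal.ofReal (1 / (k.factorial : ℝ)) *
        ∫⁻ z in Sim k 2, G (Fin.append (xs (II13.L k z)) (vs (II13.L k z))) := by
    rw [← lintegral_indicator hS, ← lintegral_indicator (II13.measurableSet_Sim k 2)]
    have h1 := lintegral_map (μ := volume) hF hmL
    rw [hmap, lintegral_smul_measure, hdet] at h1
    have h2 : ∀ z, (Sim k 2 ∩ {y | xs y ∈ Srt k}).indicator
        (fun y => G (Fin.append (xs y) (vs y) : Fin (k + 3) → ℝ)) (II13.L k z) =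
        (Sim k 2).indicator
          (fun z => G (Fin.append (xs (II13.L k z)) (vs (II13.L k z)) : Fin (k + 3) → ℝ)) z := by
      intro z
      by_cases hz : z ∈ Sim k 2
      · rw [Set.indicator_of_mem hz, Set.indicator_of_mem ((II13.mem_iff k z).2 hz)]
      · rw [Set.indicator_of_notMem hz,
          Set.indicator_of_notMem (fun h => hz ((II13.mem_iff k z).1 h))]
    rw [lintegral_congr h2] at h1
    rw [← h1, smul_eq_mul, ← mul_assoc, ← ENNReal.ofReal_mul hpos.le,
      abs_of_pos (inv_pos.2 hpos), mul_inv_cancel₀ hpos.ne', ENNReal.ofReal_one, one_mul]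
  rw [e1]
  congr 1
  unfold Chamber.EV
  have hmp := volume_measurePreserving_piCongrLeft (fun _ : Fin (k + 2) => ℝ)
    (finSumFinEquiv (m := k) (n := 2))
  rw [← hmp.setLIntegral_comp_preimage_emb (MeasurableEquiv.measurableEmbedding _)]
  have hval : ∀ (z : Fin k ⊕ Fin 2 → ℝ), MeasurableEquiv.piCongrLeft
      (fun _ : Fin (k + 2) => ℝ) (finSumFinEquiv (m := k) (n := 2)) z =
      fun i => z (finSumFinEquiv.symm i) := by
    intro z
    funext i
    obtain ⟨j, rfl⟩ := (finSumFinEquiv (m := k) (n := 2)).surjective i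
    rw [MeasurableEquiv.piCongrLeft_apply_apply, Equiv.symm_apply_apply]
  have hpre : (MeasurableEquiv.piCongrLeft (fun _ : Fin (k + 2) => ℝ)
      (finSumFinEquiv (m := k) (n := 2))) ⁻¹' Chamber.T (Fin (k + 2)) =
      {z | (∀ i, 0 ≤ z i) ∧ ∑ i, z i ≤ 1} := by
    ext z
    simp only [Set.mem_preimage, hval, Chamber.T, Set.mem_ofPred_eq]
    have hsum : ∑ i : Fin (k + 2), z (finSumFinEquiv.symm i) = ∑ i, z i :=
      Equiv.sum_comp finSumFinEquiv.symm z
    rw [hsum]
    refine and_congr_left fun _ => ?_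
    exact (finSumFinEquiv (m := k) (n := 2)).symm.forall_congr_left.trans (by simp) |>.symm.symm
  rw [hpre, setLIntegral_congr (II13.ae_simplex k).symm]
  refine lintegral_congr fun z => ?_
  rw [hval]
  exact congrArg G (II13.bar_eq k z).symm

end Pool.Agent.Work.MP_122e00_nt.Sharp
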