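import Pool.Agent.Work.MP_122e00_nt.Sharp.Stmts

set_option autoImplicit false

/-!
# I14: sorted parts
-/

namespace Pool.Agent.Work.MP_122e00_nt.Sharp

open Finset Filter Topology MeasureTheory

open scoped ENNReal ArithmeticFunction.vonMangoldt ArithmeticFunction.zeta

open Two Gen

namespace II14

/-- A point without marks. -/
noncomputable def emb (k : ℕ) (a : Fin 3 → ℝ) : Fin (k + 3) → ℝ := Fin.append (0 : Fin k → ℝ) a

theorem emb_comb (k : ℕ) (a b : Fin 3 → ℝ) (μ ν : ℝ) :
    μ • emb k a + ν • emb k b = emb k (μ • a + ν • b) := by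
  funext j
  refine Fin.addCases (fun j => ?_) (fun j => ?_) j
  · simp [emb]
  · simp [emb]

/-- The vertices: the marks, `a`, `b`, `c`. -/
noncomputable def U (k : ℕ) (a b c : Fin 3 → ℝ) : Option (Fin (k + 2)) → Fin (k + 3) → ℝ
  | some i => if i.val < k then (fun j => if j.val ≤ i.val then 1 / ((i.val : ℝ) + 1) else 0)
      else if i.val = k then emb k a else emb k b
  | none => emb k c

/-- The first index. -/
def i0 (k : ℕ) : Fin (k + 2) := ⟨k, by omega⟩

/-- The second index. -/
def i1 (k : ℕ) : Fin (k + 2) := ⟨k + 1, by omega⟩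

theorem i0_ne_i1 (k : ℕ) : i0 k ≠ i1 k := by
  intro h
  have := congrArg Fin.val h
  simp [i0, i1] at this

theorem U_i0 (k : ℕ) (a b c : Fin 3 → ℝ) : U k a b c (some (i0 k)) = emb k a := by
  simp [U, i0]

theorem U_i1 (k : ℕ) (a b c : Fin 3 → ℝ) : U k a b c (some (i1 k)) = emb k b := by
  simp [U, i1]

theorem U_none (k : ℕ) (a b c : Fin 3 → ℝ) : U k a b c none = emb k c := rfl

theorem U_low (k : ℕ) (a b c a' b' c' : Fin 3 → ℝ) (i : Fin (k + 2)) (h : i.val < k) :
    U k a b c (some i) = U k a' b' c' (some i) := by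
  simp [U, h]

theorem cases_idx {k : ℕ} (i : Fin (k + 2)) : i.val < k ∨ i = i0 k ∨ i = i1 k := by
  by_cases h : i.val < k
  · exact Or.inl h
  · by_cases h2 : i.val = k
    · exact Or.inr (Or.inl (Fin.ext h2))
    · refine Or.inr (Or.inr (Fin.ext ?_))
      have := i.isLt
      show i.val = k + 1
      omega

theorem upd_i0 (k : ℕ) (a b c w : Fin 3 → ℝ) :
    Function.update (U k a b c) (some (i0 k)) (emb k w) = U k w b c := by
  funext o
  rcases o with _ | i
  · rw [Function.update_of_ne (by simp)]
    rfl
  · rcases cases_idx i with h | rfl | rfl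
    · rw [Function.update_of_ne]
      · exact U_low k _ _ _ _ _ _ i h
      · intro h2
        have h3 := Option.some_injective _ h2
        rw [h3] at h
        exact absurd h (lt_irrefl _)
    · rw [Function.update_self, U_i0]
    · rw [Function.update_of_ne, U_i1, U_i1]
      intro h2
      exact i0_ne_i1 k (Option.some_injective _ h2).symm

theorem upd_i1 (k : ℕ) (a b c w : Fin 3 → ℝ) :
    Function.update (U k a b c) (some (i1 k)) (emb k w) = U k a w c := by
  funext o
  rcases o with _ | i
  · rw [Function.update_of_ne (by simp)]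
    rfl
  · rcases cases_idx i with h | rfl | rfl
    · rw [Function.update_of_ne]
      · exact U_low k _ _ _ _ _ _ i h
      · intro h2
        have h3 := Option.some_injective _ h2
        rw [h3] at h
        have : k + 1 < k := h
        omega
    · rw [Function.update_of_ne, U_i0, U_i0]
      intro h2
      exact i0_ne_i1 k (Option.some_injective _ h2)
    · rw [Function.update_self, U_i1]

theorem upd_none (k : ℕ) (a b c w : Fin 3 → ℝ) :
    Function.update (U k a b c) none (emb k w) = U k a b w := by
  funext o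
  rcases o with _ | i
  · rw [Function.update_self]
    rfl
  · rw [Function.update_of_ne (by simp)]
    rcases cases_idx i with h | rfl | rfl
    · exact U_low k _ _ _ _ _ _ i h
    · rw [U_i0, U_i0]
    · rw [U_i1, U_i1]

section

variable {k : ℕ} (G : (Fin (k + 3) → ℝ) → ℝ≥0∞) (hG : Measurable G)

include hG

theorem swap0 (a b c : Fin 3 → ℝ) : Chamber.EV (U k a b c) G = Chamber.EV (U k c b a) G := by
  rw [Chamber.EV_swap (U k a b c) G hG (i0 k)]
  congr 1
  funext o
  rcases o with _ | i
  · simp only [Function.comp, Equiv.swap_apply_left]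
    rw [U_i0, U_none]
  · simp only [Function.comp]
    rcases cases_idx i with h | rfl | rfl
    · rw [Equiv.swap_apply_of_ne_of_ne (by simp)]
      · exact U_low k _ _ _ _ _ _ i h
      · intro h2
        have h3 := Option.some_injective _ h2
        rw [h3] at h
        exact absurd h (lt_irrefl _)
    · rw [Equiv.swap_apply_right, U_i0, U_none]
    · rw [Equiv.swap_apply_of_ne_of_ne (by simp), U_i1, U_i1]
      intro h2
      exact i0_ne_i1 k (Option.some_injective _ h2).symm

theorem swap1 (a b c : Fin 3 → ℝ) : Chamber.EV (U k a b c) G = Chamber.EV (U k a c b) G := by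
  rw [Chamber.EV_swap (U k a b c) G hG (i1 k)]
  congr 1
  funext o
  rcases o with _ | i
  · simp only [Function.comp, Equiv.swap_apply_left]
    rw [U_i1, U_none]
  · simp only [Function.comp]
    rcases cases_idx i with h | rfl | rfl
    · rw [Equiv.swap_apply_of_ne_of_ne (by simp)]
      · exact U_low k _ _ _ _ _ _ i h
      · intro h2
        have h3 := Option.some_injective _ h2
        rw [h3] at h
        have : k + 1 < k := h
        omega
    · rw [Equiv.swap_apply_of_ne_of_ne (by simp), U_i0, U_i0]
      intro h2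
      exact i0_ne_i1 k (Option.some_injective _ h2)
    · rw [Equiv.swap_apply_right, U_i1, U_none]

/-- Bisection of the edge `a b`. -/
theorem bis01 (a b c : Fin 3 → ℝ) (μ : ℝ) (h0 : 0 ≤ μ) (h1 : μ ≤ 1) :
    Chamber.EV (U k a b c) G =
      ENNReal.ofReal μ * Chamber.EV (U k (μ • a + (1 - μ) • b) b c) G +
      ENNReal.ofReal (1 - μ) * Chamber.EV (U k a (μ • a + (1 - μ) • b) c) G := by
  have h := Chamber.EV_bisect (U k a b c) G hG (some (i0 k)) (some (i1 k))
    (fun h => i0_ne_i1 k (Option.some_injective _ h)) μ h0 h1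
  rw [U_i0, U_i1, emb_comb, upd_i0, upd_i1] at h
  exact h

/-- Bisection of the edge `b c`. -/
theorem bis12 (a b c : Fin 3 → ℝ) (μ : ℝ) (h0 : 0 ≤ μ) (h1 : μ ≤ 1) :
    Chamber.EV (U k a b c) G =
      ENNReal.ofReal μ * Chamber.EV (U k a (μ • b + (1 - μ) • c) c) G +
      ENNReal.ofReal (1 - μ) * Chamber.EV (U k a b (μ • b + (1 - μ) • c)) G := by
  have h := Chamber.EV_bisect (U k a b c) G hG (some (i1 k)) none (by simp) μ h0 h1
  rw [U_i1, U_none, emb_comb, upd_i1, upd_none] at h
  exact h

/-- Bisection of the edge `a c`. -/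
theorem bis02 (a b c : Fin 3 → ℝ) (μ : ℝ) (h0 : 0 ≤ μ) (h1 : μ ≤ 1) :
    Chamber.EV (U k a b c) G =
      ENNReal.ofReal μ * Chamber.EV (U k (μ • a + (1 - μ) • c) b c) G +
      ENNReal.ofReal (1 - μ) * Chamber.EV (U k a b (μ • a + (1 - μ) • c)) G := by
  have h := Chamber.EV_bisect (U k a b c) G hG (some (i0 k)) none (by simp) μ h0 h1
  rw [U_i0, U_none, emb_comb, upd_i0, upd_none] at h
  exact h

end

/-- The marks of a point of the simplex. -/
noncomputable def X {k : ℕ} (y : Fin (k + 2) → ℝ) (j : Fin k) : ℝ :=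
  ∑ i : Fin (k + 2), y i * (if i.val < k then (if j.val ≤ i.val then 1 / ((i.val : ℝ) + 1) else 0)
    else 0)

theorem bar_U {k : ℕ} (a b c : Fin 3 → ℝ) (y : Fin (k + 2) → ℝ) :
    Chamber.bar (U k a b c) y =
      Fin.append (X y) (fun q => y (i0 k) * a q + y (i1 k) * b q + (1 - ∑ i, y i) * c q) := by
  funext j
  refine Fin.addCases (fun j => ?_) (fun q => ?_) j
  · rw [Fin.append_left]
    unfold Chamber.bar X
    rw [Pi.add_apply, Finset.sum_apply, Pi.smul_apply, U_none]
    have h0 : emb k c (Fin.castAdd 3 j) = 0 := by simp [emb]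
    rw [h0, smul_zero, add_zero]
    refine Finset.sum_congr rfl fun i _ => ?_
    rw [Pi.smul_apply, smul_eq_mul]
    congr 1
    rcases cases_idx i with h | rfl | rfl
    · simp [U, h]
    · rw [U_i0, if_neg (by simp [i0])]
      simp [emb]
    · rw [U_i1, if_neg (by simp [i1])]
      simp [emb]
  · rw [Fin.append_right]
    unfold Chamber.bar
    rw [Pi.add_apply, Finset.sum_apply, Pi.smul_apply, U_none]
    have h0 : emb k c (Fin.natAdd k q) = c q := by simp [emb]
    rw [h0, smul_eq_mul]
    congr 1
    rw [Fin.sum_univ_castSucc, Fin.sum_univ_castSucc]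
    have e1 : Fin.last (k + 1) = i1 k := rfl
    have e0 : (Fin.last k).castSucc = i0 k := rfl
    rw [e1, e0]
    simp only [Pi.smul_apply, smul_eq_mul]
    rw [U_i0, U_i1]
    have ha : emb k a (Fin.natAdd k q) = a q := by simp [emb]
    have hb : emb k b (Fin.natAdd k q) = b q := by simp [emb]
    rw [ha, hb]
    have hz : ∑ x : Fin k, y x.castSucc.castSucc *
        U k a b c (some x.castSucc.castSucc) (Fin.natAdd k q) = 0 := by
      refine Finset.sum_eq_zero fun x _ => ?_
      have hx : (x.castSucc.castSucc : Fin (k + 2)).val < k := x.isLt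
      have h2 : U k a b c (some x.castSucc.castSucc) (Fin.natAdd k q) = 0 := by
        unfold U
        simp only
        rw [if_pos hx, if_neg]
        simp only [Fin.val_natAdd]
        have := hx
        omega
      rw [h2, mul_zero]
    rw [hz, zero_add]

theorem sym {k : ℕ} (G : (Fin (k + 3) → ℝ) → ℝ≥0∞)
    (hs : ∀ (x : Fin k → ℝ) (v : Fin 3 → ℝ) (σ : Equiv.Perm (Fin 3)),
      G (Fin.append x (fun i => v (σ i))) = G (Fin.append x v)) (a b c : Fin 3 → ℝ)
    (σ : Equiv.Perm (Fin 3)) :
    Chamber.EV (U k (fun i => a (σ i)) (fun i => b (σ i)) (fun i => c (σ i))) G =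
      Chamber.EV (U k a b c) G := by
  unfold Chamber.EV
  congr 1
  funext y
  rw [bar_U, bar_U]
  exact hs (X y) (fun q => y (i0 k) * a q + y (i1 k) * b q + (1 - ∑ i, y i) * c q) σ

/-- The vertices of the parts. -/
noncomputable def ev (i : Fin 3) : Fin 3 → ℝ := Pi.single i 1

theorem W_eq (k : ℕ) : (fun o : Option (Fin (k + 2)) => fun j : Fin (k + 3) =>
          match o with
          | some i => if i.val < k then (if j.val ≤ i.val then 1 / ((i.val : ℝ) + 1) else 0)
            else (if j.val = i.val then 1 else 0)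
          | none => if j.val = k + 2 then 1 else 0) = U k (ev 0) (ev 1) (ev 2) := by
  funext o j
  rcases o with _ | i
  · rw [U_none]
    refine Fin.addCases (fun j => ?_) (fun q => ?_) j
    · simp only [emb, Fin.append_left, Pi.zero_apply, Fin.val_castAdd]
      rw [if_neg]
      have := j.isLt
      omega
    · simp only [emb, Fin.append_right, Fin.val_natAdd]
      fin_cases q <;> simp [ev]
  · rcases cases_idx i with h | rfl | rfl
    · simp [U, h]
    · rw [U_i0]
      simp only [i0, lt_irrefl, if_false]
      refine Fin.addCases (fun j => ?_) (fun q => ?_) j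
      · simp only [emb, Fin.append_left, Pi.zero_apply, Fin.val_castAdd]
        rw [if_neg]
        have := j.isLt
        omega
      · simp only [emb, Fin.append_right, Fin.val_natAdd]
        fin_cases q <;> simp [ev]
    · rw [U_i1]
      have hk : ¬ (k + 1 < k) := by omega
      simp only [i1, hk, if_false]
      refine Fin.addCases (fun j => ?_) (fun q => ?_) j
      · simp only [emb, Fin.append_left, Pi.zero_apply, Fin.val_castAdd]
        rw [if_neg]
        have := j.isLt
        omega
      · simp only [emb, Fin.append_right, Fin.val_natAdd]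
        fin_cases q <;> simp [ev]

/-- The middle of the first two vertices. -/
noncomputable def m01 : Fin 3 → ℝ := ![1 / 2, 1 / 2, 0]

/-- The centre. -/
noncomputable def cc : Fin 3 → ℝ := ![1 / 3, 1 / 3, 1 / 3]

theorem V1_eq (k : ℕ) : V1 k = U k (ev 0) m01 cc := by
  funext o j
  rcases o with _ | i
  · rw [U_none]
    unfold V1 V0
    have hk : ¬ (k + 2 < k) := by omega
    simp only [Fin.val_last, hk, if_false]
    refine Fin.addCases (fun j => ?_) (fun q => ?_) j
    · simp only [emb, Fin.append_left, Pi.zero_apply, Fin.val_castAdd]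
      rw [if_neg]
      have := j.isLt
      omega
    · simp only [emb, Fin.append_right, Fin.val_natAdd]
      rw [if_pos ⟨by omega, by have := q.isLt; omega⟩]
      push_cast
      fin_cases q <;> simp [cc] <;> ring
  · unfold V1 V0
    simp only [Fin.val_castSucc]
    rcases cases_idx i with h | rfl | rfl
    · simp [U, h]
    · rw [U_i0]
      simp only [i0, lt_irrefl, if_false]
      refine Fin.addCases (fun j => ?_) (fun q => ?_) j
      · simp only [emb, Fin.append_left, Pi.zero_apply, Fin.val_castAdd]
        rw [if_neg]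
        have := j.isLt
        omega
      · simp only [emb, Fin.append_right, Fin.val_natAdd]
        fin_cases q <;> simp [ev]
    · rw [U_i1]
      have hk : ¬ (k + 1 < k) := by omega
      simp only [i1, hk, if_false]
      refine Fin.addCases (fun j => ?_) (fun q => ?_) j
      · simp only [emb, Fin.append_left, Pi.zero_apply, Fin.val_castAdd]
        rw [if_neg]
        have := j.isLt
        omega
      · simp only [emb, Fin.append_right, Fin.val_natAdd]
        push_cast
        fin_cases q <;> simp [m01] <;> ring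

end II14

open II14 in
theorem prfI14 : claimI14 := by
  intro k G hG hs
  refine (congrArg (fun W => Chamber.EV W G) (W_eq k)).trans ?_
  rw [V1_eq]
  show Chamber.EV (U k (ev 0) (ev 1) (ev 2)) G = Chamber.EV (U k (ev 0) m01 cc) G
  set m02 : Fin 3 → ℝ := ![1 / 2, 0, 1 / 2] with hm02
  have half : ENNReal.ofReal (1 / 2) + ENNReal.ofReal (1 - 1 / 2) = 1 := by
    rw [← ENNReal.ofReal_add (by norm_num) (by norm_num)]
    norm_num
  have third : ENNReal.ofReal (2 / 3) + ENNReal.ofReal (1 - 2 / 3) = 1 := by
    rw [← ENNReal.ofReal_add (by norm_num) (by norm_num)]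
    norm_num
  -- first step
  have s1 : Chamber.EV (U k (ev 0) (ev 1) (ev 2)) G = Chamber.EV (U k (ev 0) m01 (ev 2)) G := by
    rw [bis01 G hG (ev 0) (ev 1) (ev 2) (1 / 2) (by norm_num) (by norm_num)]
    have e1 : ((1 / 2 : ℝ) • ev 0 + (1 - 1 / 2 : ℝ) • ev 1) = m01 := by
      funext i
      fin_cases i <;> simp [ev, m01] <;> norm_num
    rw [e1]
    have e2 : Chamber.EV (U k m01 (ev 1) (ev 2)) G = Chamber.EV (U k (ev 0) m01 (ev 2)) G := by
      rw [← sym G hs m01 (ev 1) (ev 2) (Equiv.swap 0 1)]
      have a1 : (fun i => m01 (Equiv.swap (0 : Fin 3) 1 i)) = m01 := by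
        funext i
        fin_cases i <;> simp [m01, Equiv.swap_apply_def]
      have a2 : (fun i => ev 1 (Equiv.swap (0 : Fin 3) 1 i)) = ev 0 := by
        funext i
        fin_cases i <;> simp [ev, Equiv.swap_apply_def]
      have a3 : (fun i => ev 2 (Equiv.swap (0 : Fin 3) 1 i)) = ev 2 := by
        funext i
        fin_cases i <;> simp [ev, Equiv.swap_apply_def]
      rw [a1, a2, a3, swap0 G hG m01 (ev 0) (ev 2), swap1 G hG (ev 2) (ev 0) m01,
        swap0 G hG (ev 2) m01 (ev 0)]
    rw [e2, ← add_mul, half, one_mul]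
  have s2 : Chamber.EV (U k (ev 0) m01 (ev 2)) G = Chamber.EV (U k (ev 0) m01 cc) G := by
    rw [bis12 G hG (ev 0) m01 (ev 2) (2 / 3) (by norm_num) (by norm_num)]
    have e1 : ((2 / 3 : ℝ) • m01 + (1 - 2 / 3 : ℝ) • ev 2) = cc := by
      funext i
      fin_cases i <;> simp [ev, m01, cc] <;> norm_num
    rw [e1]
    have e2 : Chamber.EV (U k (ev 0) cc (ev 2)) G = Chamber.EV (U k (ev 0) m01 cc) G := by
      rw [bis02 G hG (ev 0) cc (ev 2) (1 / 2) (by norm_num) (by norm_num)]
      have e3 : ((1 / 2 : ℝ) • ev 0 + (1 - 1 / 2 : ℝ) • ev 2) = m02 := by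
        funext i
        fin_cases i <;> simp [ev, m02] <;> norm_num
      rw [e3]
      have e4 : Chamber.EV (U k m02 cc (ev 2)) G = Chamber.EV (U k (ev 0) cc m02) G := by
        rw [← sym G hs m02 cc (ev 2) (Equiv.swap 0 2)]
        have a1 : (fun i => m02 (Equiv.swap (0 : Fin 3) 2 i)) = m02 := by
          funext i
          fin_cases i <;> simp [m02, Equiv.swap_apply_def]
        have a2 : (fun i => cc (Equiv.swap (0 : Fin 3) 2 i)) = cc := by
          funext i
          fin_cases i <;> simp [cc, Equiv.swap_apply_def]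
        have a3 : (fun i => ev 2 (Equiv.swap (0 : Fin 3) 2 i)) = ev 0 := by
          funext i
          fin_cases i <;> simp [ev, Equiv.swap_apply_def]
        rw [a1, a2, a3, swap0 G hG m02 cc (ev 0)]
      have e5 : Chamber.EV (U k (ev 0) cc m02) G = Chamber.EV (U k (ev 0) m01 cc) G := by
        rw [← sym G hs (ev 0) cc m02 (Equiv.swap 1 2)]
        have a1 : (fun i => ev 0 (Equiv.swap (1 : Fin 3) 2 i)) = ev 0 := by
          funext i
          fin_cases i <;> simp [ev, Equiv.swap_apply_def]
        have a2 : (fun i => cc (Equiv.swap (1 : Fin 3) 2 i)) = cc := by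
          funext i
          fin_cases i <;> simp [cc, Equiv.swap_apply_def]
        have a3 : (fun i => m02 (Equiv.swap (1 : Fin 3) 2 i)) = m01 := by
          funext i
          fin_cases i <;> simp [m02, m01, Equiv.swap_apply_def]
        rw [a1, a2, a3, swap1 G hG (ev 0) cc m01]
      rw [e4, e5, ← add_mul, half, one_mul]
    rw [e2, ← add_mul, third, one_mul]
  rw [s1, s2]

end Pool.Agent.Work.MP_122e00_nt.Sharp
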