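import Pool.Agent.Work.MP_122e00_nt.Sharp.Stmts

set_option autoImplicit false

namespace Pool.Agent.Work.MP_122e00_nt.Sharp

open Finset Filter Topology MeasureTheory

open scoped ENNReal

open Two Gen

namespace II8

open Classical in
/-- The indicator of a proposition. -/
noncomputable def ind (p : Prop) : ℝ≥0∞ := if p then 1 else 0

lemma ind_true {p : Prop} (h : p) : ind p = 1 := by unfold ind; rw [if_pos h]

lemma ind_false {p : Prop} (h : ¬ p) : ind p = 0 := by unfold ind; rw [if_neg h]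

lemma ind_congr {p q : Prop} (h : p ↔ q) : ind p = ind q := by rw [propext h]

lemma ind_and (p q : Prop) : ind (p ∧ q) = ind p * ind q := by
  by_cases hp : p
  · by_cases hq : q
    · rw [ind_true ⟨hp, hq⟩, ind_true hp, ind_true hq, one_mul]
    · rw [ind_false (fun h => hq h.2), ind_false hq, mul_zero]
  · rw [ind_false (fun h => hp h.1), ind_false hp, zero_mul]

lemma ind_mul_congr {p : Prop} {a b : ℝ≥0∞} (h : p → a = b) : ind p * a = ind p * b := by
  by_cases hp : p
  · rw [h hp]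
  · rw [ind_false hp, zero_mul, zero_mul]

lemma ind_meas {X : Type*} [MeasurableSpace X] {P : X → Prop} (h : MeasurableSet {x | P x}) :
    Measurable fun x => ind (P x) := by
  classical
  unfold ind
  exact Measurable.ite h measurable_const measurable_const

lemma set_lint {X : Type*} [MeasureSpace X] {S : Set X} (hS : MeasurableSet S) (f : X → ℝ≥0∞) :
    ∫⁻ x in S, f x = ∫⁻ x, ind (x ∈ S) * f x := by
  rw [← lintegral_indicator hS]
  refine lintegral_congr fun x => ?_
  by_cases hx : x ∈ S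
  · rw [Set.indicator_of_mem hx, ind_true hx, one_mul]
  · rw [Set.indicator_of_notMem hx, ind_false hx, zero_mul]

/-- All coordinates are positive. -/
def pos {k : ℕ} (z : Fin k → ℝ) : Prop := ∀ i, 0 < z i

lemma pos_meas {X : Type*} [MeasurableSpace X] {k : ℕ} {f : X → Fin k → ℝ} (hf : Measurable f) :
    MeasurableSet {x | pos (f x)} := by
  have e : {x | pos (f x)} = ⋂ i : Fin k, {x | 0 < f x i} := by
    ext x
    simp only [pos, Set.mem_iInter, Set.mem_ofPred_eq]
  rw [e]
  exact MeasurableSet.iInter fun i =>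
    measurableSet_lt measurable_const ((measurable_pi_apply i).comp hf)

lemma Srt_meas (k : ℕ) : MeasurableSet (Srt k) := by
  have e : Srt k = ⋂ i : Fin k, ⋂ j : Fin k, ⋂ _ : i < j, {x | x j < x i} := by
    ext x
    simp only [Srt, Set.mem_iInter, Set.mem_ofPred_eq]
    constructor
    · intro h i j hij
      exact h hij
    · intro h i j hij
      exact h i j hij
  rw [e]
  exact MeasurableSet.iInter fun i => MeasurableSet.iInter fun j => MeasurableSet.iInter fun _ =>
    measurableSet_lt (measurable_pi_apply j) (measurable_pi_apply i)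

/-- The parts, of total `a`. -/
noncomputable def VV {s : ℕ} (a : ℝ) (w : Fin s → ℝ) : Fin (s + 1) → ℝ :=
  Fin.snoc w (a - ∑ i, w i)

lemma VV_last {s : ℕ} (a : ℝ) (w : Fin s → ℝ) : VV a w (Fin.last s) = a - ∑ i, w i := by
  unfold VV
  exact Fin.snoc_last (α := fun _ : Fin (s + 1) => ℝ) _ _

lemma VV_castSucc {s : ℕ} (a : ℝ) (w : Fin s → ℝ) (q : Fin s) : VV a w q.castSucc = w q := by
  unfold VV
  exact Fin.snoc_castSucc (α := fun _ : Fin (s + 1) => ℝ) _ _ _

lemma VV_meas {s : ℕ} {X : Type*} [MeasurableSpace X] {a : X → ℝ} {w : X → Fin s → ℝ}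
    (ha : Measurable a) (hw : Measurable w) : Measurable fun p => VV (a p) (w p) := by
  refine measurable_pi_iff.mpr fun q => ?_
  refine Fin.lastCases ?_ (fun i => ?_) q
  · simp only [VV_last]
    exact ha.sub (Finset.measurable_sum _ fun i _ => (measurable_pi_apply i).comp hw)
  · simp only [VV_castSucc]
    exact (measurable_pi_apply i).comp hw

/-- Splitting the coordinates. -/
lemma lemA (k s : ℕ) (F : (Fin k → ℝ) → (Fin (s + 1) → ℝ) → ℝ≥0∞)
    (hF : Measurable fun p : (Fin k → ℝ) × (Fin (s + 1) → ℝ) => F p.1 p.2) :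
    ∫⁻ y in Sim k s, F (xs y) (vs y) = ∫⁻ z : Fin k → ℝ, ind (pos z) *
      ∫⁻ w : Fin s → ℝ, ind (pos (VV (1 - ∑ i, z i) w)) * F z (VV (1 - ∑ i, z i) w) := by
  have hSim : MeasurableSet (Sim k s) := by
    have e : Sim k s = (⋂ i, {y : Fin k ⊕ Fin s → ℝ | 0 < y i}) ∩ {y | ∑ i, y i < 1} := by
      ext y
      simp only [Sim, Set.mem_inter_iff, Set.mem_iInter, Set.mem_ofPred_eq]
    rw [e]
    refine MeasurableSet.inter (MeasurableSet.iInter fun i =>
      measurableSet_lt measurable_const (measurable_pi_apply i)) ?_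
    exact measurableSet_lt (Finset.measurable_sum _ fun i _ => measurable_pi_apply i)
      measurable_const
  have hxs : Measurable (xs : (Fin k ⊕ Fin s → ℝ) → Fin k → ℝ) :=
    measurable_pi_lambda _ fun i => measurable_pi_apply _
  have hvs0 : ∀ y : Fin k ⊕ Fin s → ℝ, vs y = VV (1 - ∑ i, xs y i) (fun i => y (Sum.inr i)) := by
    intro y
    unfold vs VV xs
    rw [Fintype.sum_sum_type]
    congr 1
    ring
  have hvs : Measurable (vs : (Fin k ⊕ Fin s → ℝ) → Fin (s + 1) → ℝ) := by
    have : (vs : (Fin k ⊕ Fin s → ℝ) → Fin (s + 1) → ℝ) =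
        fun y => VV (1 - ∑ i, xs y i) (fun i => y (Sum.inr i)) := funext hvs0
    rw [this]
    exact VV_meas (measurable_const.sub (Finset.measurable_sum _ fun i _ =>
      (measurable_pi_apply i).comp hxs)) (measurable_pi_lambda _ fun i => measurable_pi_apply _)
  rw [set_lint hSim]
  have hG : Measurable fun y : Fin k ⊕ Fin s → ℝ => ind (y ∈ Sim k s) * F (xs y) (vs y) :=
    (ind_meas hSim).mul (hF.comp (hxs.prodMk hvs))
  have h := volume_measurePreserving_sumPiEquivProdPi_symm (fun _ : Fin k ⊕ Fin s => ℝ)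
  rw [← h.lintegral_comp hG]
  rw [show (volume : Measure ((Fin k → ℝ) × (Fin s → ℝ))) = volume.prod volume from rfl]
  rw [lintegral_prod]
  swap
  · exact (hG.comp (MeasurableEquiv.measurable _)).aemeasurable
  refine lintegral_congr (fun z => ?_)
  have hVm : Measurable fun w : Fin s → ℝ => VV (1 - ∑ i, z i) w :=
    VV_meas measurable_const measurable_id
  rw [← lintegral_const_mul]
  swap
  · exact (ind_meas (pos_meas hVm)).mul (hF.comp (measurable_const.prodMk hVm))
  refine lintegral_congr (fun w => ?_)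
  set y : Fin k ⊕ Fin s → ℝ :=
    (MeasurableEquiv.sumPiEquivProdPi fun _ : Fin k ⊕ Fin s => ℝ).symm (z, w) with hy
  have e1 : xs y = z := rfl
  have e2 : vs y = VV (1 - ∑ i, z i) w := by rw [hvs0 y, e1]; rfl
  have e3 : y ∈ Sim k s ↔ pos z ∧ pos (VV (1 - ∑ i, z i) w) := by
    have hs : ∑ i, y i = ∑ i, z i + ∑ i, w i := by rw [Fintype.sum_sum_type]; rfl
    unfold Sim pos
    simp only [Set.mem_ofPred_eq]
    rw [hs, Sum.forall]
    constructor
    · rintro ⟨⟨h1, h2⟩, h3⟩
      refine ⟨h1, fun q => ?_⟩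
      refine Fin.lastCases ?_ (fun i => ?_) q
      · rw [VV_last]; linarith
      · rw [VV_castSucc]; exact h2 i
    · rintro ⟨h1, h2⟩
      refine ⟨⟨h1, fun i => ?_⟩, ?_⟩
      · have := h2 i.castSucc
        rw [VV_castSucc] at this
        exact this
      · have := h2 (Fin.last s)
        rw [VV_last] at this
        linarith
  rw [e1, e2, ind_congr e3, ind_and, mul_assoc]

/-- Splitting the marks. -/
lemma lemC (a b : ℕ) (F : (Fin (a + b) → ℝ) → ℝ≥0∞) (hF : Measurable F) :
    ∫⁻ z, F z = ∫⁻ x : Fin a → ℝ, ∫⁻ y : Fin b → ℝ, F (Fin.append x y) := by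
  have h1 := volume_measurePreserving_sumPiEquivProdPi_symm (fun _ : Fin a ⊕ Fin b => ℝ)
  have h2 := volume_measurePreserving_piCongrLeft (fun _ : Fin (a + b) => ℝ)
    (finSumFinEquiv (m := a) (n := b))
  have happ : ∀ (x : Fin a → ℝ) (y : Fin b → ℝ),
      (MeasurableEquiv.piCongrLeft (fun _ : Fin (a + b) => ℝ) (finSumFinEquiv (m := a) (n := b)))
        ((MeasurableEquiv.sumPiEquivProdPi fun _ : Fin a ⊕ Fin b => ℝ).symm (x, y)) =
        Fin.append x y := by
    intro x y
    funext j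
    refine Fin.addCases (fun i => ?_) (fun i => ?_) j
    · rw [Fin.append_left]
      have := Equiv.piCongrLeft_apply_apply (fun _ : Fin (a + b) => ℝ)
        (finSumFinEquiv (m := a) (n := b))
        ((MeasurableEquiv.sumPiEquivProdPi fun _ : Fin a ⊕ Fin b => ℝ).symm (x, y)) (Sum.inl i)
      rw [finSumFinEquiv_apply_left] at this
      exact this
    · rw [Fin.append_right]
      have := Equiv.piCongrLeft_apply_apply (fun _ : Fin (a + b) => ℝ)
        (finSumFinEquiv (m := a) (n := b))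
        ((MeasurableEquiv.sumPiEquivProdPi fun _ : Fin a ⊕ Fin b => ℝ).symm (x, y)) (Sum.inr i)
      rw [finSumFinEquiv_apply_right] at this
      exact this
  rw [← h2.lintegral_comp hF]
  have hF2 : Measurable fun u => F ((MeasurableEquiv.piCongrLeft (fun _ : Fin (a + b) => ℝ)
      (finSumFinEquiv (m := a) (n := b))) u) := hF.comp (MeasurableEquiv.measurable _)
  rw [← h1.lintegral_comp hF2]
  rw [show (volume : Measure ((Fin a → ℝ) × (Fin b → ℝ))) = volume.prod volume from rfl]
  rw [lintegral_prod]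
  swap
  · exact (hF2.comp (MeasurableEquiv.measurable _)).aemeasurable
  refine lintegral_congr fun x => lintegral_congr fun y => ?_
  rw [happ]

lemma sum_meas {X : Type*} [MeasurableSpace X] {k : ℕ} {f : X → Fin k → ℝ}
    (hf : Measurable f) : Measurable fun x => ∑ i, f x i :=
  Finset.measurable_sum _ fun i _ => (measurable_pi_apply i).comp hf

/-- The inner integral. -/
noncomputable def Psi {s k : ℕ} (T : ℕ) (R : ℝ) (g : (Fin (s + 1) → ℝ) → ℝ) (z : Fin k → ℝ) :
    ℝ≥0∞ :=
  ∫⁻ w : Fin s → ℝ, ind (pos (VV (1 - ∑ i, z i) w)) *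
    ENNReal.ofReal (HC T R g z (VV (1 - ∑ i, z i) w))

lemma V1_meas {s k : ℕ} : Measurable fun p : (Fin k → ℝ) × (Fin s → ℝ) =>
    VV (1 - ∑ i, p.1 i) p.2 :=
  VV_meas (measurable_const.sub (sum_meas measurable_fst)) measurable_snd

lemma Psi_meas (hI6 : claimI6) {s k : ℕ} (T : ℕ) (R : ℝ) (g : (Fin (s + 1) → ℝ) → ℝ)
    (hg : Measurable g) : Measurable (Psi T R g : (Fin k → ℝ) → ℝ≥0∞) := by
  have h : Measurable fun p : (Fin k → ℝ) × (Fin s → ℝ) => ind (pos (VV (1 - ∑ i, p.1 i) p.2)) *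
      ENNReal.ofReal (HC T R g p.1 (VV (1 - ∑ i, p.1 i) p.2)) := by
    have hV : Measurable fun p : (Fin k → ℝ) × (Fin s → ℝ) => VV (1 - ∑ i, p.1 i) p.2 := V1_meas
    have hpr : Measurable fun p : (Fin k → ℝ) × (Fin s → ℝ) =>
        ((p.1, VV (1 - ∑ i, p.1 i) p.2) : (Fin k → ℝ) × (Fin (s + 1) → ℝ)) :=
      measurable_fst.prodMk hV
    have h2 := (hI6 s k T R g hg).1.comp hpr
    have h3 : Measurable fun p : (Fin k → ℝ) × (Fin s → ℝ) =>
        HC T R g p.1 (VV (1 - ∑ i, p.1 i) p.2) := h2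
    exact (ind_meas (pos_meas hV)).mul (ENNReal.measurable_ofReal.comp h3)
  exact h.lintegral_prod_right'

lemma pos_perm {k : ℕ} (z : Fin k → ℝ) (σ : Equiv.Perm (Fin k)) :
    pos (fun i => z (σ i)) ↔ pos z := by
  constructor
  · intro h i
    have := h (σ.symm i)
    simp only [Equiv.apply_symm_apply] at this
    exact this
  · intro h i
    exact h _

theorem stepB (hQ1 : claimQ1) (hQ3 : claimQ3) (hI2 : claimI2) (hI3 : claimI3) (hI6 : claimI6)
    (s m T : ℕ) (R : ℝ) (g : (Fin (s + 1) → ℝ) → ℝ) (hg : Measurable g) (K : ℕ) :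
    IL s m T R g K = ∫⁻ z : Fin K → ℝ, ind (z ∈ Srt K) *
      (ind (pos z) * (ENNReal.ofReal (Qs K m z) * Psi T R g z)) := by
  have hQo : Measurable (Qo K m) := (hQ3.2.1 K m).1.measurable
  have hHC := (hI6 s K T R g hg).1
  have hF : Measurable fun p : (Fin K → ℝ) × (Fin (s + 1) → ℝ) =>
      ENNReal.ofReal (Qo K m p.1 * HC T R g p.1 p.2) :=
    ENNReal.measurable_ofReal.comp ((hQo.comp measurable_fst).mul hHC)
  unfold IL
  rw [lemA K s (fun z v => ENNReal.ofReal (Qo K m z * HC T R g z v)) hF]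
  have hVm : ∀ a : ℝ, Measurable fun w : Fin s → ℝ => VV a w := fun a =>
    VV_meas measurable_const measurable_id
  have e1 : ∀ z : Fin K → ℝ, ind (pos z) * ∫⁻ w : Fin s → ℝ, ind (pos (VV (1 - ∑ i, z i) w)) *
      ENNReal.ofReal (Qo K m z * HC T R g z (VV (1 - ∑ i, z i) w)) =
      ind (pos z) * (ENNReal.ofReal (Qo K m z) * Psi T R g z) := by
    intro z
    refine ind_mul_congr fun hz => ?_
    have hq : 0 ≤ Qo K m z := (hQ3.1 K m z fun i => (hz i).le).1
    unfold Psi
    have hV : Measurable fun w : Fin s → ℝ => VV (1 - ∑ i, z i) w := hVm _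
    have hpr : Measurable fun w : Fin s → ℝ =>
        ((z, VV (1 - ∑ i, z i) w) : (Fin K → ℝ) × (Fin (s + 1) → ℝ)) :=
      measurable_const.prodMk hV
    have h2 := hHC.comp hpr
    have h3 : Measurable fun w : Fin s → ℝ => HC T R g z (VV (1 - ∑ i, z i) w) := h2
    have h4 : Measurable fun w : Fin s → ℝ => ind (pos (VV (1 - ∑ i, z i) w)) *
        ENNReal.ofReal (HC T R g z (VV (1 - ∑ i, z i) w)) :=
      (ind_meas (pos_meas hV)).mul (ENNReal.measurable_ofReal.comp h3)
    rw [← lintegral_const_mul _ h4]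
    refine lintegral_congr fun w => ?_
    rw [ENNReal.ofReal_mul hq]
    ring
  rw [lintegral_congr e1]
  have hΦ : Measurable fun z : Fin K → ℝ =>
      ind (pos z) * (ENNReal.ofReal (Qo K m z) * Psi T R g z) :=
    (ind_meas (pos_meas measurable_id)).mul
      ((ENNReal.measurable_ofReal.comp hQo).mul (Psi_meas hI6 T R g hg))
  rw [hI2 K _ hΦ, set_lint (Srt_meas K)]
  refine lintegral_congr fun z => ind_mul_congr fun hz => ?_
  have hinj : Function.Injective z := StrictAnti.injective hz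
  have e2 : ∀ σ : Equiv.Perm (Fin K), Psi T R g (fun i => z (σ i)) = Psi T R g z := by
    intro σ
    unfold Psi
    have hs : ∑ i, z (σ i) = ∑ i, z i := Equiv.sum_comp σ z
    rw [hs]
    refine lintegral_congr fun w => ?_
    rw [hI3 s K T R g z _ σ hinj]
  have e3 : ∀ σ : Equiv.Perm (Fin K), ind (pos fun i => z (σ i)) *
      (ENNReal.ofReal (Qo K m fun i => z (σ i)) * Psi T R g fun i => z (σ i)) =
      ind (pos z) * (ENNReal.ofReal (Qo K m fun i => z (σ i)) * Psi T R g z) := by
    intro σ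
    rw [e2 σ, ind_congr (pos_perm z σ)]
  rw [Finset.sum_congr rfl fun σ _ => e3 σ, ← Finset.mul_sum]
  refine ind_mul_congr fun hp => ?_
  rw [← Finset.sum_mul, ← hQ1 K m z, ENNReal.ofReal_sum_of_nonneg]
  intro σ _
  exact (hQ3.1 K m _ fun i => (hp (σ i)).le).1

/-- All coordinates are in `(0, z)`. -/
def cond {l : ℕ} (z : ℝ) (y : Fin l → ℝ) : Prop := ∀ i, 0 < y i ∧ y i < z

/-- The total of the hidden marks on part `q`. -/
noncomputable def SC {s l : ℕ} (c : Fin l → Fin (s + 1)) (y : Fin l → ℝ) (q : Fin (s + 1)) : ℝ :=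
  ∑ i, if c i = q then y i else 0

lemma plc_eq {s l : ℕ} (y : Fin l → ℝ) (v : Fin (s + 1) → ℝ) (c : Fin l → Fin (s + 1)) :
    plc y v c = fun q => v q + SC c y q := rfl

lemma SC_sum {s l : ℕ} (c : Fin l → Fin (s + 1)) (y : Fin l → ℝ) :
    ∑ q : Fin s, SC c y q.castSucc + SC c y (Fin.last s) = ∑ i, y i := by
  rw [← Fin.sum_univ_castSucc (fun q => SC c y q)]
  unfold SC
  rw [Finset.sum_comm]
  refine Finset.sum_congr rfl fun i _ => ?_
  rw [Finset.sum_ite_eq]
  simp

/-- The contribution of the visible marks. -/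
noncomputable def PP {s k : ℕ} (R N : ℝ) (g : (Fin (s + 1) → ℝ) → ℝ) (x : Fin k → ℝ)
    (v : Fin (s + 1) → ℝ) : ℝ≥0∞ := ENNReal.ofReal (pg R N (Pl g x v))

/-- The inner integral for visible and hidden marks. -/
noncomputable def Psi2 {s k l : ℕ} (R N : ℝ) (g : (Fin (s + 1) → ℝ) → ℝ) (x : Fin k → ℝ)
    (y : Fin l → ℝ) : ℝ≥0∞ :=
  ∑ c : Fin l → Fin (s + 1), ∫⁻ h : Fin s → ℝ,
    ind (∀ q, SC c y q < VV (1 - ∑ i, x i) h q) * PP R N g x (VV (1 - ∑ i, x i) h)

lemma SC_meas {s l : ℕ} {X : Type*} [MeasurableSpace X] (c : Fin l → Fin (s + 1))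
    (q : Fin (s + 1)) {y : X → Fin l → ℝ} (hy : Measurable y) :
    Measurable fun p => SC c (y p) q := by
  unfold SC
  refine Finset.measurable_sum _ fun i _ => ?_
  by_cases h : c i = q
  · simp only [if_pos h]
    exact (measurable_pi_apply i).comp hy
  · simp only [if_neg h]
    exact measurable_const

lemma lt_meas {s l : ℕ} {X : Type*} [MeasurableSpace X] (c : Fin l → Fin (s + 1))
    {y : X → Fin l → ℝ} (hy : Measurable y) {v : X → Fin (s + 1) → ℝ} (hv : Measurable v) :
    MeasurableSet {p | ∀ q, SC c (y p) q < v p q} := by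
  have e : {p | ∀ q, SC c (y p) q < v p q} = ⋂ q, {p | SC c (y p) q < v p q} := by
    ext p
    simp only [Set.mem_iInter, Set.mem_ofPred_eq]
  rw [e]
  exact MeasurableSet.iInter fun q =>
    measurableSet_lt (SC_meas c q hy) ((measurable_pi_apply q).comp hv)

lemma cond_meas {l : ℕ} (z : ℝ) : MeasurableSet {y : Fin l → ℝ | cond z y} := by
  have e : {y : Fin l → ℝ | cond z y} = ⋂ i, ({y | 0 < y i} ∩ {y | y i < z}) := by
    ext p
    simp only [cond, Set.mem_iInter, Set.mem_ofPred_eq, Set.mem_inter_iff]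
  rw [e]
  exact MeasurableSet.iInter fun i => MeasurableSet.inter
    (measurableSet_lt measurable_const (measurable_pi_apply i))
    (measurableSet_lt (measurable_pi_apply i) measurable_const)

lemma PP_meas (hI6 : claimI6) {s k : ℕ} {X : Type*} [MeasurableSpace X] (R N : ℝ)
    (g : (Fin (s + 1) → ℝ) → ℝ) (hg : Measurable g) {x : X → Fin k → ℝ}
    {v : X → Fin (s + 1) → ℝ} (hx : Measurable x) (hv : Measurable v) :
    Measurable fun p => PP R N g (x p) (v p) := by
  obtain ⟨_, h2, h3, _⟩ := hI6 s k 0 R g hg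
  unfold PP
  exact ENNReal.measurable_ofReal.comp ((h3 N).comp (h2.comp (hx.prodMk hv)))

lemma pg_nonneg {R N G : ℝ} (hR : 1 ≤ R) (hN : 0 ≤ N) : 0 ≤ pg R N G := by
  unfold pg
  split_ifs with h
  · exact div_nonneg (sq_nonneg _) h.le
  · exact mul_nonneg (mul_nonneg (by norm_num) (by linarith)) hN

lemma Psi_append (hI5 : claimI5) (hI6 : claimI6) (s T l : ℕ) (R : ℝ)
    (g : (Fin (s + 1) → ℝ) → ℝ) (hg : Measurable g) (hR : 1 ≤ R) (x : Fin T → ℝ)
    (y : Fin l → ℝ) (hxy : ∀ i j, y j < x i) :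
    Psi T R g (Fin.append x y) = Psi2 R (((s : ℝ) + 1) ^ T) g x y := by
  have hs : ∑ i, Fin.append x y i = ∑ i, x i + ∑ i, y i := by
    rw [Fin.sum_univ_add]
    simp only [Fin.append_left, Fin.append_right]
  have hN : (0 : ℝ) ≤ ((s : ℝ) + 1) ^ T := by positivity
  unfold Psi Psi2
  rw [hs]
  have hVm : ∀ a : ℝ, Measurable fun w : Fin s → ℝ => VV a w := fun a =>
    VV_meas measurable_const measurable_id
  have hpl : ∀ (a : ℝ) (c : Fin l → Fin (s + 1)), Measurable fun w : Fin s → ℝ =>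
      plc y (VV a w) c := by
    intro a c
    refine measurable_pi_iff.mpr fun q => ?_
    exact ((measurable_pi_apply q).comp (hVm a)).add measurable_const
  have e1 : ∀ w : Fin s → ℝ, ind (pos (VV (1 - (∑ i, x i + ∑ i, y i)) w)) *
      ENNReal.ofReal (HC T R g (Fin.append x y) (VV (1 - (∑ i, x i + ∑ i, y i)) w)) =
      ∑ c : Fin l → Fin (s + 1), ind (pos (VV (1 - (∑ i, x i + ∑ i, y i)) w)) *
        PP R (((s : ℝ) + 1) ^ T) g x (plc y (VV (1 - (∑ i, x i + ∑ i, y i)) w) c) := by
    intro w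
    rw [hI5 s T l R g x y _ hxy, ENNReal.ofReal_sum_of_nonneg, Finset.mul_sum]
    · rfl
    · intro c _
      exact pg_nonneg hR hN
  rw [lintegral_congr e1, lintegral_finsetSum]
  swap
  · intro c _
    exact (ind_meas (pos_meas (hVm _))).mul (PP_meas hI6 R _ g hg measurable_const (hpl _ c))
  refine Finset.sum_congr rfl fun c _ => ?_
  set A : Fin s → ℝ := fun q => SC c y q.castSucc with hA
  have e2 : ∀ w : Fin s → ℝ, VV (1 - ∑ i, x i) (w + A) =
      plc y (VV (1 - (∑ i, x i + ∑ i, y i)) w) c := by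
    intro w
    rw [plc_eq]
    funext q
    refine Fin.lastCases ?_ (fun i => ?_) q
    · rw [VV_last, VV_last]
      have h1 := SC_sum c y
      have h2 : ∑ i, (w + A) i = ∑ i, w i + ∑ i, A i := by
        simp only [Pi.add_apply, Finset.sum_add_distrib]
      rw [h2, ← h1]
      simp only [hA]
      ring
    · rw [VV_castSucc, VV_castSucc]
      rfl
  rw [← lintegral_add_right_eq_self (fun h : Fin s → ℝ =>
    ind (∀ q, SC c y q < VV (1 - ∑ i, x i) h q) *
      PP R (((s : ℝ) + 1) ^ T) g x (VV (1 - ∑ i, x i) h)) A]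
  refine lintegral_congr fun w => ?_
  rw [e2 w]
  congr 1
  refine ind_congr ?_
  unfold pos
  refine forall_congr' fun q => ?_
  rw [plc_eq]
  constructor
  · intro h
    show SC c y q < _ + SC c y q
    linarith
  · intro h
    have h' : SC c y q < VV (1 - (∑ i, x i + ∑ i, y i)) w q + SC c y q := h
    linarith

lemma SC_perm {s l : ℕ} (c : Fin l → Fin (s + 1)) (y : Fin l → ℝ) (τ : Equiv.Perm (Fin l)) :
    SC c (fun i => y (τ i)) = SC (fun i => c (τ.symm i)) y := by
  funext q
  unfold SC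
  rw [← Equiv.sum_comp τ (fun i => if c (τ.symm i) = q then y i else 0)]
  refine Finset.sum_congr rfl fun i _ => ?_
  rw [Equiv.symm_apply_apply]

lemma Psi2_perm {s k l : ℕ} (R N : ℝ) (g : (Fin (s + 1) → ℝ) → ℝ) (x : Fin k → ℝ)
    (y : Fin l → ℝ) (τ : Equiv.Perm (Fin l)) :
    Psi2 R N g x (fun i => y (τ i)) = Psi2 R N g x y := by
  unfold Psi2
  rw [← Equiv.sum_comp (Equiv.arrowCongr τ (Equiv.refl (Fin (s + 1))))
    (fun c : Fin l → Fin (s + 1) => ∫⁻ h : Fin s → ℝ,
      ind (∀ q, SC c y q < VV (1 - ∑ i, x i) h q) * PP R N g x (VV (1 - ∑ i, x i) h))]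
  refine Finset.sum_congr rfl fun c _ => ?_
  rw [SC_perm]
  rfl

lemma cond_perm {l : ℕ} (z : ℝ) (y : Fin l → ℝ) (τ : Equiv.Perm (Fin l)) :
    cond z (fun i => y (τ i)) ↔ cond z y := by
  constructor
  · intro h i
    have := h (τ.symm i)
    simp only [Equiv.apply_symm_apply] at this
    exact this
  · intro h i
    exact h _

lemma Psi2_meas (hI6 : claimI6) {s k l : ℕ} (R N : ℝ) (g : (Fin (s + 1) → ℝ) → ℝ)
    (hg : Measurable g) (x : Fin k → ℝ) :
    Measurable fun y : Fin l → ℝ => Psi2 R N g x y := by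
  unfold Psi2
  refine Finset.measurable_sum _ fun c _ => ?_
  have hV : Measurable fun p : (Fin l → ℝ) × (Fin s → ℝ) => VV (1 - ∑ i, x i) p.2 :=
    VV_meas measurable_const measurable_snd
  have h : Measurable fun p : (Fin l → ℝ) × (Fin s → ℝ) =>
      ind (∀ q, SC c p.1 q < VV (1 - ∑ i, x i) p.2 q) * PP R N g x (VV (1 - ∑ i, x i) p.2) :=
    (ind_meas (lt_meas c measurable_fst hV)).mul (PP_meas hI6 R N g hg measurable_const hV)
  exact h.lintegral_prod_right'

/-- Unsorting the hidden marks. -/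
lemma stepD (hQ1 : claimQ1) (hQ3 : claimQ3) (hI2 : claimI2) (hI6 : claimI6) {s k l : ℕ}
    (t : ℕ) (R N : ℝ) (g : (Fin (s + 1) → ℝ) → ℝ) (hg : Measurable g) (x : Fin k → ℝ) (z : ℝ) :
    ∫⁻ y : Fin l → ℝ, ind (y ∈ Srt l) * (ind (cond z y) *
      (ENNReal.ofReal (Qs l t y) * Psi2 R N g x y)) =
    ∫⁻ y : Fin l → ℝ, ind (cond z y) * (ENNReal.ofReal (Qo l t y) * Psi2 R N g x y) := by
  have hQo : Measurable (Qo l t) := (hQ3.2.1 l t).1.measurable
  have hf : Measurable fun y : Fin l → ℝ =>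
      ind (cond z y) * (ENNReal.ofReal (Qo l t y) * Psi2 R N g x y) :=
    (ind_meas (cond_meas z)).mul
      ((ENNReal.measurable_ofReal.comp hQo).mul (Psi2_meas hI6 R N g hg x))
  rw [hI2 l _ hf, set_lint (Srt_meas l)]
  refine lintegral_congr fun y => ind_mul_congr fun hy => ?_
  have e3 : ∀ τ : Equiv.Perm (Fin l), ind (cond z fun i => y (τ i)) *
      (ENNReal.ofReal (Qo l t fun i => y (τ i)) * Psi2 R N g x fun i => y (τ i)) =
      ind (cond z y) * (ENNReal.ofReal (Qo l t fun i => y (τ i)) * Psi2 R N g x y) := by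
    intro τ
    rw [Psi2_perm, ind_congr (cond_perm z y τ)]
  rw [Finset.sum_congr rfl fun τ _ => e3 τ, ← Finset.mul_sum]
  refine ind_mul_congr fun hp => ?_
  rw [← Finset.sum_mul, ← hQ1 l t y, ENNReal.ofReal_sum_of_nonneg]
  intro σ _
  exact (hQ3.1 l t _ fun i => (hp (σ i)).1.le).1

/-- Tonelli. -/
lemma stepE (hQ3 : claimQ3) (hI6 : claimI6) {s k l : ℕ}
    (t : ℕ) (R N : ℝ) (g : (Fin (s + 1) → ℝ) → ℝ) (hg : Measurable g) (x : Fin k → ℝ) (z : ℝ) :
    ∫⁻ y : Fin l → ℝ, ind (cond z y) * (ENNReal.ofReal (Qo l t y) * Psi2 R N g x y) =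
    ∫⁻ h : Fin s → ℝ, PP R N g x (VV (1 - ∑ i, x i) h) * muL l t (VV (1 - ∑ i, x i) h) z := by
  have hQo : Measurable (Qo l t) := (hQ3.2.1 l t).1.measurable
  have hQo' : Measurable fun y : Fin l → ℝ => ENNReal.ofReal (Qo l t y) :=
    ENNReal.measurable_ofReal.comp hQo
  have hV : Measurable fun h : Fin s → ℝ => VV (1 - ∑ i, x i) h :=
    VV_meas measurable_const measurable_id
  have hV2 : Measurable fun p : (Fin l → ℝ) × (Fin s → ℝ) => VV (1 - ∑ i, x i) p.2 :=
    VV_meas measurable_const measurable_snd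
  have hmu : ∀ v : Fin (s + 1) → ℝ, muL l t v z = ∑ c : Fin l → Fin (s + 1),
      ∫⁻ y : Fin l → ℝ, ind (cond z y) * (ind (∀ q, SC c y q < v q) *
        ENNReal.ofReal (Qo l t y)) := by
    intro v
    unfold muL
    refine Finset.sum_congr rfl fun c _ => ?_
    have hm : MeasurableSet {y : Fin l → ℝ | (∀ i, 0 < y i ∧ y i < z) ∧
        ∀ q, (∑ i, if c i = q then y i else 0) < v q} := by
      have := (cond_meas (l := l) z).inter (lt_meas c (measurable_id) (measurable_const (a := v)))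
      exact this
    rw [set_lint hm]
    refine lintegral_congr fun y => ?_
    rw [← mul_assoc, ← ind_and]
    rfl
  have e1 : ∀ y : Fin l → ℝ, ind (cond z y) * (ENNReal.ofReal (Qo l t y) * Psi2 R N g x y) =
      ∑ c : Fin l → Fin (s + 1), ∫⁻ h : Fin s → ℝ, ind (cond z y) * (ENNReal.ofReal (Qo l t y) *
        (ind (∀ q, SC c y q < VV (1 - ∑ i, x i) h q) * PP R N g x (VV (1 - ∑ i, x i) h))) := by
    intro y
    unfold Psi2
    rw [Finset.mul_sum, Finset.mul_sum]
    refine Finset.sum_congr rfl fun c _ => ?_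
    have hm : Measurable fun h : Fin s → ℝ =>
        ind (∀ q, SC c y q < VV (1 - ∑ i, x i) h q) * PP R N g x (VV (1 - ∑ i, x i) h) :=
      (ind_meas (lt_meas c measurable_const hV)).mul (PP_meas hI6 R N g hg measurable_const hV)
    rw [lintegral_const_mul _ (hm.const_mul _), lintegral_const_mul _ hm]
  have hj : ∀ c : Fin l → Fin (s + 1), Measurable fun p : (Fin l → ℝ) × (Fin s → ℝ) =>
      ind (cond z p.1) * (ENNReal.ofReal (Qo l t p.1) *
        (ind (∀ q, SC c p.1 q < VV (1 - ∑ i, x i) p.2 q) *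
          PP R N g x (VV (1 - ∑ i, x i) p.2))) := by
    intro c
    refine Measurable.mul ?_ (Measurable.mul (hQo'.comp measurable_fst) ?_)
    · exact (ind_meas (cond_meas z)).comp measurable_fst
    · exact (ind_meas (lt_meas c measurable_fst hV2)).mul
        (PP_meas hI6 R N g hg measurable_const hV2)
  rw [lintegral_congr e1, lintegral_finsetSum]
  swap
  · intro c _
    exact (hj c).lintegral_prod_right'
  have e2 : ∀ h : Fin s → ℝ, PP R N g x (VV (1 - ∑ i, x i) h) *
      muL l t (VV (1 - ∑ i, x i) h) z = ∑ c : Fin l → Fin (s + 1),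
      ∫⁻ y : Fin l → ℝ, ind (cond z y) * (ENNReal.ofReal (Qo l t y) *
        (ind (∀ q, SC c y q < VV (1 - ∑ i, x i) h q) * PP R N g x (VV (1 - ∑ i, x i) h))) := by
    intro h
    rw [hmu, Finset.mul_sum]
    refine Finset.sum_congr rfl fun c _ => ?_
    rw [← lintegral_const_mul]
    · refine lintegral_congr fun y => ?_
      ring
    · refine Measurable.mul ?_ (Measurable.mul ?_ hQo')
      · exact ind_meas (cond_meas z)
      · exact ind_meas (lt_meas c measurable_id measurable_const)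
  rw [lintegral_congr e2, lintegral_finsetSum]
  swap
  · intro c _
    exact (hj c).lintegral_prod_left'
  refine Finset.sum_congr rfl fun c _ => ?_
  exact lintegral_lintegral_swap (hj c).aemeasurable

/-- The order of the marks. -/
lemma app_iff {T l : ℕ} (x : Fin (T + 1) → ℝ) (y : Fin l → ℝ) (hx : x ∈ Srt (T + 1))
    (hp : pos x) :
    (Fin.append x y ∈ Srt (T + 1 + l) ∧ pos (Fin.append x y)) ↔
      (y ∈ Srt l ∧ cond (x (Fin.last T)) y) := by
  constructor
  · rintro ⟨h1, h2⟩
    refine ⟨?_, fun i => ⟨?_, ?_⟩⟩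
    · intro i j hij
      have := h1 (show Fin.natAdd (T + 1) i < Fin.natAdd (T + 1) j from by
        rw [Fin.lt_def, Fin.val_natAdd, Fin.val_natAdd]
        exact Nat.add_lt_add_left (Fin.lt_def.mp hij) _)
      rw [Fin.append_right, Fin.append_right] at this
      exact this
    · have := h2 (Fin.natAdd (T + 1) i)
      rw [Fin.append_right] at this
      exact this
    · have := h1 (show Fin.castAdd l (Fin.last T) < Fin.natAdd (T + 1) i from by
        rw [Fin.lt_def]
        simp only [Fin.val_castAdd, Fin.val_natAdd, Fin.val_last]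
        omega)
      rw [Fin.append_right, Fin.append_left] at this
      exact this
  · rintro ⟨h1, h2⟩
    constructor
    · intro a b hab
      revert hab
      refine Fin.addCases (fun i => ?_) (fun i => ?_) a <;>
        refine Fin.addCases (fun j => ?_) (fun j => ?_) b
      · intro hab
        rw [Fin.append_left, Fin.append_left]
        refine hx ?_
        rw [Fin.lt_def] at hab ⊢
        simpa using hab
      · intro _
        rw [Fin.append_left, Fin.append_right]
        exact lt_of_lt_of_le (h2 j).2 (StrictAnti.antitone hx (Fin.le_last i))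
      · intro hab
        exfalso
        rw [Fin.lt_def] at hab
        simp only [Fin.val_castAdd, Fin.val_natAdd] at hab
        omega
      · intro hab
        rw [Fin.append_right, Fin.append_right]
        refine h1 ?_
        rw [Fin.lt_def] at hab ⊢
        simpa using hab
    · intro a
      refine Fin.addCases (fun i => ?_) (fun i => ?_) a
      · rw [Fin.append_left]
        exact hp i
      · rw [Fin.append_right]
        exact (h2 i).1

lemma app_left {T l : ℕ} (x : Fin (T + 1) → ℝ) (y : Fin l → ℝ)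
    (h : Fin.append x y ∈ Srt (T + 1 + l) ∧ pos (Fin.append x y)) : x ∈ Srt (T + 1) ∧ pos x := by
  obtain ⟨h1, h2⟩ := h
  constructor
  · intro i j hij
    have := h1 (show Fin.castAdd l i < Fin.castAdd l j from by
      rw [Fin.lt_def, Fin.val_castAdd, Fin.val_castAdd]
      exact Fin.lt_def.mp hij)
    rw [Fin.append_left, Fin.append_left] at this
    exact this
  · intro i
    have := h2 (Fin.castAdd l i)
    rw [Fin.append_left] at this
    exact this

lemma app_meas {a b : ℕ} (x : Fin a → ℝ) : Measurable fun y : Fin b → ℝ => Fin.append x y := by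
  refine measurable_pi_iff.mpr fun j => ?_
  refine Fin.addCases (fun i => ?_) (fun i => ?_) j
  · simp only [Fin.append_left]
    exact measurable_const
  · simp only [Fin.append_right]
    exact measurable_pi_apply i

/-- For fixed visible marks. -/
lemma stepF (hQ1 : claimQ1) (hQ2 : claimQ2) (hQ3 : claimQ3) (hI2 : claimI2) (hI5 : claimI5)
    (hI6 : claimI6) (s m T l : ℕ) (R : ℝ) (g : (Fin (s + 1) → ℝ) → ℝ) (hg : Measurable g)
    (hR : 1 ≤ R) (x : Fin (T + 1) → ℝ) :
    ∫⁻ y : Fin l → ℝ, ind (Fin.append x y ∈ Srt (T + 1 + l)) * (ind (pos (Fin.append x y)) *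
      (ENNReal.ofReal (Qs (T + 1 + l) m (Fin.append x y)) *
        Psi (T + 1) R g (Fin.append x y))) =
    ind (pos x) * ∫⁻ h : Fin s → ℝ, ind (pos (VV (1 - ∑ i, x i) h)) * (ind (x ∈ Srt (T + 1)) *
      (PP R (((s : ℝ) + 1) ^ (T + 1)) g x (VV (1 - ∑ i, x i) h) *
        ∑ t ∈ Finset.range (m + 1), ENNReal.ofReal ((m.choose t : ℝ) * Qs (T + 1) (m - t) x) *
          muL l t (VV (1 - ∑ i, x i) h) (x (Fin.last T)))) := by
  by_cases hx : x ∈ Srt (T + 1) ∧ pos x
  swap
  · have e1 : ∀ y : Fin l → ℝ, ind (Fin.append x y ∈ Srt (T + 1 + l)) *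
        (ind (pos (Fin.append x y)) * (ENNReal.ofReal (Qs (T + 1 + l) m (Fin.append x y)) *
        Psi (T + 1) R g (Fin.append x y))) = 0 := by
      intro y
      rw [← mul_assoc, ← ind_and, ind_false (fun h => hx (app_left x y h)), zero_mul]
    rw [lintegral_congr e1, lintegral_zero]
    by_cases hp : pos x
    · have hs : ¬ x ∈ Srt (T + 1) := fun h => hx ⟨h, hp⟩
      simp only [ind_false hs, zero_mul, mul_zero, lintegral_zero]
    · rw [ind_false hp, zero_mul]
  obtain ⟨hs, hp⟩ := hx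
  set N : ℝ := ((s : ℝ) + 1) ^ (T + 1) with hN
  have hV : Measurable fun h : Fin s → ℝ => VV (1 - ∑ i, x i) h :=
    VV_meas measurable_const measurable_id
  have hPP : Measurable fun h : Fin s → ℝ => PP R N g x (VV (1 - ∑ i, x i) h) :=
    PP_meas hI6 R N g hg measurable_const hV
  have hmuL : ∀ t, Measurable fun h : Fin s → ℝ =>
      muL l t (VV (1 - ∑ i, x i) h) (x (Fin.last T)) := by
    intro t
    have h1 := (hI6 s l 0 R g hg).2.2.2 l t
    exact h1.comp (hV.prodMk measurable_const)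
  -- the left hand side
  have e1 : ∀ y : Fin l → ℝ, ind (Fin.append x y ∈ Srt (T + 1 + l)) *
      (ind (pos (Fin.append x y)) * (ENNReal.ofReal (Qs (T + 1 + l) m (Fin.append x y)) *
        Psi (T + 1) R g (Fin.append x y))) =
      ∑ t ∈ Finset.range (m + 1), ENNReal.ofReal ((m.choose t : ℝ) * Qs (T + 1) (m - t) x) *
        (ind (y ∈ Srt l) * (ind (cond (x (Fin.last T)) y) *
          (ENNReal.ofReal (Qs l t y) * Psi2 R N g x y))) := by
    intro y
    rw [← mul_assoc, ← ind_and, ind_congr (app_iff x y hs hp)]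
    have e2 : ∑ t ∈ Finset.range (m + 1),
        ENNReal.ofReal ((m.choose t : ℝ) * Qs (T + 1) (m - t) x) *
        (ind (y ∈ Srt l) * (ind (cond (x (Fin.last T)) y) *
          (ENNReal.ofReal (Qs l t y) * Psi2 R N g x y))) =
        ind (y ∈ Srt l ∧ cond (x (Fin.last T)) y) * ((∑ t ∈ Finset.range (m + 1),
        ENNReal.ofReal ((m.choose t : ℝ) * Qs (T + 1) (m - t) x) *
          ENNReal.ofReal (Qs l t y)) * Psi2 R N g x y) := by
      rw [ind_and, Finset.sum_mul, Finset.mul_sum]
      refine Finset.sum_congr rfl fun t _ => ?_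
      ring
    rw [e2]
    refine ind_mul_congr fun hy => ?_
    obtain ⟨hy1, hy2⟩ := hy
    have hxy : ∀ i j, y j < x i := fun i j =>
      lt_of_lt_of_le (hy2 j).2 (StrictAnti.antitone hs (Fin.le_last i))
    rw [Psi_append hI5 hI6 s (T + 1) l R g hg hR x y hxy, hQ2 (T + 1) l m x y,
      ENNReal.ofReal_sum_of_nonneg]
    · congr 1
      refine Finset.sum_congr rfl fun t _ => ?_
      rw [ENNReal.ofReal_mul]
      exact mul_nonneg (by positivity) (hQ3.1 (T + 1) (m - t) x fun i => (hp i).le).2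
    · intro t _
      exact mul_nonneg (mul_nonneg (by positivity)
        (hQ3.1 (T + 1) (m - t) x fun i => (hp i).le).2)
        (hQ3.1 l t y fun i => (hy2 i).1.le).2
  have hQs : ∀ t, Measurable fun y : Fin l → ℝ => ENNReal.ofReal (Qs l t y) := fun t =>
    ENNReal.measurable_ofReal.comp (hQ3.2.1 l t).2.measurable
  have hm1 : ∀ t, Measurable fun y : Fin l → ℝ => ind (y ∈ Srt l) *
      (ind (cond (x (Fin.last T)) y) * (ENNReal.ofReal (Qs l t y) * Psi2 R N g x y)) := fun t =>
    (ind_meas (Srt_meas l)).mul ((ind_meas (cond_meas _)).mul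
      ((hQs t).mul (Psi2_meas hI6 R N g hg x)))
  rw [lintegral_congr e1, lintegral_finsetSum _ fun t _ => (hm1 t).const_mul _]
  have e3 : ∀ t ∈ Finset.range (m + 1), ∫⁻ y : Fin l → ℝ,
      ENNReal.ofReal ((m.choose t : ℝ) * Qs (T + 1) (m - t) x) * (ind (y ∈ Srt l) *
      (ind (cond (x (Fin.last T)) y) * (ENNReal.ofReal (Qs l t y) * Psi2 R N g x y))) =
      ENNReal.ofReal ((m.choose t : ℝ) * Qs (T + 1) (m - t) x) *
      ∫⁻ h : Fin s → ℝ, PP R N g x (VV (1 - ∑ i, x i) h) *
        muL l t (VV (1 - ∑ i, x i) h) (x (Fin.last T)) := by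
    intro t _
    rw [lintegral_const_mul _ (hm1 t), stepD hQ1 hQ3 hI2 hI6 t R N g hg x,
      stepE hQ3 hI6 t R N g hg x]
  rw [Finset.sum_congr rfl e3]
  -- the right hand side
  rw [ind_true hp, one_mul]
  have e4 : ∀ h : Fin s → ℝ, ind (pos (VV (1 - ∑ i, x i) h)) * (ind (x ∈ Srt (T + 1)) *
      (PP R N g x (VV (1 - ∑ i, x i) h) *
        ∑ t ∈ Finset.range (m + 1), ENNReal.ofReal ((m.choose t : ℝ) * Qs (T + 1) (m - t) x) *
          muL l t (VV (1 - ∑ i, x i) h) (x (Fin.last T)))) =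
      ∑ t ∈ Finset.range (m + 1), ENNReal.ofReal ((m.choose t : ℝ) * Qs (T + 1) (m - t) x) *
        (PP R N g x (VV (1 - ∑ i, x i) h) *
          muL l t (VV (1 - ∑ i, x i) h) (x (Fin.last T))) := by
    intro h
    rw [ind_true hs, one_mul]
    have e5 : ∀ t, ind (pos (VV (1 - ∑ i, x i) h)) *
        muL l t (VV (1 - ∑ i, x i) h) (x (Fin.last T)) =
        muL l t (VV (1 - ∑ i, x i) h) (x (Fin.last T)) := by
      intro t
      by_cases hv : pos (VV (1 - ∑ i, x i) h)
      · rw [ind_true hv, one_mul]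
      · rw [ind_false hv, zero_mul]
        symm
        unfold muL
        refine Finset.sum_eq_zero fun c _ => ?_
        have he : {y : Fin l → ℝ | (∀ i, 0 < y i ∧ y i < x (Fin.last T)) ∧
            ∀ q, (∑ i, if c i = q then y i else 0) < VV (1 - ∑ i, x i) h q} = ∅ := by
          rw [Set.eq_empty_iff_forall_notMem]
          rintro y ⟨h1, h2⟩
          refine hv fun q => lt_of_le_of_lt ?_ (h2 q)
          refine Finset.sum_nonneg fun i _ => ?_
          split_ifs
          · exact (h1 i).1.le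
          · exact le_refl _
        rw [he]
        simp
    rw [Finset.mul_sum, Finset.mul_sum]
    refine Finset.sum_congr rfl fun t _ => ?_
    rw [← e5 t]
    rw [show ∀ a b c d : ℝ≥0∞, a * (b * (c * (a * d))) = c * (b * (a * (a * d))) from
      fun a b c d => by ring, e5 t, e5 t]
  have hm2 : ∀ t, Measurable fun h : Fin s → ℝ => PP R N g x (VV (1 - ∑ i, x i) h) *
      muL l t (VV (1 - ∑ i, x i) h) (x (Fin.last T)) := fun t => hPP.mul (hmuL t)
  rw [lintegral_congr e4, lintegral_finsetSum _ fun t _ => (hm2 t).const_mul _]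
  refine Finset.sum_congr rfl fun t _ => ?_
  rw [lintegral_const_mul _ (hm2 t)]

end II8

open II8

theorem prfI8 (hQ1 : claimQ1) (hQ2 : claimQ2) (hQ3 : claimQ3) (hI2 : claimI2) (hI3 : claimI3)
    (hI5 : claimI5) (hI6 : claimI6) : claimI8 := by
  intro s m T l R g hg hR
  have hQs : ∀ k t, Measurable (Qs k t) := fun k t => (hQ3.2.1 k t).2.measurable
  rw [stepB hQ1 hQ3 hI2 hI3 hI6 s m (T + 1) R g hg (T + 1 + l)]
  have hF0 : Measurable fun z : Fin (T + 1 + l) → ℝ => ind (z ∈ Srt (T + 1 + l)) *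
      (ind (pos z) * (ENNReal.ofReal (Qs (T + 1 + l) m z) * Psi (T + 1) R g z)) :=
    (ind_meas (Srt_meas _)).mul ((ind_meas (pos_meas measurable_id)).mul
      ((ENNReal.measurable_ofReal.comp (hQs _ _)).mul (Psi_meas hI6 (T + 1) R g hg)))
  rw [lemC (T + 1) l _ hF0]
  have hxs : Measurable (xs : (Fin (T + 1) ⊕ Fin s → ℝ) → Fin (T + 1) → ℝ) :=
    measurable_pi_lambda _ fun i => measurable_pi_apply _
  have hS : MeasurableSet {y : Fin (T + 1) ⊕ Fin s → ℝ | xs y ∈ Srt (T + 1)} :=
    hxs (Srt_meas (T + 1))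
  set F : (Fin (T + 1) → ℝ) → (Fin (s + 1) → ℝ) → ℝ≥0∞ := fun x v => ind (x ∈ Srt (T + 1)) *
      (PP R (((s : ℝ) + 1) ^ (T + 1)) g x v *
        ∑ t ∈ Finset.range (m + 1), ENNReal.ofReal ((m.choose t : ℝ) * Qs (T + 1) (m - t) x) *
          muL l t v (x (Fin.last T))) with hFdef
  have hF : Measurable fun p : (Fin (T + 1) → ℝ) × (Fin (s + 1) → ℝ) => F p.1 p.2 := by
    have h1 : Measurable fun p : (Fin (T + 1) → ℝ) × (Fin (s + 1) → ℝ) =>
        PP R (((s : ℝ) + 1) ^ (T + 1)) g p.1 p.2 :=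
      PP_meas hI6 R _ g hg measurable_fst measurable_snd
    have h2 : Measurable fun p : (Fin (T + 1) → ℝ) × (Fin (s + 1) → ℝ) =>
        ind (p.1 ∈ Srt (T + 1)) := (ind_meas (Srt_meas (T + 1))).comp measurable_fst
    refine h2.mul (h1.mul (Finset.measurable_sum _ fun t _ => ?_))
    have h3 : Measurable fun p : (Fin (T + 1) → ℝ) × (Fin (s + 1) → ℝ) =>
        ENNReal.ofReal ((m.choose t : ℝ) * Qs (T + 1) (m - t) p.1) :=
      ENNReal.measurable_ofReal.comp (((hQs _ _).comp measurable_fst).const_mul _)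
    have h4 := (hI6 s l 0 R g hg).2.2.2 l t
    have h5 : Measurable fun p : (Fin (T + 1) → ℝ) × (Fin (s + 1) → ℝ) =>
        ((p.2, p.1 (Fin.last T)) : (Fin (s + 1) → ℝ) × ℝ) :=
      measurable_snd.prodMk ((measurable_pi_apply _).comp measurable_fst)
    exact h3.mul (h4.comp h5)
  have hr : ∫⁻ y in Sim (T + 1) s ∩ {y | xs y ∈ Srt (T + 1)},
      ENNReal.ofReal (pg R (((s : ℝ) + 1) ^ (T + 1)) (Pl g (xs y) (vs y))) *
      ∑ t ∈ Finset.range (m + 1), ENNReal.ofReal ((m.choose t : ℝ) * Qs (T + 1) (m - t) (xs y)) *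
        muL l t (vs y) (xs y (Fin.last T)) = ∫⁻ y in Sim (T + 1) s, F (xs y) (vs y) := by
    rw [Set.inter_comm, ← Measure.restrict_restrict hS, ← lintegral_indicator hS]
    refine lintegral_congr fun y => ?_
    by_cases hy : xs y ∈ Srt (T + 1)
    · rw [Set.indicator_of_mem (show y ∈ {y | xs y ∈ Srt (T + 1)} from hy), hFdef]
      simp only [ind_true hy, one_mul]
      rfl
    · rw [Set.indicator_of_notMem (show ¬ y ∈ {y | xs y ∈ Srt (T + 1)} from hy), hFdef]
      simp only [ind_false hy, zero_mul]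
  rw [hr, lemA (T + 1) s F hF]
  refine lintegral_congr fun x => ?_
  exact stepF hQ1 hQ2 hQ3 hI2 hI5 hI6 s m T l R g hg hR x

end Pool.Agent.Work.MP_122e00_nt.Sharp
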