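import Pool.Agent.Work.MP_122e00_nt.Sharp.Stmts

set_option autoImplicit false

/-!
# Item I9: the recursion for the moments
-/

namespace Pool.Agent.Work.MP_122e00_nt.Sharp

open Finset MeasureTheory

open scoped ENNReal

namespace I9

/-- Positions of the hidden marks. -/
def Cnd {s : ℕ} (l : ℕ) (h : Fin (s + 1) → ℝ) (z : ℝ) (c : Fin l → Fin (s + 1))
    (y : Fin l → ℝ) : Prop :=
  (∀ i, 0 < y i ∧ y i < z) ∧ ∀ q, (∑ i, if c i = q then y i else 0) < h q

open Classical in
/-- The integrand. -/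
noncomputable def G {s : ℕ} (l t : ℕ) (h : Fin (s + 1) → ℝ) (z : ℝ) (c : Fin l → Fin (s + 1))
    (y : Fin l → ℝ) : ℝ≥0∞ :=
  if Cnd l h z c y then ENNReal.ofReal (Qo l t y) else 0

lemma meas_Cnd {α : Type*} [MeasurableSpace α] {s : ℕ} (l : ℕ) (h : α → Fin (s + 1) → ℝ) (z : ℝ)
    (c : Fin l → Fin (s + 1)) (y : α → Fin l → ℝ) (hh : Measurable h) (hy : Measurable y) :
    MeasurableSet {a | Cnd l (h a) z c (y a)} := by
  have e : {a | Cnd l (h a) z c (y a)} =
      (⋂ i, ({a | 0 < y a i} ∩ {a | y a i < z})) ∩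
        ⋂ q, {a | (∑ i, if c i = q then y a i else 0) < h a q} := by
    ext a
    simp only [Cnd, Set.mem_ofPred_eq, Set.mem_inter_iff, Set.mem_iInter]
  rw [e]
  have hyi : ∀ i, Measurable fun a => y a i := fun i => (measurable_pi_apply i).comp hy
  refine MeasurableSet.inter ?_ ?_
  · refine MeasurableSet.iInter fun i => MeasurableSet.inter ?_ ?_
    · exact measurableSet_lt measurable_const (hyi i)
    · exact measurableSet_lt (hyi i) measurable_const
  · refine MeasurableSet.iInter fun q => measurableSet_lt ?_ ((measurable_pi_apply q).comp hh)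
    refine Finset.measurable_sum _ fun i _ => ?_
    by_cases hc : c i = q
    · simp only [hc, if_true]
      exact hyi i
    · simp only [hc, if_false]
      exact measurable_const

lemma meas_G (hQ : claimQ3) {α : Type*} [MeasurableSpace α] {s : ℕ} (l t : ℕ)
    (h : α → Fin (s + 1) → ℝ) (z : ℝ)
    (c : Fin l → Fin (s + 1)) (y : α → Fin l → ℝ) (hh : Measurable h) (hy : Measurable y) :
    Measurable fun a => G l t (h a) z c (y a) := by
  unfold G
  exact Measurable.ite (meas_Cnd l h z c y hh hy)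
    ((((hQ.2.1 l t).1.measurable).comp hy).ennreal_ofReal) measurable_const

lemma muL_eq {s : ℕ} (l t : ℕ) (h : Fin (s + 1) → ℝ) (z : ℝ) :
    muL l t h z = ∑ c : Fin l → Fin (s + 1), ∫⁻ y, G l t h z c y := by
  unfold muL
  refine Finset.sum_congr rfl fun c _ => ?_
  have hm := meas_Cnd (α := Fin l → ℝ) l (fun _ => h) z c (fun y => y) measurable_const
    measurable_id
  have e : {y : Fin l → ℝ | (∀ i, 0 < y i ∧ y i < z) ∧
      ∀ q, (∑ i, if c i = q then y i else 0) < h q} = {y | Cnd l h z c y} := rfl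
  rw [e, ← lintegral_indicator hm]
  refine lintegral_congr fun y => ?_
  unfold G
  by_cases hy : Cnd l h z c y
  · rw [if_pos hy, Set.indicator_of_mem (show y ∈ {y | Cnd l h z c y} from hy)]
  · rw [if_neg hy, Set.indicator_of_notMem (show y ∉ {y | Cnd l h z c y} from hy)]

/-- The remaining room. -/
noncomputable def hm {s : ℕ} (h : Fin (s + 1) → ℝ) (q : Fin (s + 1)) (y : ℝ) :
    Fin (s + 1) → ℝ := fun i => if i = q then h i - y else h i

lemma meas_hm {s : ℕ} (h : Fin (s + 1) → ℝ) (q : Fin (s + 1)) : Measurable (hm h q) := by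
  refine measurable_pi_iff.2 fun i => ?_
  unfold hm
  by_cases hi : i = q
  · simp only [hi, if_true]
    exact measurable_const.sub measurable_id
  · simp only [hi, if_false]
    exact measurable_const

lemma Cnd_cons {s : ℕ} (l : ℕ) (h : Fin (s + 1) → ℝ) (z : ℝ) (q : Fin (s + 1))
    (c : Fin l → Fin (s + 1)) (y0 : ℝ) (y : Fin l → ℝ) :
    Cnd (l + 1) h z (Fin.cons q c) (Fin.cons y0 y) ↔
      (0 < y0 ∧ y0 < z ∧ y0 < h q) ∧ Cnd l (hm h q y0) z c y := by
  unfold Cnd
  simp only [Fin.forall_fin_succ (P := fun i => 0 < (Fin.cons y0 y : Fin (l + 1) → ℝ) i ∧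
    (Fin.cons y0 y : Fin (l + 1) → ℝ) i < z), Fin.sum_univ_succ, Fin.cons_zero, Fin.cons_succ]
  have key : ∀ q', ((if q = q' then y0 else 0) + ∑ i, (if c i = q' then y i else 0) < h q') ↔
      ∑ i, (if c i = q' then y i else 0) < hm h q y0 q' := by
    intro q'
    unfold hm
    by_cases hq : q = q'
    · rw [if_pos hq, if_pos hq.symm]
      constructor <;> intro _ <;> linarith
    · rw [if_neg hq, if_neg (fun h' => hq h'.symm)]
      constructor <;> intro _ <;> linarith
  simp only [key]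
  constructor
  · rintro ⟨⟨⟨h1, h2⟩, h3⟩, h4⟩
    refine ⟨⟨h1, h2, ?_⟩, h3, h4⟩
    have h5 := h4 q
    unfold hm at h5
    rw [if_pos rfl] at h5
    have h6 : 0 ≤ ∑ i, (if c i = q then y i else 0) := by
      refine Finset.sum_nonneg fun i _ => ?_
      split_ifs
      · exact (h3 i).1.le
      · exact le_rfl
    linarith
  · rintro ⟨⟨h1, h2, _⟩, h3, h4⟩
    exact ⟨⟨⟨h1, h2⟩, h3⟩, h4⟩

lemma G_cons (hQ : claimQ3) {s : ℕ} (l t : ℕ) (h : Fin (s + 1) → ℝ) (z : ℝ) (q : Fin (s + 1))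
    (c : Fin l → Fin (s + 1)) (y0 : ℝ) (y : Fin l → ℝ) :
    G (l + 1) (t + 1) h z (Fin.cons q c) (Fin.cons y0 y) =
      Set.indicator {y : ℝ | 0 < y ∧ y < z ∧ y < h q} (fun y0 => ∑ b ∈ Finset.range (t + 1),
        ENNReal.ofReal (t.choose b : ℝ) * (ENNReal.ofReal (y0 ^ b) *
          G l (t - b) (hm h q y0) z c y)) y0 := by
  classical
  by_cases h0 : 0 < y0 ∧ y0 < z ∧ y0 < h q
  · rw [Set.indicator_of_mem (show y0 ∈ {y : ℝ | 0 < y ∧ y < z ∧ y < h q} from h0)]
    by_cases h1 : Cnd l (hm h q y0) z c y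
    · unfold G
      rw [if_pos ((Cnd_cons l h z q c y0 y).2 ⟨h0, h1⟩)]
      simp only [if_pos h1]
      have hnn : ∀ i, 0 ≤ y i := fun i => (h1.1 i).1.le
      have e : Qo (l + 1) (t + 1) (Fin.cons y0 y : Fin (l + 1) → ℝ) =
          ∑ b ∈ Finset.range (t + 1), (t.choose b : ℝ) * (y0 ^ b * Qo l (t - b) y) := by
        simp only [Qo, Nat.add_sub_cancel, Fin.cons_zero, Fin.tail_cons, mul_assoc]
      rw [e, ENNReal.ofReal_sum_of_nonneg]
      · refine Finset.sum_congr rfl fun b _ => ?_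
        rw [ENNReal.ofReal_mul (Nat.cast_nonneg _), ENNReal.ofReal_mul (pow_nonneg h0.1.le _)]
      · intro b _
        exact mul_nonneg (Nat.cast_nonneg _)
          (mul_nonneg (pow_nonneg h0.1.le _) (hQ.1 l (t - b) y hnn).1)
    · unfold G
      rw [if_neg (fun h' => h1 ((Cnd_cons l h z q c y0 y).1 h').2)]
      simp only [if_neg h1, mul_zero, Finset.sum_const_zero]
  · rw [Set.indicator_of_notMem (show y0 ∉ {y : ℝ | 0 < y ∧ y < z ∧ y < h q} from h0)]
    unfold G
    rw [if_neg (fun h' => h0 ((Cnd_cons l h z q c y0 y).1 h').1)]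

lemma peel {l : ℕ} (F : (Fin (l + 1) → ℝ) → ℝ≥0∞) (hF : Measurable F) :
    ∫⁻ x, F x = ∫⁻ t : ℝ, ∫⁻ y : Fin l → ℝ, F (Fin.cons t y) := by
  have hmp := (volume_preserving_piFinSuccAbove (fun _ : Fin (l + 1) => ℝ) 0).symm
  have h1 : ∫⁻ x, F x = ∫⁻ p : ℝ × (Fin l → ℝ), F (Fin.cons p.1 p.2) := by
    rw [← hmp.lintegral_comp_emb (MeasurableEquiv.measurableEmbedding _)]
    refine lintegral_congr fun p => ?_
    congr 1
    funext m
    refine Fin.cases ?_ (fun i => ?_) m
    · simp [MeasurableEquiv.piFinSuccAbove]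
    · simp [MeasurableEquiv.piFinSuccAbove]
  have hm : Measurable (fun p : ℝ × (Fin l → ℝ) => F (Fin.cons p.1 p.2)) := by
    refine hF.comp (measurable_pi_iff.2 fun m => ?_)
    refine Fin.cases ?_ (fun i => ?_) m
    · simp only [Fin.cons_zero]
      exact measurable_fst
    · simp only [Fin.cons_succ]
      exact (measurable_pi_apply i).comp measurable_snd
  rw [h1, Measure.volume_eq_prod, lintegral_prod _ hm.aemeasurable]

lemma meas_reg (z w : ℝ) : MeasurableSet {y : ℝ | 0 < y ∧ y < z ∧ y < w} := by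
  have e : {y : ℝ | 0 < y ∧ y < z ∧ y < w} = {y : ℝ | 0 < y} ∩ ({y : ℝ | y < z} ∩
      {y : ℝ | y < w}) := rfl
  rw [e]
  exact (measurableSet_lt measurable_const measurable_id).inter
    ((measurableSet_lt measurable_id measurable_const).inter
      (measurableSet_lt measurable_id measurable_const))

lemma meas_IG (hQ : claimQ3) {s : ℕ} (l t : ℕ) (h : Fin (s + 1) → ℝ) (z : ℝ) (q : Fin (s + 1))
    (c : Fin l → Fin (s + 1)) :
    Measurable fun y0 : ℝ => ∫⁻ y, G l t (hm h q y0) z c y := by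
  have hm' : Measurable (fun p : ℝ × (Fin l → ℝ) => G l t (hm h q p.1) z c p.2) :=
    meas_G hQ l t (fun p : ℝ × (Fin l → ℝ) => hm h q p.1) z c (fun p => p.2)
      ((meas_hm h q).comp measurable_fst) measurable_snd
  exact hm'.lintegral_prod_right'

lemma meas_muL (hQ : claimQ3) {s : ℕ} (l t : ℕ) (h : Fin (s + 1) → ℝ) (z : ℝ)
    (q : Fin (s + 1)) : Measurable fun y0 : ℝ => muL l t (hm h q y0) z := by
  simp only [muL_eq]
  exact Finset.measurable_sum _ fun c _ => meas_IG hQ l t h z q c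

lemma int_cons (hQ : claimQ3) {s : ℕ} (l t : ℕ) (h : Fin (s + 1) → ℝ) (z : ℝ)
    (q : Fin (s + 1)) (c : Fin l → Fin (s + 1)) :
    ∫⁻ y, G (l + 1) (t + 1) h z (Fin.cons q c) y =
      ∑ b ∈ Finset.range (t + 1), ENNReal.ofReal (t.choose b : ℝ) *
        ∫⁻ y0 in {y : ℝ | 0 < y ∧ y < z ∧ y < h q}, ENNReal.ofReal (y0 ^ b) *
          ∫⁻ y, G l (t - b) (hm h q y0) z c y := by
  rw [peel _ (meas_G hQ (l + 1) (t + 1) (fun _ => h) z _ (fun y => y) measurable_const
    measurable_id)]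
  have e1 : ∀ y0 : ℝ, ∫⁻ y : Fin l → ℝ,
      G (l + 1) (t + 1) h z (Fin.cons q c) (Fin.cons y0 y) =
      Set.indicator {y : ℝ | 0 < y ∧ y < z ∧ y < h q} (fun y0 => ∑ b ∈ Finset.range (t + 1),
        ENNReal.ofReal (t.choose b : ℝ) * (ENNReal.ofReal (y0 ^ b) *
          ∫⁻ y, G l (t - b) (hm h q y0) z c y)) y0 := by
    intro y0
    simp_rw [G_cons hQ]
    by_cases h0 : y0 ∈ {y : ℝ | 0 < y ∧ y < z ∧ y < h q}
    · simp only [Set.indicator_of_mem h0]
      have hmG : ∀ b, Measurable fun y : Fin l → ℝ => G l (t - b) (hm h q y0) z c y := fun b =>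
        meas_G hQ l (t - b) (fun _ => hm h q y0) z c (fun y => y) measurable_const measurable_id
      rw [lintegral_finsetSum _ fun b _ => ((hmG b).const_mul _).const_mul _]
      refine Finset.sum_congr rfl fun b _ => ?_
      rw [lintegral_const_mul _ ((hmG b).const_mul _), lintegral_const_mul _ (hmG b)]
    · simp only [Set.indicator_of_notMem h0, lintegral_zero]
  simp_rw [e1]
  rw [lintegral_indicator (meas_reg z (h q))]
  have hmm : ∀ b, Measurable fun y0 : ℝ => ENNReal.ofReal (y0 ^ b) *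
      ∫⁻ y, G l (t - b) (hm h q y0) z c y := fun b =>
    ((measurable_id.pow_const b).ennreal_ofReal).mul (meas_IG hQ l (t - b) h z q c)
  rw [lintegral_finsetSum _ fun b _ => (hmm b).const_mul _]
  refine Finset.sum_congr rfl fun b _ => ?_
  rw [lintegral_const_mul _ (hmm b)]

lemma muL_succ (hQ : claimQ3) {s : ℕ} (l t : ℕ) (h : Fin (s + 1) → ℝ) (z : ℝ) :
    muL (l + 1) (t + 1) h z = ∑ b ∈ Finset.range (t + 1), ∑ q : Fin (s + 1),
      ENNReal.ofReal (t.choose b : ℝ) * ∫⁻ y0 in {y : ℝ | 0 < y ∧ y < z ∧ y < h q},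
        ENNReal.ofReal (y0 ^ b) * muL l (t - b) (hm h q y0) z := by
  rw [muL_eq, ← Equiv.sum_comp (Fin.consEquiv (fun _ : Fin (l + 1) => Fin (s + 1))),
    Fintype.sum_prod_type]
  have e1 : ∀ (q : Fin (s + 1)) (c : Fin l → Fin (s + 1)),
      (Fin.consEquiv (fun _ : Fin (l + 1) => Fin (s + 1))) (q, c) = Fin.cons q c := fun _ _ => rfl
  simp_rw [e1, int_cons hQ]
  rw [Finset.sum_comm]
  rw [Finset.sum_congr rfl fun c _ => Finset.sum_comm]
  rw [Finset.sum_comm]
  refine Finset.sum_congr rfl fun b _ => ?_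
  rw [Finset.sum_comm]
  refine Finset.sum_congr rfl fun q _ => ?_
  rw [← Finset.mul_sum]
  congr 1
  have hmm : ∀ c : Fin l → Fin (s + 1), Measurable fun y0 : ℝ => ENNReal.ofReal (y0 ^ b) *
      ∫⁻ y, G l (t - b) (hm h q y0) z c y := fun c =>
    ((measurable_id.pow_const b).ennreal_ofReal).mul (meas_IG hQ l (t - b) h z q c)
  rw [← lintegral_finsetSum _ fun c _ => hmm c]
  refine lintegral_congr fun y0 => ?_
  rw [← Finset.mul_sum, ← muL_eq]

end I9

open I9 in
theorem prfI9 : claimQ3 → claimI9 := by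
  intro hQ s t h z
  have h0 : muL 0 (t + 1) h z = 0 := by
    unfold muL
    refine Finset.sum_eq_zero fun c _ => ?_
    simp [Qo]
  have hz : ∀ (l m : ℕ) (h' : Fin (s + 1) → ℝ), m < l → muL l m h' z = 0 := by
    intro l m h' hl
    unfold muL
    refine Finset.sum_eq_zero fun c _ => ?_
    have : ∀ y : Fin l → ℝ, Qo l m y = 0 := fun y => (hQ.2.2.1 l m y hl).1
    simp [this]
  have hmu : ∀ (b : ℕ) (h' : Fin (s + 1) → ℝ), b ≤ t →
      ∑ l ∈ Finset.range (t + 1), muL l (t - b) h' z = mu (t - b) h' z := by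
    intro b h' hb
    unfold mu
    symm
    refine Finset.sum_subset (Finset.range_mono (by omega)) fun l _ hl => ?_
    rw [Finset.mem_range, not_lt] at hl
    exact hz l (t - b) h' (by omega)
  unfold mu
  rw [Finset.sum_range_succ', h0, add_zero]
  simp_rw [muL_succ hQ]
  rw [Finset.sum_comm]
  refine Finset.sum_congr rfl fun b hb => ?_
  rw [Finset.sum_comm]
  refine Finset.sum_congr rfl fun q _ => ?_
  rw [← Finset.mul_sum]
  congr 1
  have hmm : ∀ l : ℕ, Measurable fun y0 : ℝ => ENNReal.ofReal (y0 ^ b) *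
      muL l (t - b) (hm h q y0) z := fun l =>
    ((measurable_id.pow_const b).ennreal_ofReal).mul (meas_muL hQ l (t - b) h z q)
  rw [← lintegral_finsetSum _ fun l _ => hmm l]
  refine lintegral_congr fun y0 => ?_
  rw [← Finset.mul_sum, hmu b _ (by have := Finset.mem_range.1 hb; omega)]
  rfl

end Pool.Agent.Work.MP_122e00_nt.Sharp
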