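import Pool.Agent.Work.MP_122e00_nt.Sharp.Stmts

set_option autoImplicit false

/-!
# Q0: the symmetric weight is a coefficient of a product of power series
-/

namespace Pool.Agent.Work.MP_122e00_nt.Sharp

open Finset Filter Topology MeasureTheory

open scoped ENNReal ArithmeticFunction.vonMangoldt ArithmeticFunction.zeta

open Two Gen

namespace IQ0

/-- The exponential type series. -/
noncomputable def E (y : ℝ) : PowerSeries ℝ :=
  PowerSeries.mk fun n : ℕ => if n = 0 then (0 : ℝ) else y ^ (n - 1) / (n.factorial : ℝ)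

theorem coeff_E_zero (y : ℝ) : PowerSeries.coeff 0 (E y) = 0 := by
  simp [E]

theorem coeff_E_succ (y : ℝ) (b : ℕ) :
    PowerSeries.coeff (b + 1) (E y) = y ^ b / ((b + 1).factorial : ℝ) := by
  simp [E]

theorem main (k : ℕ) : ∀ (m : ℕ) (x : Fin k → ℝ), Qs k m x = (m.factorial : ℝ) *
    PowerSeries.coeff m (∏ i : Fin k, E (x i)) := by
  induction k with
  | zero =>
    intro m x
    simp only [Qs, Finset.univ_eq_empty, Finset.prod_empty, PowerSeries.coeff_one]
    by_cases hm : m = 0
    · simp [hm]
    · simp [hm]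
  | succ k ih =>
    intro m x
    rw [Fin.prod_univ_succ, PowerSeries.coeff_mul,
      Finset.Nat.sum_antidiagonal_eq_sum_range_succ
        (fun i j => PowerSeries.coeff i (E (x 0)) *
          PowerSeries.coeff j (∏ i : Fin k, E (x i.succ))) m,
      Finset.sum_range_succ', coeff_E_zero, zero_mul, add_zero, Finset.mul_sum]
    simp only [Qs]
    refine Finset.sum_congr rfl fun b hb => ?_
    have hb' : b + 1 ≤ m := Finset.mem_range.1 hb
    rw [ih, coeff_E_succ]
    have hc : ((m.choose (b + 1) : ℝ)) * ((b + 1).factorial : ℝ) *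
        ((m - (b + 1)).factorial : ℝ) = (m.factorial : ℝ) := by
      exact_mod_cast Nat.choose_mul_factorial_mul_factorial hb'
    have h0 : ((b + 1).factorial : ℝ) ≠ 0 := by exact_mod_cast (b + 1).factorial_ne_zero
    rw [← hc]
    have ht : (∏ i : Fin k, E (Fin.tail x i)) = ∏ i : Fin k, E (x i.succ) := rfl
    rw [ht]
    field_simp

end IQ0

theorem prfQ0 : claimQ0 := by
  intro k m x
  exact IQ0.main k m x

end Pool.Agent.Work.MP_122e00_nt.Sharp
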