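import Pool.Agent.Work.MP_122e00_nt.Sharp.Stmts

set_option autoImplicit false

/-!
# Q1: symmetrisation of the ordered weight
-/

namespace Pool.Agent.Work.MP_122e00_nt.Sharp

open Finset Filter Topology MeasureTheory

open scoped ENNReal ArithmeticFunction.vonMangoldt ArithmeticFunction.zeta

open Two Gen

namespace IQ1

/-- The exponential type series. -/
noncomputable def E (y : ℝ) : PowerSeries ℝ :=
  PowerSeries.mk fun n : ℕ => if n = 0 then (0 : ℝ) else y ^ (n - 1) / (n.factorial : ℝ)

theorem coeff_dE (y : ℝ) (b : ℕ) :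
    PowerSeries.coeff b (PowerSeries.derivative ℝ (E y)) = y ^ b / (b.factorial : ℝ) := by
  rw [PowerSeries.coeff_derivative]
  simp only [E, PowerSeries.coeff_mk, Nat.succ_ne_zero, if_false, Nat.add_sub_cancel]
  have h0 : (b.factorial : ℝ) ≠ 0 := by exact_mod_cast b.factorial_ne_zero
  have h1 : ((b : ℝ) + 1) ≠ 0 := by positivity
  rw [Nat.factorial_succ]
  push_cast
  field_simp

theorem deriv_prod {ι : Type} [DecidableEq ι] (s : Finset ι) (f : ι → PowerSeries ℝ) :
    PowerSeries.derivative ℝ (∏ i ∈ s, f i) =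
      ∑ i ∈ s, PowerSeries.derivative ℝ (f i) * ∏ j ∈ s.erase i, f j := by
  induction s using Finset.induction_on with
  | empty => simp
  | insert a s ha ih =>
    rw [Finset.prod_insert ha, Derivation.leibniz, ih, Finset.sum_insert ha,
      Finset.erase_insert ha, smul_eq_mul, smul_eq_mul, Finset.mul_sum, add_comm]
    congr 1
    · ring
    · refine Finset.sum_congr rfl fun i hi => ?_
      have hia : i ≠ a := fun h => ha (h ▸ hi)
      rw [Finset.erase_insert_of_ne hia.symm, Finset.prod_insert
        (fun h => ha (Finset.mem_of_mem_erase h))]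
      ring

theorem deriv_prod_fin {k : ℕ} (f : Fin (k + 1) → PowerSeries ℝ) :
    PowerSeries.derivative ℝ (∏ i, f i) =
      ∑ i, PowerSeries.derivative ℝ (f i) * ∏ j : Fin k, f (i.succAbove j) := by
  rw [deriv_prod]
  refine Finset.sum_congr rfl fun i _ => ?_
  congr 1
  rw [Fin.univ_succAbove k i, Finset.erase_cons, Finset.prod_map]
  rfl

/-- The recursion of the symmetric weight. -/
theorem rec_Qs (hQ0 : claimQ0) (k n : ℕ) (x : Fin (k + 1) → ℝ) :
    Qs (k + 1) (n + 1) x = ∑ i, ∑ b ∈ Finset.range (n + 1), (n.choose b : ℝ) * x i ^ b *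
      Qs k (n - b) (fun j => x (i.succAbove j)) := by
  have h1 : Qs (k + 1) (n + 1) x = (n.factorial : ℝ) *
      PowerSeries.coeff n (PowerSeries.derivative ℝ (∏ i : Fin (k + 1), E (x i))) := by
    rw [hQ0, PowerSeries.coeff_derivative, Nat.factorial_succ]
    push_cast
    unfold E
    ring
  rw [h1, deriv_prod_fin, map_sum, Finset.mul_sum]
  refine Finset.sum_congr rfl fun i _ => ?_
  rw [PowerSeries.coeff_mul, Finset.Nat.sum_antidiagonal_eq_sum_range_succ
    (fun a b => PowerSeries.coeff a (PowerSeries.derivative ℝ (E (x i))) *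
      PowerSeries.coeff b (∏ j : Fin k, E (x (i.succAbove j)))) n, Finset.mul_sum]
  refine Finset.sum_congr rfl fun b hb => ?_
  have hb' : b ≤ n := Nat.lt_succ_iff.1 (Finset.mem_range.1 hb)
  rw [coeff_dE, hQ0 k (n - b)]
  have hc : ((n.choose b : ℝ)) * (b.factorial : ℝ) *
      ((n - b).factorial : ℝ) = (n.factorial : ℝ) := by
    exact_mod_cast Nat.choose_mul_factorial_mul_factorial hb'
  have h0 : (b.factorial : ℝ) ≠ 0 := by exact_mod_cast b.factorial_ne_zero
  rw [← hc]
  unfold E
  field_simp

/-- The permutation with given value at `0` and given order of the other values. -/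
def mkP {k : ℕ} (p : Fin (k + 1) × Equiv.Perm (Fin k)) : Equiv.Perm (Fin (k + 1)) :=
  (finSuccEquiv' 0).trans ((Equiv.optionCongr p.2).trans (finSuccEquiv' p.1).symm)

theorem mkP_zero {k : ℕ} (p : Fin (k + 1) × Equiv.Perm (Fin k)) : mkP p 0 = p.1 := by
  simp [mkP]

theorem mkP_succ {k : ℕ} (p : Fin (k + 1) × Equiv.Perm (Fin k)) (j : Fin k) :
    mkP p j.succ = p.1.succAbove (p.2 j) := by
  have h : (j.succ : Fin (k + 1)) = (0 : Fin (k + 1)).succAbove j := by
    rw [Fin.succAbove_zero]
  unfold mkP
  rw [h]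
  simp only [Equiv.trans_apply, finSuccEquiv'_succAbove, Equiv.optionCongr_apply, Option.map_some,
    finSuccEquiv'_symm_some]

theorem mkP_injective (k : ℕ) : Function.Injective (mkP (k := k)) := by
  rintro ⟨i, τ⟩ ⟨i', τ'⟩ h
  have h0 : i = i' := by
    have := congrArg (fun e : Equiv.Perm (Fin (k + 1)) => e 0) h
    simpa [mkP_zero] using this
  subst h0
  have h1 : τ = τ' := by
    ext j
    have := congrArg (fun e : Equiv.Perm (Fin (k + 1)) => e j.succ) h
    simp only [mkP_succ] at this
    exact congrArg Fin.val (Fin.succAbove_right_injective this)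
  rw [h1]

theorem mkP_bijective (k : ℕ) : Function.Bijective (mkP (k := k)) := by
  rw [Fintype.bijective_iff_injective_and_card]
  refine ⟨mkP_injective k, ?_⟩
  rw [Fintype.card_prod, Fintype.card_perm, Fintype.card_perm, Fintype.card_fin, Fintype.card_fin,
    Nat.factorial_succ]

theorem main (hQ0 : claimQ0) (k : ℕ) : ∀ (m : ℕ) (x : Fin k → ℝ),
    ∑ σ : Equiv.Perm (Fin k), Qo k m (fun i => x (σ i)) = Qs k m x := by
  induction k with
  | zero =>
    intro m x
    rw [Fintype.sum_unique]
    simp [Qo, Qs]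
  | succ k ih =>
    intro m x
    rw [← (mkP_bijective k).sum_comp, Fintype.sum_prod_type]
    cases m with
    | zero => simp [Qo, Qs]
    | succ n =>
      rw [rec_Qs hQ0]
      refine Finset.sum_congr rfl fun i _ => ?_
      have h1 : ∀ τ : Equiv.Perm (Fin k),
          Qo (k + 1) (n + 1) (fun a => x (mkP (i, τ) a)) =
          ∑ b ∈ Finset.range (n + 1), (n.choose b : ℝ) * x i ^ b *
            Qo k (n - b) (fun j => x (i.succAbove (τ j))) := by
        intro τ
        simp only [Qo, Nat.add_sub_cancel]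
        refine Finset.sum_congr rfl fun b _ => ?_
        rw [mkP_zero]
        have ht : Fin.tail (fun a => x (mkP (i, τ) a)) = fun j => x (i.succAbove (τ j)) := by
          funext j
          exact congrArg x (mkP_succ (i, τ) j)
        rw [ht]
      rw [Finset.sum_congr rfl fun τ _ => h1 τ, Finset.sum_comm]
      refine Finset.sum_congr rfl fun b _ => ?_
      rw [← Finset.mul_sum, ih (n - b) (fun j => x (i.succAbove j))]

end IQ1

theorem prfQ1 (hQ0 : claimQ0) : claimQ1 := by
  intro k m x
  exact IQ1.main hQ0 k m x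

end Pool.Agent.Work.MP_122e00_nt.Sharp
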