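import Pool.Agent.Work.MP_122e00_nt.Bdx.B09
import Pool.Agent.Work.MP_122e00_nt.Bd.B57
import Pool.Agent.Work.MP_122e00_nt.Sharp.ItemQ0
import Pool.Agent.Work.MP_122e00_nt.Sharp.ItemQ1
import Pool.Agent.Work.MP_122e00_nt.Bd.B52
import Pool.Agent.Work.MP_122e00_nt.Bd.B48
import Pool.Agent.Work.MP_122e00_nt.Bdx.B04
import Pool.Agent.Work.MP_122e00_nt.Sharp.ItemF2
import Pool.Agent.Work.MP_122e00_nt.Sharp.ItemF3
import Pool.Agent.Work.MP_122e00_nt.Bdx.B05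
import Pool.Agent.Work.MP_122e00_nt.Sharp.ItemI8
import Pool.Agent.Work.MP_122e00_nt.Sharp.ItemI9
import Pool.Agent.Work.MP_122e00_nt.Sharp.ItemI13
import Pool.Agent.Work.MP_122e00_nt.Sharp.ItemI14
import Pool.Agent.Work.MP_122e00_nt.Sharp.ItemI16

set_option autoImplicit false

/-!
# The sharp two-sided scheme: assembly
-/

namespace Pool.Agent.Work.MP_122e00_nt.Sharp

open Finset Filter

open scoped ENNReal

theorem mQ1 : claimQ1 := prfQ1 prfQ0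

theorem mQ2 : claimQ2 := prfQ2 prfQ0

theorem mD3 : claimD3 := prfD3 prfD2

theorem mD4 : claimD4 := prfD4 mD3

theorem mD5 : claimD5 := prfD5 prfD1 mD4 prfQ3 Gen.prfB3 Gen.mB5

theorem mD6 : claimD6 := prfD6 mD5 prfQ3 Gen.prfB3

theorem mF1 : claimF1 := prfF1 prfQ3

theorem mF2 : claimF2 := prfF2 prfQ3

theorem mN1 : claimN1 := prfN1 Gen.prfM1 Gen.prfM2 mF1 mF2 prfF3

theorem mI0 : claimI0 := prfI0 mF1 prfQ3 prfI6

theorem mI1 : claimI1 := prfI1 prfQ3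

theorem mI7 : claimI7 := prfI7 mQ1 prfQ3 prfI2 prfI3 prfI4 prfI6

theorem mI8 : claimI8 := prfI8 mQ1 mQ2 prfQ3 prfI2 prfI3 prfI5 prfI6

theorem mI9 : claimI9 := prfI9 prfQ3

theorem mI10 : claimI10 := prfI10 mI9

theorem mI11 : claimI11 := prfI11 mI8 prfQ3

theorem mI15 : claimI15 := prfI15 prfI6 mI7 prfI12 prfI13 prfI14 prfQ3

theorem mI16 : claimI16 := prfI16 prfQ3 prfI6 mI10 mI11 prfI12 prfI13 prfI14

/-- The two-sided bound, from a numerical certificate. -/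
theorem main_of (hN0 : Gen.claimN0) (m T : ℕ) (V : ℝ) (hm : 1 ≤ m) (hT : T ≤ m) (hV : 0 ≤ V)
    (hcert : ∑ k ∈ Finset.range T, Jk m (k + 1) (2187 / 4) + JH m T (2187 / 4) ≤
      ENNReal.ofReal V) (h : ℕ) (hh : h ≠ 0) (E : ℝ) (hE : 2 * V + 9 / 40000 < E) :
    ∀ᶠ X : ℝ in atTop, |Gen.DS 2 h 0 ⌊X⌋₊ - Csing 2 h / 4 * (X * (Real.log X) ^ (2 * 2))| ≤
      E * (Csing 2 h / 4) * (X * (Real.log X) ^ (2 * 2)) :=
  final_of mD6 mF1 prfF3 mN1 mI0 (Gen.mAT2' hN0) Gen.prfX0 Gen.mE8 Gen.mE11 m (T + 1) (2187 / 4)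
    V hm le_rfl (num_of mI1 mI15 mI16 m T (2187 / 4) V hm (by omega) (by norm_num) hV mF1 hcert)
    h hh E hE

/-- The two-sided bound, from a numerical certificate. -/
theorem main (m T : ℕ) (V : ℝ) (hm : 1 ≤ m) (hT : T ≤ m) (hV : 0 ≤ V)
    (hcert : ∑ k ∈ Finset.range T, Jk m (k + 1) (2187 / 4) + JH m T (2187 / 4) ≤
      ENNReal.ofReal V) (h : ℕ) (hh : h ≠ 0) (E : ℝ) (hE : 2 * V + 9 / 40000 < E) :
    ∀ᶠ X : ℝ in atTop, |Gen.DS 2 h 0 ⌊X⌋₊ - Csing 2 h / 4 * (X * (Real.log X) ^ (2 * 2))| ≤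
      E * (Csing 2 h / 4) * (X * (Real.log X) ^ (2 * 2)) :=
  main_of Gen.prfN0 m T V hm hT hV hcert h hh E hE

end Pool.Agent.Work.MP_122e00_nt.Sharp
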