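import Pool.Agent.Work.MP_122e00_nt.Sharp.Main
import Pool.Agent.Work.MP_122e00_nt.Euler4

set_option autoImplicit false

/-!
# The hand-in form of the two-sided bound
-/

namespace Pool.Agent.Work.MP_122e00_nt.Sharp.Handin

open Filter Topology ArithmeticFunction
open scoped ArithmeticFunction.zeta

/-- The probability that `p ^ j` divides the product of `s` independent random integers. -/
noncomputable def prob (s p j : ℕ) : ℝ :=
  1 - (1 - 1 / (p : ℝ)) ^ s *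
    ∑ i ∈ Finset.range j, ((i + s - 1).choose (s - 1) : ℝ) / (p : ℝ) ^ i

/-- The local factor at `p`, where `ν` is the exponent of `p` in the shift. -/
noncomputable def localFactor (s p ν : ℕ) : ℝ :=
  ∑ j ∈ Finset.range (ν + 1), (p : ℝ) ^ j * (prob s p j ^ 2 - prob s p (j + 1) ^ 2)

/-- The conjectured leading coefficient of `D_r(X;h) / (X (log X)^(2(r-1)))`. -/
noncomputable def leadCoeff (r h : ℕ) : ℝ :=
  (∏' p : Nat.Primes, localFactor (r - 1) p (h.factorization p)) / ((r - 1).factorial : ℝ) ^ 2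

theorem result_of (E : ℝ)
    (H : ∀ h : ℕ, h ≠ 0 → ∀ᶠ X : ℝ in atTop,
      |Gen.DS 2 h 0 ⌊X⌋₊ - Csing 2 h / 4 * (X * (Real.log X) ^ (2 * 2))| ≤
      E * (Csing 2 h / 4) * (X * (Real.log X) ^ (2 * 2))) (h : ℕ) (hh : 0 < h) :
    0 < leadCoeff 3 h ∧
    ∀ᶠ X : ℝ in atTop,
      |(∑ n ∈ Finset.Icc 1 ⌊X⌋₊, ((((ζ : ArithmeticFunction ℕ) ^ 3) n *
          ((ζ : ArithmeticFunction ℕ) ^ 3) (n + h) : ℕ) : ℝ)) /
        (leadCoeff 3 h * (X * (Real.log X) ^ 4)) - 1| ≤ E := by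
  have hh0 : h ≠ 0 := by omega
  have hlead : leadCoeff 3 h = Work.MP_122e00_nt.Csing 2 h / 4 := by
    unfold leadCoeff
    rw [Work.MP_122e00_nt.Csing_eq (by norm_num : 1 ≤ 2) h hh0]
    have h4 : (((3 - 1 : ℕ).factorial : ℝ)) ^ 2 = 4 := by norm_num [Nat.factorial]
    rw [h4]
    rfl
  have hpos := Work.MP_122e00_nt.Csing_pos (by norm_num : 1 ≤ 2) h hh0
  have hl0 : 0 < leadCoeff 3 h := by
    rw [hlead]
    positivity
  refine ⟨hl0, ?_⟩
  filter_upwards [H h hh0, eventually_gt_atTop (1 : ℝ)] with X hX hX1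
  have hlog : 0 < Real.log X := Real.log_pos hX1
  have hX0 : 0 < X := by linarith
  have hQ : 0 < leadCoeff 3 h * (X * (Real.log X) ^ 4) := by positivity
  rw [← hlead] at hX
  have hDS : Gen.DS 2 h 0 ⌊X⌋₊ = ∑ n ∈ Finset.Icc 1 ⌊X⌋₊, ((((ζ : ArithmeticFunction ℕ) ^ 3) n *
          ((ζ : ArithmeticFunction ℕ) ^ 3) (n + h) : ℕ) : ℝ) := by
    unfold Gen.DS
    have e : Finset.Icc 1 ⌊X⌋₊ = Finset.Ioc 0 ⌊X⌋₊ := by
      ext n
      simp only [Finset.mem_Icc, Finset.mem_Ioc]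
      omega
    rw [e]
    refine Finset.sum_congr rfl fun n _ => ?_
    push_cast
    rfl
  rw [hDS] at hX
  set Q : ℝ := leadCoeff 3 h * (X * (Real.log X) ^ 4) with hQd
  have e1 : ∀ D : ℝ, D / Q - 1 = (D - leadCoeff 3 h * (X * (Real.log X) ^ (2 * 2))) / Q := by
    intro D
    have : leadCoeff 3 h * (X * (Real.log X) ^ (2 * 2)) = Q := rfl
    rw [this]
    field_simp
  rw [e1, abs_div, abs_of_pos hQ, div_le_iff₀ hQ]
  refine hX.trans (le_of_eq ?_)
  rw [hQd]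
  ring

end Pool.Agent.Work.MP_122e00_nt.Sharp.Handin
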